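import Mathlib
set_option autoImplicit false
set_option linter.unusedVariables false
open Finset

namespace TZ

/-- minor of `M` on rows `I` and columns `J` -/
noncomputable def mn (M : ℤ → ℤ → ℝ) {k : ℕ} (I J : Fin k → ℤ) : ℝ :=
  (Matrix.of fun a b : Fin k => M (I a) (J b)).det

/-- solid minor of order `k` with top-left corner `(i,j)` -/
noncomputable def win (M : ℤ → ℤ → ℝ) (k : ℕ) (i j : ℤ) : ℝ :=
  (Matrix.of fun a b : Fin k => M (i + (a:ℤ)) (j + (b:ℤ))).det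

/-- total nonnegativity on rows `0..p-1`, columns `0..q-1` -/
def TNR (M : ℤ → ℤ → ℝ) (p q : ℕ) : Prop :=
  ∀ (k : ℕ) (I J : Fin k → ℤ), StrictMono I → StrictMono J →
    (∀ a, 0 ≤ I a ∧ I a < p) → (∀ b, 0 ≤ J b ∧ J b < q) → 0 ≤ mn M I J

/-- the Toeplitz array of a sequence -/
def toe (c : ℤ → ℝ) : ℤ → ℤ → ℝ := fun i j => c (j - i)

/-- solid Toeplitz minor of order `k` at offset `d` -/
noncomputable def sol (c : ℤ → ℝ) (k : ℕ) (d : ℤ) : ℝ :=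
  (Matrix.of fun a b : Fin k => c (d + (b:ℤ) - (a:ℤ))).det

/-- Toeplitz minor with rows `β a + a` and columns `α b + b` -/
noncomputable def tab (c : ℤ → ℝ) {k : ℕ} (α β : Fin k → ℤ) : ℝ :=
  (Matrix.of fun a b : Fin k => c ((α b + (b:ℤ)) - (β a + (a:ℤ)))).det

/-- order of the `t`-th boundary minor (for `m ≤ n`) -/
def lev (m n : ℕ) (t : ℤ) : ℕ := (min t (min (m:ℤ) ((m:ℤ) + n - t))).toNat

/-- positions of the nonvanishing boundary minors -/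
def QA (c : ℤ → ℝ) (m n : ℕ) : Set ℤ :=
  {t | 1 ≤ t ∧ t + 1 ≤ (m:ℤ) + n ∧ 0 < sol c (lev m n t) (t - m)}

/-- the combinatorial nonvanishing condition -/
def Cond (m n : ℕ) (Q : Set ℤ) {k : ℕ} (α β : Fin k → ℤ) : Prop :=
  (∀ a b : Fin k, a ≤ b → ∃ q ∈ Q, (b:ℤ) - (a:ℤ) + 1 ≤ q ∧ q ≤ (m:ℤ) + α b - β a) ∧
  (∀ a b : Fin k, b ≤ a → ∃ q ∈ Q, (m:ℤ) + α b - β a ≤ q ∧ q ≤ (m:ℤ) + n - 1 - ((a:ℤ) - (b:ℤ))) ∧
  (k = m → ∃ q ∈ Q, ∃ b b' : Fin k, (m:ℤ) + α b ≤ q ∧ q ≤ (m:ℤ) + α b')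

/-- admissible index data -/
def Rng (m n : ℕ) {k : ℕ} (α β : Fin k → ℤ) : Prop :=
  Monotone α ∧ Monotone β ∧ (∀ b, 0 ≤ α b ∧ α b + k ≤ n) ∧ (∀ a, 0 ≤ β a ∧ β a + k ≤ m)

/-- elementary moves -/
inductive Mov {k : ℕ} (α : Fin k → ℤ) : (Fin k → ℤ) → Prop
  | up (r s : Fin k) (hs : (s:ℕ) = r + 1) (h1 : ∀ x, x ≤ r → α x = α r) (h2 : α r < α s) :
      Mov α (fun x => if x ≤ r then α x + 1 else α x)
  | dn (r s : Fin k) (hs : (s:ℕ) = r + 1) (h1 : ∀ x, s ≤ x → α x = α s) (h2 : α r < α s) :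
      Mov α (fun x => if s ≤ x then α x - 1 else α x)
  | one (r s : Fin k) (hs : (s:ℕ) = r + 1) (h2 : α r < α s) :
      Mov α (fun x => if x = s then α x - 1 else α x)

/-- the measure -/
def mu {k : ℕ} (α : Fin (k+1) → ℤ) : ℤ := ∑ b, (α b - α 0)

end TZ
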