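import Pool.Agent.Helper80.TZ.Defs
set_option autoImplicit false
set_option linter.unusedVariables false
open Finset

namespace TZ

/-- `A` is Toeplitz: `A i j` depends only on `j - i`. -/
def IsToeplitz {m n : ℕ} (A : Matrix (Fin m) (Fin n) ℝ) : Prop :=
  ∃ c : ℤ → ℝ, ∀ i j, A i j = c ((j:ℤ) - (i:ℤ))

/-- The minor `Δ_{I,J}(A)`, rows `I` and columns `J` in increasing order. -/
noncomputable def minor {m n : ℕ} (A : Matrix (Fin m) (Fin n) ℝ) (I : Finset (Fin m))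
    (J : Finset (Fin n)) (h : J.card = I.card) : ℝ :=
  (A.submatrix (I.orderEmbOfFin rfl) (J.orderEmbOfFin h)).det

/-- `A` is totally nonnegative. -/
def IsTN {m n : ℕ} (A : Matrix (Fin m) (Fin n) ℝ) : Prop :=
  ∀ (I : Finset (Fin m)) (J : Finset (Fin n)) (h : J.card = I.card), 0 ≤ minor A I J h

/-- The zero pattern `Z(A)`. -/
def zeroPattern {m n : ℕ} (A : Matrix (Fin m) (Fin n) ℝ) :
    Set (Finset (Fin m) × Finset (Fin n)) :=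
  {P | 1 ≤ P.1.card ∧ ∃ h : P.2.card = P.1.card, minor A P.1 P.2 h = 0}

/-- Number of elements of `S` that are smaller than `x`. -/
def rk {N : ℕ} (S : Finset (Fin N)) (x : Fin N) : ℤ := ((S.filter (fun y => y < x)).card : ℤ)

/-- The explicit nonvanishing criterion for `m ≤ n` and a set `Q ⊆ {1,…,m+n-1}`
(rows `i ∈ I`, columns `j ∈ J`, numbered from `0`). -/
def NonVan (m n : ℕ) (Q : Set ℤ) (I : Finset (Fin m)) (J : Finset (Fin n)) : Prop :=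
  (∀ i ∈ I, ∀ j ∈ J, rk I i ≤ rk J j →
    ∃ q ∈ Q, rk J j - rk I i + 1 ≤ q ∧ q ≤ (m:ℤ) + ((j:ℤ) - rk J j) - ((i:ℤ) - rk I i)) ∧
  (∀ i ∈ I, ∀ j ∈ J, rk J j ≤ rk I i →
    ∃ q ∈ Q, (m:ℤ) + ((j:ℤ) - rk J j) - ((i:ℤ) - rk I i) ≤ q ∧
      q ≤ (m:ℤ) + n - 1 - (rk I i - rk J j)) ∧
  (I.card = m → ∃ q ∈ Q, ∃ j ∈ J, ∃ j' ∈ J,
    (m:ℤ) + ((j:ℤ) - rk J j) ≤ q ∧ q ≤ (m:ℤ) + ((j':ℤ) - rk J j'))

/-- The zero pattern attached to `Q ⊆ {1,…,m+n-1}`; for `m > n` rows and columns swap roles. -/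
def pattern (m n : ℕ) (Q : Set ℤ) : Set (Finset (Fin m) × Finset (Fin n)) :=
  {P | 1 ≤ P.1.card ∧ P.2.card = P.1.card ∧
    ¬ ((m ≤ n ∧ NonVan m n Q P.1 P.2) ∨ (n < m ∧ NonVan n m Q P.2 P.1))}

end TZ
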