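import Pool.Agent.Helper80.TZ.Defs
set_option autoImplicit false
set_option linter.unusedVariables false
open Finset

namespace TZ

namespace J01

theorem row_rel {k : ℕ} (N : Matrix (Fin (k+1)) (Fin (k+2)) ℝ) (i : Fin (k+1)) :
    ∑ s : Fin (k+2), (-1 : ℝ) ^ (s : ℕ) * N i s * (N.submatrix id s.succAbove).det = 0 := by
  let A : Matrix (Fin (k+2)) (Fin (k+2)) ℝ :=
    Matrix.of (Fin.cons (N i) N : Fin (k+2) → Fin (k+2) → ℝ)
  have h0 : A.det = 0 :=
    Matrix.det_zero_of_row_eq (i := 0) (j := i.succ) (Fin.succ_ne_zero i).symm rfl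
  rw [Matrix.det_succ_row_zero] at h0
  rw [← h0]
  refine Finset.sum_congr rfl fun s _ => ?_
  rfl

theorem col_zero {k m : ℕ} (P : Matrix (Fin (k+1)) (Fin m) ℝ) (K : Fin k → Fin m) (j : Fin k) :
    ∑ i : Fin (k+1), (-1 : ℝ) ^ (i : ℕ) * P i (K j) * (P.submatrix i.succAbove K).det = 0 := by
  let B : Matrix (Fin (k+1)) (Fin (k+1)) ℝ :=
    P.submatrix id (Fin.cons (K j) K : Fin (k+1) → Fin m)
  have h0 : B.det = 0 :=
    Matrix.det_zero_of_column_eq (i := 0) (j := j.succ) (Fin.succ_ne_zero j).symm (fun _ => rfl)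
  rw [Matrix.det_succ_column_zero] at h0
  rw [← h0]
  refine Finset.sum_congr rfl fun s _ => ?_
  rfl

theorem col_exp {k m : ℕ} (P : Matrix (Fin (k+1)) (Fin m) ℝ) (f : Fin (k+1) → Fin m)
    (K : Fin k → Fin m) (p : Fin (k+1)) (hK : ∀ j, f (p.succAbove j) = K j) :
    (P.submatrix id f).det = (-1 : ℝ) ^ (p : ℕ) *
      ∑ i : Fin (k+1), (-1 : ℝ) ^ (i : ℕ) * P i (f p) * (P.submatrix i.succAbove K).det := by
  rw [Matrix.det_succ_column _ p, Finset.mul_sum]
  refine Finset.sum_congr rfl fun i _ => ?_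
  have h1 : ((P.submatrix id f).submatrix i.succAbove p.succAbove) = P.submatrix i.succAbove K := by
    ext a b
    simp only [Matrix.submatrix_apply, id, hK]
  rw [h1, pow_add]
  simp only [Matrix.submatrix_apply, id]
  ring

theorem T3L {k : ℕ} (N : Matrix (Fin (k+1)) (Fin (k+2)) ℝ) (x y : Fin (k+2)) (hxy : x < y)
    (hy : y < Fin.last (k+1)) :
    ∃ S : Fin k → Fin (k+2), StrictMono S ∧
      (N.submatrix id y.succAbove).det *
        (N.submatrix Fin.castSucc (fun j : Fin k => x.succAbove (Fin.castSucc j))).det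
      = (N.submatrix id x.succAbove).det *
        (N.submatrix Fin.castSucc (fun j : Fin k => y.succAbove (Fin.castSucc j))).det
      + (N.submatrix id Fin.castSucc).det * (N.submatrix Fin.castSucc S).det := by
  obtain ⟨m, rfl⟩ : ∃ m, k = m + 1 := by
    have h1 : (x : ℕ) < y := hxy
    have h2 : (y : ℕ) < k + 1 := hy
    exact ⟨k - 1, by omega⟩
  have hx' : (x : ℕ) < y := hxy
  have hy' : (y : ℕ) < m + 2 := hy
  let S : Fin (m + 1) → Fin (m + 3) := fun j =>
    ⟨if (j : ℕ) < x then j else if (j : ℕ) + 1 < y then j + 1 else j + 2, by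
      have := j.2
      split_ifs <;> omega⟩
  let K : Fin m → Fin (m + 3) := fun j => S j.castSucc
  have hSv : ∀ j : Fin (m + 1), (S j : ℕ) =
      if (j : ℕ) < x then (j : ℕ) else if (j : ℕ) + 1 < y then (j : ℕ) + 1 else (j : ℕ) + 2 :=
    fun j => rfl
  have hKv : ∀ j : Fin m, (K j : ℕ) =
      if (j : ℕ) < x then (j : ℕ) else if (j : ℕ) + 1 < y then (j : ℕ) + 1 else (j : ℕ) + 2 :=
    fun j => rfl
  have hSmono : StrictMono S := by
    intro a b hab
    have hab' : (a : ℕ) < b := hab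
    show (S a : ℕ) < S b
    rw [hSv, hSv]
    split_ifs <;> omega
  refine ⟨S, hSmono, ?_⟩
  let P : Matrix (Fin (m + 1)) (Fin (m + 3)) ℝ := fun i c => N (Fin.castSucc i) c
  let e : Fin (m + 3) → ℝ := fun s =>
    ∑ i : Fin (m + 1), (-1 : ℝ) ^ (i : ℕ) * P i s * (P.submatrix i.succAbove K).det
  -- the three expansions
  have E1 : (N.submatrix Fin.castSucc S).det = (-1 : ℝ) ^ m * e (Fin.last (m + 2)) := by
    have h1 := col_exp P S K (Fin.last m) (fun j => by
      rw [Fin.succAbove_last])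
    have h2 : S (Fin.last m) = Fin.last (m + 2) := by
      apply Fin.ext
      rw [hSv]
      simp only [Fin.val_last]
      split_ifs <;> omega
    rw [h2, Fin.val_last] at h1
    exact h1
  have E2 : (N.submatrix Fin.castSucc (fun j : Fin (m + 1) => y.succAbove (Fin.castSucc j))).det =
      (-1 : ℝ) ^ (x : ℕ) * e x := by
    have h1 := col_exp P (fun j : Fin (m + 1) => y.succAbove (Fin.castSucc j)) K
      ⟨x, by omega⟩ (fun j => by
        apply Fin.ext
        rw [hKv]
        simp only [Fin.succAbove, Fin.lt_def, Fin.val_castSucc]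
        split_ifs <;> simp only [Fin.val_castSucc, Fin.val_succ] at * <;> omega)
    have h2 : y.succAbove (Fin.castSucc (⟨x, by omega⟩ : Fin (m + 1))) = x := by
      apply Fin.ext
      simp only [Fin.succAbove, Fin.lt_def, Fin.val_castSucc]
      split_ifs <;> simp only [Fin.val_castSucc, Fin.val_succ] at * <;> omega
    simp only [h2] at h1
    exact h1
  have E3 : (N.submatrix Fin.castSucc (fun j : Fin (m + 1) => x.succAbove (Fin.castSucc j))).det =
      (-1 : ℝ) ^ ((y : ℕ) - 1) * e y := by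
    have h1 := col_exp P (fun j : Fin (m + 1) => x.succAbove (Fin.castSucc j)) K
      ⟨(y : ℕ) - 1, by omega⟩ (fun j => by
        apply Fin.ext
        rw [hKv]
        simp only [Fin.succAbove, Fin.lt_def, Fin.val_castSucc]
        split_ifs <;> simp only [Fin.val_castSucc, Fin.val_succ] at * <;> omega)
    have h2 : x.succAbove (Fin.castSucc (⟨(y : ℕ) - 1, by omega⟩ : Fin (m + 1))) = y := by
      apply Fin.ext
      simp only [Fin.succAbove, Fin.lt_def, Fin.val_castSucc]
      split_ifs <;> simp only [Fin.val_castSucc, Fin.val_succ] at * <;> omega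
    simp only [h2] at h1
    exact h1
  -- the sum relation
  have hsum : ∑ s : Fin (m + 3), (-1 : ℝ) ^ (s : ℕ) * (N.submatrix id s.succAbove).det * e s = 0 := by
    have h1 : ∑ s : Fin (m + 3), (-1 : ℝ) ^ (s : ℕ) * (N.submatrix id s.succAbove).det * e s =
        ∑ i : Fin (m + 1), (-1 : ℝ) ^ (i : ℕ) * (P.submatrix i.succAbove K).det *
          ∑ s : Fin (m + 3), (-1 : ℝ) ^ (s : ℕ) * N (Fin.castSucc i) s *
            (N.submatrix id s.succAbove).det := by
      simp only [e, Finset.mul_sum]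
      rw [Finset.sum_comm]
      refine Finset.sum_congr rfl fun i _ => Finset.sum_congr rfl fun s _ => ?_
      simp only [P]
      ring
    rw [h1]
    refine Finset.sum_eq_zero fun i _ => ?_
    rw [row_rel N (Fin.castSucc i), mul_zero]
  have hzero : ∀ s : Fin (m + 3), s ≠ x → s ≠ y → s ≠ Fin.last (m + 2) → e s = 0 := by
    intro s h1 h2 h3
    have h1' : (s : ℕ) ≠ x := fun h => h1 (Fin.ext h)
    have h2' : (s : ℕ) ≠ y := fun h => h2 (Fin.ext h)
    have h3' : (s : ℕ) ≠ m + 2 := fun h => h3 (Fin.ext h)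
    have h4 := s.2
    obtain ⟨j, hj⟩ : ∃ j : Fin m, K j = s := by
      refine ⟨⟨if (s : ℕ) < x then s else if (s : ℕ) < y then s - 1 else s - 2, ?_⟩, ?_⟩
      · split_ifs <;> omega
      · apply Fin.ext
        rw [hKv]
        simp only
        split_ifs <;> omega
    rw [← hj]
    exact col_zero P K j
  have hxl : x ≠ Fin.last (m + 2) := fun h => by
    have : (x : ℕ) = m + 2 := congrArg Fin.val h
    omega
  have hyl : y ≠ Fin.last (m + 2) := fun h => by
    have : (y : ℕ) = m + 2 := congrArg Fin.val h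
    omega
  have hxyne : x ≠ y := hxy.ne
  have h3 : ∑ s ∈ ({x, y, Fin.last (m + 2)} : Finset (Fin (m + 3))),
      (-1 : ℝ) ^ (s : ℕ) * (N.submatrix id s.succAbove).det * e s = 0 := by
    rw [← hsum]
    refine Finset.sum_subset (Finset.subset_univ _) fun s _ hs => ?_
    simp only [Finset.mem_insert, Finset.mem_singleton, not_or] at hs
    rw [hzero s hs.1 hs.2.1 hs.2.2, mul_zero]
  rw [Finset.sum_insert (by simp [hxyne, hxl]), Finset.sum_insert (by simp [hyl]),
    Finset.sum_singleton] at h3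
  have hlast : (Fin.last (m + 2)).succAbove = (Fin.castSucc : Fin (m + 2) → Fin (m + 3)) :=
    Fin.succAbove_last
  rw [hlast, Fin.val_last] at h3
  rw [E1, E2, E3]
  obtain ⟨q, hq⟩ : ∃ q, (y : ℕ) = q + 1 := ⟨(y : ℕ) - 1, by omega⟩
  rw [hq, Nat.add_sub_cancel]
  rw [hq] at h3
  have hqq : (-1 : ℝ) ^ q * (-1 : ℝ) ^ q = 1 := by
    rw [← mul_pow]; norm_num
  have hmm : (-1 : ℝ) ^ m * (-1 : ℝ) ^ m = 1 := by
    rw [← mul_pow]; norm_num
  have hm2 : (-1 : ℝ) ^ (m + 2) = (-1 : ℝ) ^ m := by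
    rw [pow_add]; norm_num
  rw [hm2, pow_succ] at h3
  linear_combination (-1 : ℝ) * h3

end J01

end TZ
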