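import Pool.Agent.Helper80.TZ.Defs
import Pool.Agent.Helper80.TZ.J01
set_option autoImplicit false
set_option linter.unusedVariables false
open Finset

namespace TZ

namespace J02

theorem det_rr {m : ℕ} (A : Matrix (Fin m) (Fin m) ℝ) :
    (A.submatrix Fin.rev Fin.rev).det = A.det :=
  Matrix.det_submatrix_equiv_self Fin.revPerm A

theorem T3F {k : ℕ} (N : Matrix (Fin (k+1)) (Fin (k+2)) ℝ) (y z : Fin (k+2)) (hy : 0 < y)
    (hyz : y < z) :
    ∃ S : Fin k → Fin (k+2), StrictMono S ∧
      (N.submatrix id y.succAbove).det *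
        (N.submatrix Fin.succ (fun j : Fin k => z.succAbove (Fin.succ j))).det
      = (N.submatrix id z.succAbove).det *
        (N.submatrix Fin.succ (fun j : Fin k => y.succAbove (Fin.succ j))).det
      + (N.submatrix id Fin.succ).det * (N.submatrix Fin.succ S).det := by
  have hxy : z.rev < y.rev := Fin.rev_lt_rev.2 hyz
  have hy' : y.rev < Fin.last (k+1) := by
    have := Fin.rev_lt_rev.2 hy
    rwa [Fin.rev_zero] at this
  obtain ⟨S', hS', h⟩ := J01.T3L (N.submatrix Fin.rev Fin.rev) z.rev y.rev hxy hy'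
  refine ⟨fun j => Fin.rev (S' (Fin.rev j)), ?_, ?_⟩
  · intro a b hab
    exact Fin.rev_lt_rev.2 (hS' (Fin.rev_lt_rev.2 hab))
  have e1 : ∀ p : Fin (k+2), ((N.submatrix Fin.rev Fin.rev).submatrix id p.rev.succAbove).det =
      (N.submatrix id p.succAbove).det := by
    intro p
    rw [← det_rr (N.submatrix id p.succAbove)]
    congr 1
    ext i j
    simp only [Matrix.submatrix_apply, id]
    rw [Fin.rev_succAbove, Fin.rev_rev]
  have e2 : ∀ p : Fin (k+2), ((N.submatrix Fin.rev Fin.rev).submatrix Fin.castSucc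
      (fun j : Fin k => p.rev.succAbove (Fin.castSucc j))).det =
      (N.submatrix Fin.succ (fun j : Fin k => p.succAbove (Fin.succ j))).det := by
    intro p
    rw [← det_rr (N.submatrix Fin.succ (fun j : Fin k => p.succAbove (Fin.succ j)))]
    congr 1
    ext i j
    simp only [Matrix.submatrix_apply]
    rw [Fin.rev_succAbove, Fin.rev_rev, Fin.rev_castSucc, Fin.rev_castSucc]
  have e3 : ((N.submatrix Fin.rev Fin.rev).submatrix id Fin.castSucc).det =
      (N.submatrix id Fin.succ).det := by
    rw [← det_rr (N.submatrix id Fin.succ)]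
    congr 1
    ext i j
    simp only [Matrix.submatrix_apply, id]
    rw [Fin.rev_castSucc]
  have e4 : ((N.submatrix Fin.rev Fin.rev).submatrix Fin.castSucc S').det =
      (N.submatrix Fin.succ (fun j => Fin.rev (S' (Fin.rev j)))).det := by
    rw [← det_rr (N.submatrix Fin.succ (fun j => Fin.rev (S' (Fin.rev j))))]
    congr 1
    ext i j
    simp only [Matrix.submatrix_apply]
    rw [Fin.rev_castSucc, Fin.rev_rev]
  rw [e1, e1, e2, e2, e3, e4] at h
  exact h

end J02

end TZ
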