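import Pool.Agent.Helper80.TZ.Defs
set_option autoImplicit false
set_option linter.unusedVariables false
open Finset

namespace TZ

namespace J03

/-- the auxiliary matrix -/
def dodU {R : Type} [CommRing R] {k : ℕ} (A : Matrix (Fin (k+2)) (Fin (k+2)) R) :
    Matrix (Fin (k+2)) (Fin 2) R :=
  Matrix.of fun i b => if b = 0 then A.adjugate i 0 - (if i = 0 then 1 else 0)
    else A.adjugate i (Fin.last (k+1)) - (if i = Fin.last (k+1) then 1 else 0)

/-- the auxiliary matrix -/
def dodV (R : Type) [CommRing R] (k : ℕ) : Matrix (Fin 2) (Fin (k+2)) R :=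
  Matrix.of fun b j => if b = 0 then (if j = 0 then 1 else 0)
    else (if j = Fin.last (k+1) then 1 else 0)

/-- the auxiliary matrix -/
def dodD {R : Type} [CommRing R] {k : ℕ} (A : Matrix (Fin (k+2)) (Fin (k+2)) R) :
    Matrix (Fin (k+2)) (Fin (k+2)) R :=
  Matrix.of fun i j => if j = 0 then (if i = 0 then A.det else 0)
    else if j = Fin.last (k+1) then (if i = Fin.last (k+1) then A.det else 0) else A i j

theorem dod_detC {R : Type} [CommRing R] {k : ℕ} (A : Matrix (Fin (k+2)) (Fin (k+2)) R) :
    (1 + dodU A * dodV R k).det = A.adjugate 0 0 * A.adjugate (Fin.last (k+1)) (Fin.last (k+1)) -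
      A.adjugate 0 (Fin.last (k+1)) * A.adjugate (Fin.last (k+1)) 0 := by
  have hne : (0 : Fin (k+2)) ≠ Fin.last (k+1) := by
    intro h
    have := congrArg Fin.val h
    simp at this
  rw [Matrix.det_one_add_mul_comm, Matrix.det_fin_two]
  have h00 : (1 + dodV R k * dodU A : Matrix (Fin 2) (Fin 2) R) 0 0 = A.adjugate 0 0 := by
    simp [Matrix.mul_apply, dodU, dodV]
  have h01 : (1 + dodV R k * dodU A : Matrix (Fin 2) (Fin 2) R) 0 1 = A.adjugate 0 (Fin.last (k+1)) := by
    simp [Matrix.mul_apply, dodU, dodV, hne]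
  have h10 : (1 + dodV R k * dodU A : Matrix (Fin 2) (Fin 2) R) 1 0 = A.adjugate (Fin.last (k+1)) 0 := by
    simp [Matrix.mul_apply, dodU, dodV, hne.symm]
  have h11 : (1 + dodV R k * dodU A : Matrix (Fin 2) (Fin 2) R) 1 1 = A.adjugate (Fin.last (k+1)) (Fin.last (k+1)) := by
    simp [Matrix.mul_apply, dodU, dodV]
  rw [h00, h01, h10, h11]

theorem dod_mul {R : Type} [CommRing R] {k : ℕ} (A : Matrix (Fin (k+2)) (Fin (k+2)) R) :
    A * (1 + dodU A * dodV R k) = dodD A := by
  have hne : (0 : Fin (k+2)) ≠ Fin.last (k+1) := by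
    intro h
    have := congrArg Fin.val h
    simp at this
  have hadj : ∀ i j, ∑ x, A i x * A.adjugate x j = if i = j then A.det else 0 := by
    intro i j
    have h := congrFun (congrFun (Matrix.mul_adjugate A) i) j
    rw [Matrix.mul_apply, Matrix.smul_apply, Matrix.one_apply, smul_eq_mul] at h
    rw [h]
    split_ifs <;> simp
  have hU0 : ∀ i, (A * dodU A) i 0 = (if i = 0 then A.det else 0) - A i 0 := by
    intro i
    rw [Matrix.mul_apply]
    simp only [dodU, Matrix.of_apply, if_true, mul_sub, Finset.sum_sub_distrib, hadj]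
    simp
  have hU1 : ∀ i, (A * dodU A) i 1 = (if i = Fin.last (k+1) then A.det else 0) -
      A i (Fin.last (k+1)) := by
    intro i
    rw [Matrix.mul_apply]
    simp only [dodU, Matrix.of_apply, one_ne_zero, if_false, mul_sub, Finset.sum_sub_distrib, hadj]
    simp
  ext i j
  rw [mul_add, mul_one, ← Matrix.mul_assoc, Matrix.add_apply, Matrix.mul_apply (M := A * dodU A),
    Fin.sum_univ_two, hU0, hU1]
  simp only [dodV, dodD, Matrix.of_apply, if_true, one_ne_zero, if_false]
  by_cases hj0 : j = 0
  · subst hj0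
    rw [if_pos rfl, if_pos rfl, if_neg hne]
    ring
  · by_cases hjL : j = Fin.last (k+1)
    · subst hjL
      rw [if_neg hj0, if_neg hj0, if_pos rfl, if_pos rfl]
      ring
    · rw [if_neg hj0, if_neg hj0, if_neg hjL, if_neg hjL]
      ring

theorem dod_detD {R : Type} [CommRing R] {k : ℕ} (A : Matrix (Fin (k+2)) (Fin (k+2)) R) :
    (dodD A).det = A.det * A.det *
      (A.submatrix (fun i : Fin k => i.succ.castSucc) (fun i : Fin k => i.succ.castSucc)).det := by
  have hne : (0 : Fin (k+2)) ≠ Fin.last (k+1) := by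
    intro h
    have := congrArg Fin.val h
    simp at this
  rw [Matrix.det_succ_column (dodD A) (Fin.last (k+1))]
  rw [Finset.sum_eq_single (Fin.last (k+1))]
  · have h1 : dodD A (Fin.last (k+1)) (Fin.last (k+1)) = A.det := by
      simp [dodD]
    have h2 : ((-1 : R)) ^ ((Fin.last (k+1) : ℕ) + (Fin.last (k+1) : ℕ)) = 1 := by
      rw [← two_mul, pow_mul]; simp
    rw [h1, h2, one_mul]
    rw [Matrix.det_succ_column_zero ((dodD A).submatrix (Fin.last (k+1)).succAbove
      (Fin.last (k+1)).succAbove), Finset.sum_eq_single 0]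
    · have h3 : ((dodD A).submatrix (Fin.last (k+1)).succAbove (Fin.last (k+1)).succAbove) 0 0 =
          A.det := by
        simp [dodD]
      rw [h3]
      have h4 : (((dodD A).submatrix (Fin.last (k+1)).succAbove
          (Fin.last (k+1)).succAbove).submatrix (Fin.succAbove 0) Fin.succ) =
          A.submatrix (fun i : Fin k => i.succ.castSucc) (fun i : Fin k => i.succ.castSucc) := by
        ext i j
        simp only [Matrix.submatrix_apply, Fin.succAbove_last, Fin.zero_succAbove]
        have h5 : (j.succ.castSucc : Fin (k+2)) ≠ 0 := by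
          intro h
          have := congrArg Fin.val h
          simp at this
        have h6 : (j.succ.castSucc : Fin (k+2)) ≠ Fin.last (k+1) := by
          intro h
          have := congrArg Fin.val h
          have hj := j.2
          simp at this
          omega
        simp only [dodD, Matrix.of_apply, if_neg h5, if_neg h6]
      rw [h4]
      simp
      ring
    · intro i _ hi
      have h3 : ((dodD A).submatrix (Fin.last (k+1)).succAbove (Fin.last (k+1)).succAbove) i 0 =
          0 := by
        simp [dodD, hi]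
      rw [h3]
      ring
    · intro h; exact absurd (Finset.mem_univ _) h
  · intro i _ hi
    have h3 : dodD A i (Fin.last (k+1)) = 0 := by
      simp [dodD, hi]
    rw [h3]
    ring
  · intro h; exact absurd (Finset.mem_univ _) h

theorem dod_domain {R : Type} [CommRing R] [IsDomain R] {k : ℕ}
    (A : Matrix (Fin (k+2)) (Fin (k+2)) R) (hA : A.det ≠ 0) :
    A.det * (A.submatrix (fun i : Fin k => i.succ.castSucc) (fun i : Fin k => i.succ.castSucc)).det
      = A.adjugate 0 0 * A.adjugate (Fin.last (k+1)) (Fin.last (k+1)) -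
      A.adjugate 0 (Fin.last (k+1)) * A.adjugate (Fin.last (k+1)) 0 := by
  have h1 := congrArg Matrix.det (dod_mul A)
  rw [Matrix.det_mul, dod_detC, dod_detD, mul_assoc] at h1
  exact (mul_left_cancel₀ hA h1).symm

theorem dod_adj {R : Type} [CommRing R] {k : ℕ} (A : Matrix (Fin (k+2)) (Fin (k+2)) R) :
    A.adjugate 0 0 * A.adjugate (Fin.last (k+1)) (Fin.last (k+1)) -
      A.adjugate 0 (Fin.last (k+1)) * A.adjugate (Fin.last (k+1)) 0 =
    (A.submatrix Fin.castSucc Fin.castSucc).det * (A.submatrix Fin.succ Fin.succ).det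
        - (A.submatrix Fin.succ Fin.castSucc).det * (A.submatrix Fin.castSucc Fin.succ).det := by
  have h2 : ((-1 : R)) ^ (k + 1) * (-1 : R) ^ (k + 1) = 1 := by
    rw [← pow_add, ← two_mul, pow_mul]; simp
  simp only [Matrix.adjugate_fin_succ_eq_det_submatrix, Fin.succAbove_last, Fin.succAbove_zero,
    Fin.val_zero, Fin.val_last, zero_add, add_zero, pow_zero, one_mul]
  have h3 : ((-1 : R)) ^ (k + 1 + (k + 1)) = 1 := by
    rw [pow_add]; exact h2
  rw [h3]
  linear_combination (-(A.submatrix Fin.castSucc Fin.succ).det *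
    (A.submatrix Fin.succ Fin.castSucc).det) * h2

theorem dodgson {k : ℕ} (N : Matrix (Fin (k+2)) (Fin (k+2)) ℝ) :
    N.det * (N.submatrix (fun i : Fin k => i.succ.castSucc) (fun i : Fin k => i.succ.castSucc)).det
      = (N.submatrix Fin.castSucc Fin.castSucc).det * (N.submatrix Fin.succ Fin.succ).det
        - (N.submatrix Fin.succ Fin.castSucc).det * (N.submatrix Fin.castSucc Fin.succ).det := by
  have h1 := dod_domain (Matrix.mvPolynomialX (Fin (k+2)) (Fin (k+2)) ℝ)
    (Matrix.det_mvPolynomialX_ne_zero (Fin (k+2)) ℝ)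
  rw [dod_adj] at h1
  have h2 := congrArg (MvPolynomial.eval fun p : Fin (k+2) × Fin (k+2) => N p.1 p.2) h1
  have h3 : (Matrix.mvPolynomialX (Fin (k+2)) (Fin (k+2)) ℝ).map
      (MvPolynomial.eval fun p : Fin (k+2) × Fin (k+2) => N p.1 p.2) = N :=
    Matrix.mvPolynomialX_map_eval₂ _ N
  simp only [map_mul, map_sub, RingHom.map_det, RingHom.mapMatrix_apply,
    ← Matrix.submatrix_map] at h2
  rw [h3] at h2
  exact h2

end J03

end TZ
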