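import Pool.Agent.Helper80.TZ.Defs
set_option autoImplicit false
set_option linter.unusedVariables false
open Finset

namespace TZ

namespace J04

theorem schur {n : ℕ} (C : Matrix (Fin (n+1)) (Fin (n+1)) ℝ) (h : C 0 0 ≠ 0) :
    C.det = C 0 0 * (Matrix.of fun i j : Fin n =>
      C i.succ j.succ - C i.succ 0 * C 0 j.succ / C 0 0).det := by
  let c : Fin (n+1) → ℝ := fun i => if i = 0 then 0 else - (C i 0 / C 0 0)
  let C' : Matrix (Fin (n+1)) (Fin (n+1)) ℝ := Matrix.of fun i j => C i j + c i * C 0 j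
  have h1 : C'.det = C.det := by
    apply Matrix.det_eq_of_forall_row_eq_smul_add_const c 0
    · simp [c]
    · intro i j; rfl
  rw [← h1, Matrix.det_succ_column_zero, Fin.sum_univ_succ]
  have h2 : ∀ i : Fin n, C' i.succ 0 = 0 := by
    intro i
    simp only [C', c, Matrix.of_apply, Fin.succ_ne_zero, if_false]
    field_simp
    ring
  have h3 : C' 0 0 = C 0 0 := by simp [C', c]
  rw [Finset.sum_eq_zero (fun i _ => by rw [h2 i]; ring)]
  rw [h3]
  simp only [Fin.val_zero, pow_zero, one_mul, add_zero]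
  congr 2
  ext i j
  simp only [Matrix.submatrix_apply, Fin.succAbove_zero, C', c, Matrix.of_apply, Fin.succ_ne_zero, if_false]
  ring

def TNm {n : ℕ} (A : Matrix (Fin n) (Fin n) ℝ) : Prop :=
  ∀ (k : ℕ) (I J : Fin k → Fin n), StrictMono I → StrictMono J → 0 ≤ (A.submatrix I J).det

theorem consmono {n k : ℕ} (I : Fin k → Fin n) (hI : StrictMono I) :
    StrictMono (Fin.cons 0 (fun i => (I i).succ) : Fin (k+1) → Fin (n+1)) := by
  intro a b hab
  induction a using Fin.cases with
  | zero =>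
    induction b using Fin.cases with
    | zero => exact absurd hab (lt_irrefl _)
    | succ b => simp
  | succ a =>
    induction b using Fin.cases with
    | zero => exact absurd hab (Fin.not_lt_zero _)
    | succ b =>
      simp only [Fin.cons_succ]
      exact Fin.succ_lt_succ_iff.mpr (hI (Fin.succ_lt_succ_iff.mp hab))

theorem a00 {n : ℕ} (A : Matrix (Fin (n+1)) (Fin (n+1)) ℝ) (hA : TNm A) (hd : 0 < A.det) : 0 < A 0 0 := by
  have hnn : ∀ i j, 0 ≤ A i j := by
    intro i j
    have := hA 1 (fun _ => i) (fun _ => j) (Subsingleton.strictMono _) (Subsingleton.strictMono _)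
    simpa using this
  rcases (hnn 0 0).lt_or_eq with h | h
  · exact h
  exfalso
  have h1 : ∃ j, A 0 j ≠ 0 := by
    by_contra hc
    push Not at hc
    exact hd.ne' (Matrix.det_eq_zero_of_row_eq_zero 0 hc)
  have h2 : ∃ i, A i 0 ≠ 0 := by
    by_contra hc
    push Not at hc
    exact hd.ne' (Matrix.det_eq_zero_of_column_eq_zero 0 hc)
  obtain ⟨j, hj⟩ := h1
  obtain ⟨i, hi⟩ := h2
  have hj0 : j ≠ 0 := by rintro rfl; exact hj h.symm
  have hi0 : i ≠ 0 := by rintro rfl; exact hi h.symm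
  have hj1 : 0 < A 0 j := lt_of_le_of_ne (hnn 0 j) (Ne.symm hj)
  have hi1 : 0 < A i 0 := lt_of_le_of_ne (hnn i 0) (Ne.symm hi)
  have h3 := hA 2 ![0, i] ![0, j] (by
    intro a b hab
    fin_cases a <;> fin_cases b <;> simp_all [Fin.pos_iff_ne_zero]) (by
    intro a b hab
    fin_cases a <;> fin_cases b <;> simp_all [Fin.pos_iff_ne_zero])
  rw [Matrix.det_fin_two] at h3
  simp [← h] at h3
  nlinarith [mul_pos hj1 hi1]

theorem lead {n : ℕ} : ∀ (A : Matrix (Fin (n+1)) (Fin (n+1)) ℝ), TNm A → 0 < A.det →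
    0 < (A.submatrix Fin.castSucc Fin.castSucc : Matrix (Fin n) (Fin n) ℝ).det := by
  induction n with
  | zero => intro A _ _; simp
  | succ n ih =>
    intro A hA hd
    have h0 := a00 A hA hd
    set B : Matrix (Fin (n+1)) (Fin (n+1)) ℝ := Matrix.of fun i j =>
      A i.succ j.succ - A i.succ 0 * A 0 j.succ / A 0 0 with hB
    have hdB : A.det = A 0 0 * B.det := schur A h0.ne'
    have hBpos : 0 < B.det := by
      rw [hdB] at hd
      exact (mul_pos_iff_of_pos_left h0).mp hd
    have hBT : TNm B := by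
      intro k I J hI hJ
      have h1 := hA (k+1) _ _ (consmono I hI) (consmono J hJ)
      rw [schur _ (by simpa using h0.ne')] at h1
      have h2 : 0 ≤ (Matrix.of fun i j : Fin k =>
        (A.submatrix (Fin.cons 0 (fun i => (I i).succ) : Fin (k+1) → Fin (n+1+1)) (Fin.cons 0 (fun i => (J i).succ) : Fin (k+1) → Fin (n+1+1))) i.succ j.succ - (A.submatrix (Fin.cons 0 (fun i => (I i).succ) : Fin (k+1) → Fin (n+1+1)) (Fin.cons 0 (fun i => (J i).succ) : Fin (k+1) → Fin (n+1+1))) i.succ 0 * (A.submatrix (Fin.cons 0 (fun i => (I i).succ) : Fin (k+1) → Fin (n+1+1)) (Fin.cons 0 (fun i => (J i).succ) : Fin (k+1) → Fin (n+1+1))) 0 j.succ / (A.submatrix (Fin.cons 0 (fun i => (I i).succ) : Fin (k+1) → Fin (n+1+1)) (Fin.cons 0 (fun i => (J i).succ) : Fin (k+1) → Fin (n+1+1))) 0 0).det := by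
        have h3 : 0 < (A.submatrix (Fin.cons 0 (fun i => (I i).succ) : Fin (k+1) → Fin (n+1+1)) (Fin.cons 0 (fun i => (J i).succ) : Fin (k+1) → Fin (n+1+1))) 0 0 := by
          simpa using h0
        exact nonneg_of_mul_nonneg_right h1 h3
      have h4 : (B.submatrix I J) = (Matrix.of fun i j : Fin k =>
        (A.submatrix (Fin.cons 0 (fun i => (I i).succ) : Fin (k+1) → Fin (n+1+1)) (Fin.cons 0 (fun i => (J i).succ) : Fin (k+1) → Fin (n+1+1))) i.succ j.succ - (A.submatrix (Fin.cons 0 (fun i => (I i).succ) : Fin (k+1) → Fin (n+1+1)) (Fin.cons 0 (fun i => (J i).succ) : Fin (k+1) → Fin (n+1+1))) i.succ 0 * (A.submatrix (Fin.cons 0 (fun i => (I i).succ) : Fin (k+1) → Fin (n+1+1)) (Fin.cons 0 (fun i => (J i).succ) : Fin (k+1) → Fin (n+1+1))) 0 j.succ / (A.submatrix (Fin.cons 0 (fun i => (I i).succ) : Fin (k+1) → Fin (n+1+1)) (Fin.cons 0 (fun i => (J i).succ) : Fin (k+1) → Fin (n+1+1))) 0 0) := by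
        ext i j
        simp [hB]
      rw [h4]
      exact h2
    have h5 := ih B hBT hBpos
    have h6 : (A.submatrix Fin.castSucc Fin.castSucc : Matrix (Fin (n+1)) (Fin (n+1)) ℝ) 0 0 = A 0 0 := by
      simp
    rw [schur _ (by rw [h6]; exact h0.ne'), h6]
    apply mul_pos h0
    have h7 : (Matrix.of fun i j : Fin n =>
      (A.submatrix Fin.castSucc Fin.castSucc : Matrix (Fin (n+1)) (Fin (n+1)) ℝ) i.succ j.succ - (A.submatrix Fin.castSucc Fin.castSucc : Matrix (Fin (n+1)) (Fin (n+1)) ℝ) i.succ 0 * (A.submatrix Fin.castSucc Fin.castSucc : Matrix (Fin (n+1)) (Fin (n+1)) ℝ) 0 j.succ / A 0 0) = B.submatrix Fin.castSucc Fin.castSucc := by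
      ext i j
      simp only [Matrix.of_apply, Matrix.submatrix_apply, hB, Fin.succ_castSucc, Fin.castSucc_zero]
    rw [h7]
    exact h5

theorem trail {n : ℕ} (A : Matrix (Fin (n+1)) (Fin (n+1)) ℝ) (hA : TNm A) (hd : 0 < A.det) :
    0 < (A.submatrix Fin.succ Fin.succ : Matrix (Fin n) (Fin n) ℝ).det := by
  have h1 : TNm (A.submatrix Fin.rev Fin.rev) := by
    intro k I J hI hJ
    have h2 := hA k (fun i => Fin.rev (I (Fin.rev i))) (fun i => Fin.rev (J (Fin.rev i)))
      (fun a b hab => Fin.rev_lt_rev.mpr (hI (Fin.rev_lt_rev.mpr hab)))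
      (fun a b hab => Fin.rev_lt_rev.mpr (hJ (Fin.rev_lt_rev.mpr hab)))
    have h3 := Matrix.det_submatrix_equiv_self (Fin.revPerm (n := k)) ((A.submatrix Fin.rev Fin.rev).submatrix I J)
    rw [← h3]
    have h5 : ((A.submatrix Fin.rev Fin.rev).submatrix I J).submatrix (Fin.revPerm (n := k)) (Fin.revPerm (n := k)) = A.submatrix (fun i => (I i.rev).rev) fun i => (J i.rev).rev := rfl
    rw [h5]
    exact h2
  have h2 : 0 < (A.submatrix Fin.rev Fin.rev).det := by
    have h3 := Matrix.det_submatrix_equiv_self (Fin.revPerm (n := n+1)) A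
    have h4 : A.submatrix Fin.rev Fin.rev = A.submatrix (Fin.revPerm (n := n+1)) (Fin.revPerm (n := n+1)) := rfl
    rw [h4, h3]
    exact hd
  have h3 := lead _ h1 h2
  have h4 := Matrix.det_submatrix_equiv_self (Fin.revPerm (n := n)) (A.submatrix Fin.succ Fin.succ : Matrix (Fin n) (Fin n) ℝ)
  rw [← h4]
  convert h3 using 2
  ext i j
  simp [Fin.rev_castSucc]

theorem lead_pos (M : ℤ → ℤ → ℝ) (k : ℕ) (hM : TNR M (k+1) (k+1))
    (h : 0 < win M (k+1) 0 0) : 0 < win M k 0 0 ∧ 0 < win M k 1 1 := by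
  set A : Matrix (Fin (k+1)) (Fin (k+1)) ℝ := Matrix.of fun a b => M (0 + (a:ℤ)) (0 + (b:ℤ)) with hA
  have hT : TNm A := by
    intro l I J hI hJ
    have h1 := hM l (fun a => ((I a : ℕ) : ℤ)) (fun b => ((J b : ℕ) : ℤ)) (fun a b hab => by
      have := hI hab
      simp only [Nat.cast_lt]
      exact this) (fun a b hab => by
      have := hJ hab
      simp only [Nat.cast_lt]
      exact this) (fun a => ⟨by positivity, by have := (I a).2; push_cast; omega⟩)
      (fun a => ⟨by positivity, by have := (J a).2; push_cast; omega⟩)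
    unfold mn at h1
    convert h1 using 2
    ext i j
    simp [hA]
  have hd : 0 < A.det := h
  have h1 := lead A hT hd
  have h2 := trail A hT hd
  refine ⟨?_, ?_⟩
  · unfold win
    have h5 : (Matrix.of fun a b : Fin k => M (0 + (a:ℤ)) (0 + (b:ℤ))) = A.submatrix Fin.castSucc Fin.castSucc := by
      ext i j
      simp [hA]
    rw [h5]
    exact h1
  · unfold win
    convert h2 using 2
    ext i j
    simp [hA]
    ring_nf

end J04

end TZ
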