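import Pool.Agent.Helper80.TZ.Defs
set_option autoImplicit false
set_option linter.unusedVariables false
open Finset

namespace TZ

namespace J05

open scoped Matrix in
theorem slide_core (g p : ℕ) (A : ℕ → Fin g → ℝ) (b : ℕ → ℝ) (hp : g ≤ p)
    (h1 : ∀ r : ℕ, r + g ≤ p → (Matrix.of fun (a c : Fin g) => A (r + (a : ℕ)) c).det ≠ 0)
    (h0 : ∀ r : ℕ, r + g + 1 ≤ p → ∃ (v : Fin g → ℝ) (c : ℝ), (v ≠ 0 ∨ c ≠ 0) ∧
      ∀ a : ℕ, a ≤ g → ∑ j, A (r + a) j * v j + c * b (r + a) = 0) :
    ∃ w : Fin g → ℝ, ∀ i : ℕ, i < p → b i = ∑ j, w j * A i j := by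
  classical
  set N : ℕ → Matrix (Fin g) (Fin g) ℝ := fun r => Matrix.of fun (a c : Fin g) => A (r + (a : ℕ)) c with hN
  set w : Fin g → ℝ := (N 0)⁻¹ *ᵥ (fun a : Fin g => b (a : ℕ)) with hw
  have hunit : IsUnit (N 0).det := isUnit_iff_ne_zero.2 (h1 0 (by omega))
  have hw0 : N 0 *ᵥ w = fun a : Fin g => b (a : ℕ) := by
    rw [hw, Matrix.mulVec_mulVec, Matrix.mul_nonsing_inv _ hunit, Matrix.one_mulVec]
  have hbase : ∀ i : ℕ, i < g → b i = ∑ j, w j * A i j := by
    intro i hi
    have h := congrFun hw0 ⟨i, hi⟩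
    have h2 : (N 0 *ᵥ w) ⟨i, hi⟩ = ∑ j, A (0 + i) j * w j := rfl
    rw [h2, Nat.zero_add] at h
    rw [← h]
    exact Finset.sum_congr rfl fun j _ => mul_comm _ _
  refine ⟨w, ?_⟩
  have key : ∀ r : ℕ, r + g ≤ p → ∀ i : ℕ, i < r + g → b i = ∑ j, w j * A i j := by
    intro r
    induction r with
    | zero => intro _ i hi; exact hbase i (by omega)
    | succ r ih =>
      intro hr i hi
      have ih' := ih (by omega)
      by_cases hi2 : i < r + g
      · exact ih' i hi2
      · have hi3 : i = r + g := by omega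
        obtain ⟨v, c, hvc, hk⟩ := h0 r (by omega)
        have hdet := h1 r (by omega)
        have hc : c ≠ 0 := by
          intro hc0
          have hv0 : v = 0 := by
            refine Matrix.eq_zero_of_mulVec_eq_zero hdet ?_
            funext a
            have := hk (a : ℕ) (by omega)
            rw [hc0, zero_mul, add_zero] at this
            exact this
          rcases hvc with h | h
          · exact h hv0
          · exact h hc0
        have hu : v + c • w = 0 := by
          refine Matrix.eq_zero_of_mulVec_eq_zero hdet ?_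
          funext a
          have e1 := hk (a : ℕ) (by omega)
          have e2 := ih' (r + (a : ℕ)) (by omega)
          have e3 : ((Matrix.of fun (a c : Fin g) => A (r + (a : ℕ)) c) *ᵥ (v + c • w)) a
              = ∑ j, A (r + (a : ℕ)) j * (v j + c * w j) := rfl
          rw [e3]
          rw [e2] at e1
          show _ = (0 : ℝ)
          rw [← e1, Finset.mul_sum, ← Finset.sum_add_distrib]
          exact Finset.sum_congr rfl fun j _ => by ring
        have hv : ∀ j, v j = -(c * w j) := by
          intro j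
          have := congrFun hu j
          have h3 : v j + c * w j = 0 := this
          linarith
        have e4 := hk g le_rfl
        rw [hi3]
        have e5 : c * b (r + g) = c * ∑ j, w j * A (r + g) j := by
          have e6 : ∑ j, A (r + g) j * v j = -(c * ∑ j, w j * A (r + g) j) := by
            rw [Finset.mul_sum, ← Finset.sum_neg_distrib]
            exact Finset.sum_congr rfl fun j _ => by rw [hv j]; ring
          rw [e6] at e4
          linarith
        exact mul_left_cancel₀ hc e5
  intro i hi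
  by_cases hi2 : i < g
  · exact hbase i hi2
  · exact key (i + 1 - g) (by omega) i (by omega)

theorem slide_last (M : ℤ → ℤ → ℝ) (p g : ℕ) (hp : g ≤ p)
    (h0 : ∀ r : ℕ, r + g + 1 ≤ p → win M (g+1) r 0 = 0)
    (h1 : ∀ r : ℕ, r + g ≤ p → win M g r 0 ≠ 0) :
    ∃ w : Fin g → ℝ, ∀ i : ℕ, i < p → M i g = ∑ j : Fin g, w j * M i (j:ℤ) := by
  refine slide_core g p (fun i j => M (i : ℤ) (j : ℤ)) (fun i => M (i : ℤ) (g : ℤ)) hp ?_ ?_
  · intro r hr
    have h := h1 r hr
    rw [win] at h
    convert h using 3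
    funext a c
    push_cast
    rw [zero_add]
  · intro r hr
    have h := h0 r hr
    rw [win] at h
    obtain ⟨v, hv0, hv⟩ := Matrix.exists_mulVec_eq_zero_iff.2 h
    refine ⟨fun j => v j.castSucc, v (Fin.last g), ?_, ?_⟩
    · by_contra hcon
      push Not at hcon
      apply hv0
      funext j
      refine Fin.lastCases ?_ (fun j => ?_) j
      · exact hcon.2
      · exact congrFun hcon.1 j
    · intro a ha
      have h2 := congrFun hv ⟨a, by omega⟩
      have h3 : ∑ j : Fin (g + 1), M ((r : ℤ) + (a : ℤ)) (0 + ((j : ℕ) : ℤ)) * v j = 0 := h2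
      rw [Fin.sum_univ_castSucc] at h3
      simp only [Fin.val_castSucc, Fin.val_last, zero_add] at h3
      push_cast
      rw [mul_comm (v (Fin.last g))]
      exact h3

theorem slide_first (M : ℤ → ℤ → ℝ) (p g : ℕ) (hp : g ≤ p)
    (h0 : ∀ r : ℕ, r + g + 1 ≤ p → win M (g+1) r 0 = 0)
    (h1 : ∀ r : ℕ, r + g ≤ p → win M g r 1 ≠ 0) :
    ∃ w : Fin g → ℝ, ∀ i : ℕ, i < p → M i 0 = ∑ j : Fin g, w j * M i ((j:ℤ) + 1) := by
  refine slide_core g p (fun i j => M (i : ℤ) ((j : ℤ) + 1)) (fun i => M (i : ℤ) 0) hp ?_ ?_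
  · intro r hr
    have h := h1 r hr
    rw [win] at h
    convert h using 3
    funext a c
    push_cast
    rw [add_comm (1 : ℤ)]
  · intro r hr
    have h := h0 r hr
    rw [win] at h
    obtain ⟨v, hv0, hv⟩ := Matrix.exists_mulVec_eq_zero_iff.2 h
    refine ⟨fun j => v j.succ, v 0, ?_, ?_⟩
    · by_contra hcon
      push Not at hcon
      apply hv0
      funext j
      refine Fin.cases ?_ (fun j => ?_) j
      · exact hcon.2
      · exact congrFun hcon.1 j
    · intro a ha
      have h2 := congrFun hv ⟨a, by omega⟩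
      have h3 : ∑ j : Fin (g + 1), M ((r : ℤ) + (a : ℤ)) (0 + ((j : ℕ) : ℤ)) * v j = 0 := h2
      rw [Fin.sum_univ_succ] at h3
      simp only [Fin.val_succ, Fin.val_zero, zero_add] at h3
      push_cast at h3 ⊢
      rw [mul_comm (v 0), add_comm]
      exact h3

end J05

end TZ
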