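import Pool.Agent.Helper80.TZ.Defs
set_option autoImplicit false
set_option linter.unusedVariables false
open Finset

namespace TZ

namespace J06

theorem colred {k : ℕ} (A : Matrix (Fin (k+1)) (Fin (k+1)) ℝ) (v : Fin k → ℝ)
    (h : ∀ i : Fin k, A i.castSucc 0 = ∑ j, v j * A i.castSucc j.succ) :
    A.det = (-1 : ℝ) ^ k * (A (Fin.last k) 0 - ∑ j, v j * A (Fin.last k) j.succ) *
      (A.submatrix Fin.castSucc Fin.succ).det := by
  obtain ⟨c, hc⟩ : ∃ c : Fin (k+1) → ℝ, c = Fin.cons 1 (fun j => - v j) := ⟨_, rfl⟩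
  obtain ⟨B, hB⟩ : ∃ B : Matrix (Fin (k+1)) (Fin (k+1)) ℝ,
    B = A.updateCol 0 (fun i => ∑ j, (c j) • A i j) := ⟨_, rfl⟩
  have h1 : B.det = A.det := by
    rw [hB, Matrix.det_updateCol_sum, hc]
    simp
  have hB0 : ∀ i, B i 0 = A i 0 - ∑ j, v j * A i (Fin.succ j) := by
    intro i
    rw [hB, Matrix.updateCol_self, Fin.sum_univ_succ, hc]
    simp [sub_eq_add_neg]
  have hBs : ∀ i (j : Fin k), B i j.succ = A i j.succ := by
    intro i j
    rw [hB, Matrix.updateCol_ne (Fin.succ_ne_zero j)]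
  rw [← h1, Matrix.det_succ_column_zero, Fin.sum_univ_castSucc]
  have h2 : ∑ i : Fin k, (-1 : ℝ) ^ ((i.castSucc : Fin (k+1)) : ℕ) * B i.castSucc 0 *
      (B.submatrix (i.castSucc).succAbove Fin.succ).det = 0 := by
    apply Finset.sum_eq_zero
    intro i _
    rw [hB0, h i, sub_self]
    ring
  rw [h2, zero_add, hB0]
  congr 2
  ext a b
  rw [Matrix.submatrix_apply, Matrix.submatrix_apply, Fin.succAbove_last, hBs]

/-- columns `1..g, s` -/
noncomputable def JJ (g : ℕ) (s : ℤ) : Fin (g+1) → ℤ := fun b => if (b : ℕ) < g then (b : ℤ) + 1 else s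

/-- cofactors -/
noncomputable def lamb (M : ℤ → ℤ → ℝ) (g : ℕ) (i : Fin (g+1)) : ℝ :=
  (-1 : ℝ) ^ ((i : ℕ) + g) * (Matrix.of fun a b : Fin g => M ((i.succAbove a : Fin (g+1)) : ℕ) ((b : ℤ) + 1)).det

theorem expand (M : ℤ → ℤ → ℝ) (g : ℕ) (s : ℤ) :
    mn M (fun a : Fin (g+1) => (a : ℤ)) (JJ g s) = ∑ i : Fin (g+1), lamb M g i * M (i : ℤ) s := by
  unfold mn
  rw [Matrix.det_succ_column _ (Fin.last g)]
  apply Finset.sum_congr rfl
  intro i _
  unfold lamb
  have h1 : (Matrix.of fun a b : Fin (g+1) => M (a : ℤ) (JJ g s b)) i (Fin.last g) = M (i : ℤ) s := by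
    simp [JJ]
  have h2 : ((Matrix.of fun a b : Fin (g+1) => M (a : ℤ) (JJ g s b)).submatrix i.succAbove
      (Fin.last g).succAbove) = Matrix.of fun a b : Fin g =>
        M ((i.succAbove a : Fin (g+1)) : ℕ) ((b : ℤ) + 1) := by
    ext a b
    simp only [Matrix.submatrix_apply, Matrix.of_apply, Fin.succAbove_last, JJ, Fin.val_castSucc]
    rw [if_pos b.2]
  rw [h1, h2, Fin.val_last]
  ring

theorem win_a (M : ℤ → ℤ → ℝ) (g h : ℕ) (u : Fin g → ℝ)
    (hu : ∀ i : ℕ, i < g + h → M i 0 = ∑ j : Fin g, u j * M i ((j:ℤ) + 1)) :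
    win M (g+1) h 0 = (-1 : ℝ) ^ g *
      (M ((g : ℤ) + h) 0 - ∑ j : Fin g, u j * M ((g : ℤ) + h) ((j:ℤ) + 1)) * win M g h 1 := by
  unfold win
  rw [colred _ u]
  · congr 1
    · congr 1
      simp only [Matrix.of_apply, Fin.val_last, Fin.val_zero, Fin.val_succ]
      have e1 : ((h : ℤ) + (g : ℤ)) = (g : ℤ) + h := by ring
      rw [e1]
      congr 1
      apply Finset.sum_congr rfl
      intro j _
      congr 2
      push_cast
      ring
    · congr 1
      ext a b
      simp only [Matrix.submatrix_apply, Matrix.of_apply, Fin.val_castSucc, Fin.val_succ]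
      congr 1
      push_cast
      ring
  · intro i
    simp only [Matrix.of_apply, Fin.val_castSucc, Fin.val_zero, Fin.val_succ]
    have h1 := hu (h + i) (by have := i.2; omega)
    push_cast at h1 ⊢
    rw [h1]
    apply Finset.sum_congr rfl
    intro j _
    congr 2
    ring

/-- rows `0..g, g+h` -/
noncomputable def IA (g h : ℕ) : Fin (g+1+1) → ℤ := fun a => if (a : ℕ) ≤ g then (a : ℤ) else (g : ℤ) + h

/-- columns `0..g, s` -/
noncomputable def JB (g : ℕ) (s : ℤ) : Fin (g+1+1) → ℤ := fun b => if (b : ℕ) ≤ g then (b : ℤ) else s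

theorem IA_castSucc (g h : ℕ) (i : Fin (g+1)) : IA g h i.castSucc = (i : ℤ) := by
  unfold IA
  rw [Fin.val_castSucc, if_pos (by have := i.2; omega)]

theorem IA_last (g h : ℕ) : IA g h (Fin.last (g+1)) = (g : ℤ) + h := by
  unfold IA
  rw [Fin.val_last, if_neg (by omega)]

theorem JB_zero (g : ℕ) (s : ℤ) : JB g s 0 = 0 := by
  simp [JB]

theorem JB_succ (g : ℕ) (s : ℤ) (b : Fin (g+1)) : JB g s b.succ = JJ g s b := by
  unfold JB JJ
  rw [Fin.val_succ]
  by_cases hb : (b : ℕ) < g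
  · rw [if_pos hb, if_pos (by omega)]
    push_cast
    rfl
  · rw [if_neg hb, if_neg (by omega)]

theorem JJ_castSucc (g : ℕ) (s : ℤ) (b : Fin g) : JJ g s b.castSucc = (b : ℤ) + 1 := by
  unfold JJ
  rw [Fin.val_castSucc, if_pos b.2]

theorem mn_b (M : ℤ → ℤ → ℝ) (g h : ℕ) (hh : 1 ≤ h) (u : Fin g → ℝ) (s : ℤ)
    (hu : ∀ i : ℕ, i < g + h → M i 0 = ∑ j : Fin g, u j * M i ((j:ℤ) + 1)) :
    mn M (IA g h) (JB g s) = (-1 : ℝ) ^ (g+1) *
      (M ((g : ℤ) + h) 0 - ∑ j : Fin g, u j * M ((g : ℤ) + h) ((j:ℤ) + 1)) *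
      mn M (fun a : Fin (g+1) => (a : ℤ)) (JJ g s) := by
  unfold mn
  rw [colred _ (Fin.snoc u (0 : ℝ) : Fin (g+1) → ℝ)]
  · congr 1
    · congr 1
      simp only [Matrix.of_apply, IA_last, JB_zero]
      rw [Fin.sum_univ_castSucc]
      simp only [Fin.snoc_castSucc, Fin.snoc_last, zero_mul, add_zero, JB_succ, JJ_castSucc]
    · congr 1
      ext a b
      simp only [Matrix.submatrix_apply, Matrix.of_apply, IA_castSucc, JB_succ]
  · intro i
    simp only [Matrix.of_apply, IA_castSucc, JB_zero]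
    rw [Fin.sum_univ_castSucc]
    simp only [Fin.snoc_castSucc, Fin.snoc_last, zero_mul, add_zero, JB_succ, JJ_castSucc]
    exact hu i (by have := i.2; omega)

theorem gcm (M : ℤ → ℤ → ℝ) (g h w : ℕ) (hh : 1 ≤ h) (hw : 1 ≤ w)
    (hTN : TNR M (g+1+h) (g+1+w))
    (hdep : ∃ u : Fin g → ℝ, ∀ i : ℕ, i < g + h → M i 0 = ∑ j : Fin g, u j * M i ((j:ℤ) + 1))
    (h1 : 0 < win M g h 1) (h2 : 0 < win M (g+1) h 0) (h3 : win M g 0 1 ≠ 0) :
    win M (g+1) 0 w = 0 := by
  obtain ⟨u, hu⟩ := hdep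
  obtain ⟨δ, hδ⟩ : ∃ δ : ℝ, δ = M ((g : ℤ) + h) 0 -
    ∑ j : Fin g, u j * M ((g : ℤ) + h) ((j:ℤ) + 1) := ⟨_, rfl⟩
  have ha := win_a M g h u hu
  rw [← hδ] at ha
  have hsg : 0 < (-1 : ℝ) ^ g * δ := by
    rw [ha] at h2
    by_contra hcon
    push Not at hcon
    have := mul_nonpos_of_nonpos_of_nonneg hcon h1.le
    linarith
  have hD1 : ∀ s : ℤ, (g : ℤ) + 1 ≤ s → s ≤ g + w →
      mn M (fun a : Fin (g+1) => (a : ℤ)) (JJ g s) = 0 := by
    intro s hs1 hs2
    have hb := mn_b M g h hh u s hu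
    rw [← hδ] at hb
    have hJ1 : StrictMono (JJ g s) := by
      intro a b hab
      have hab' : (a : ℕ) < (b : ℕ) := hab
      have hb2 := b.2
      simp only [JJ]
      split_ifs <;> omega
    have hp1 : 0 ≤ mn M (fun a : Fin (g+1) => (a : ℤ)) (JJ g s) := by
      apply hTN _ _ _ _ hJ1
      · intro a
        have := a.2
        constructor
        · exact Int.natCast_nonneg _
        · push_cast; omega
      · intro b
        have hb2 := b.2
        simp only [JJ]
        push_cast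
        split_ifs <;> constructor <;> omega
      · intro a b hab
        have hab' : (a : ℕ) < (b : ℕ) := hab
        simp only
        omega
    have hp2 : 0 ≤ mn M (IA g h) (JB g s) := by
      apply hTN
      · intro a b hab
        have hab' : (a : ℕ) < (b : ℕ) := hab
        have hb2 := b.2
        simp only [IA]
        split_ifs <;> omega
      · intro a b hab
        have hab' : (a : ℕ) < (b : ℕ) := hab
        have hb2 := b.2
        simp only [JB]
        split_ifs <;> omega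
      · intro a
        have ha2 := a.2
        simp only [IA]
        push_cast
        split_ifs <;> constructor <;> omega
      · intro a
        have ha2 := a.2
        simp only [JB]
        push_cast
        split_ifs <;> constructor <;> omega
    rw [hb] at hp2
    have hp3 : (-1 : ℝ) ^ (g+1) * δ = -((-1 : ℝ) ^ g * δ) := by ring
    rw [hp3] at hp2
    by_contra hne
    have hpos : 0 < mn M (fun a : Fin (g+1) => (a : ℤ)) (JJ g s) := lt_of_le_of_ne hp1 (Ne.symm hne)
    have := mul_pos hsg hpos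
    linarith
  have hD2 : ∀ s : ℤ, 1 ≤ s → s ≤ g → mn M (fun a : Fin (g+1) => (a : ℤ)) (JJ g s) = 0 := by
    intro s hs1 hs2
    unfold mn
    obtain ⟨t, ht⟩ : ∃ t : ℕ, s = (t : ℤ) + 1 := ⟨(s - 1).toNat, by omega⟩
    have htg : t < g := by omega
    apply Matrix.det_zero_of_column_eq (i := (⟨t, by omega⟩ : Fin (g+1))) (j := Fin.last g)
    · intro h
      have := congrArg Fin.val h
      simp at this
      omega
    · intro k
      simp only [Matrix.of_apply, JJ, Fin.val_last, lt_irrefl, if_false]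
      rw [if_pos htg, ht]
  have hD : ∀ s : ℤ, 1 ≤ s → s ≤ g + w → ∑ i : Fin (g+1), lamb M g i * M (i : ℤ) s = 0 := by
    intro s hs1 hs2
    rw [← expand]
    rcases le_or_gt s g with h | h
    · exact hD2 s hs1 h
    · exact hD1 s (by omega) hs2
  unfold win
  rw [← Matrix.exists_vecMul_eq_zero_iff]
  refine ⟨lamb M g, ?_, ?_⟩
  · intro h0
    have h4 := congrFun h0 (Fin.last g)
    simp only [lamb, Pi.zero_apply, Fin.val_last, Fin.succAbove_last] at h4
    rw [mul_eq_zero] at h4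
    rcases h4 with h4 | h4
    · exact absurd h4 (by positivity)
    · apply h3
      unfold win
      rw [← h4]
      congr 1
      ext a b
      simp only [Matrix.of_apply, Fin.val_castSucc, zero_add]
      congr 1
      ring
  · funext b
    have hb2 := b.2
    have h5 := hD ((w : ℤ) + b) (by omega) (by omega)
    rw [Matrix.vecMul, dotProduct, Pi.zero_apply, ← h5]
    apply Finset.sum_congr rfl
    intro a _
    simp only [Matrix.of_apply, zero_add]

end J06

end TZ
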