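import Pool.Agent.Helper80.TZ.Defs
import Pool.Agent.Helper80.TZ.J05
set_option autoImplicit false
set_option linter.unusedVariables false
open Finset

namespace TZ

namespace J07

theorem win_shift (M : ℤ → ℤ → ℝ) (k : ℕ) (r : ℤ) (s : ℤ) :
    win (fun i j => M i (j + s)) k r 0 = win M k r s := by
  unfold win
  congr 1
  ext a b
  simp only [Matrix.of_apply]
  congr 1
  ring

theorem col_mem (M : ℤ → ℤ → ℝ) (p q g : ℕ) (hgp : g ≤ p) (hgq : g ≤ q)
    (h0 : ∀ r s : ℕ, r + g + 1 ≤ p → s + g + 1 ≤ q → win M (g+1) r s = 0)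
    (h1 : ∀ r s : ℕ, r + g ≤ p → s + g ≤ q → win M g r s ≠ 0) (n : ℕ) :
    n < q → (fun i : Fin p => M (i:ℤ) (n:ℤ)) ∈ Submodule.span ℝ
      (Set.range fun b : Fin g => (fun i : Fin p => M (i:ℤ) (b:ℤ))) := by
  induction n using Nat.strong_induction_on with
  | _ n ih =>
    intro hn
    by_cases hng : n < g
    · exact Submodule.subset_span ⟨⟨n, hng⟩, rfl⟩
    · push Not at hng
      obtain ⟨s, rfl⟩ := Nat.exists_eq_add_of_le hng
      obtain ⟨w, hw⟩ := J05.slide_last (fun i j => M i (j + (s:ℤ))) p g hgp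
        (fun r hr => by rw [win_shift]; exact h0 r s hr (by omega))
        (fun r hr => by rw [win_shift]; exact h1 r s hr (by omega))
      have hcol : (fun i : Fin p => M (i:ℤ) ((g + s : ℕ):ℤ)) =
          ∑ j : Fin g, w j • (fun i : Fin p => M (i:ℤ) (((j:ℕ) + s : ℕ):ℤ)) := by
        funext i
        rw [Finset.sum_apply]
        have := hw i i.2
        simp only [Pi.smul_apply, smul_eq_mul]
        push_cast
        exact this
      rw [hcol]
      refine Submodule.sum_mem _ fun j _ => Submodule.smul_mem _ _ ?_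
      have hj := j.2
      exact ih ((j:ℕ) + s) (by omega) (by omega)

theorem rank_le_of_slide (M : ℤ → ℤ → ℝ) (p q g : ℕ) (hgp : g ≤ p) (hgq : g ≤ q)
    (h0 : ∀ r s : ℕ, r + g + 1 ≤ p → s + g + 1 ≤ q → win M (g+1) r s = 0)
    (h1 : ∀ r s : ℕ, r + g ≤ p → s + g ≤ q → win M g r s ≠ 0) :
    (Matrix.of fun (i : Fin p) (j : Fin q) => M (i:ℤ) (j:ℤ)).rank ≤ g := by
  rw [Matrix.rank_eq_finrank_span_cols]
  have hsub : Submodule.span ℝ (Set.range
      (Matrix.of fun (i : Fin p) (j : Fin q) => M (i:ℤ) (j:ℤ)).col) ≤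
      Submodule.span ℝ (Set.range fun b : Fin g => (fun i : Fin p => M (i:ℤ) (b:ℤ))) := by
    rw [Submodule.span_le]
    rintro _ ⟨j, rfl⟩
    exact col_mem M p q g hgp hgq h0 h1 j j.2
  calc _ ≤ Module.finrank ℝ (Submodule.span ℝ
        (Set.range fun b : Fin g => (fun i : Fin p => M (i:ℤ) (b:ℤ)))) :=
        Submodule.finrank_mono hsub
    _ ≤ Fintype.card (Fin g) := finrank_range_le_card _
    _ = g := Fintype.card_fin g

end J07

end TZ
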