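import Pool.Agent.Helper80.TZ.Defs
set_option autoImplicit false
set_option linter.unusedVariables false
open Finset

namespace TZ

namespace J08

theorem rank_add_le' {m n : Type*} [Fintype m] [Fintype n] (A B : Matrix m n ℝ) :
    (A + B).rank ≤ A.rank + B.rank := by
  unfold Matrix.rank
  rw [Matrix.mulVecLin_add]
  refine (Submodule.finrank_mono ?_).trans
    (Submodule.finrank_add_le_finrank_add_finrank (LinearMap.range A.mulVecLin)
      (LinearMap.range B.mulVecLin))
  rintro x ⟨y, rfl⟩
  exact Submodule.add_mem_sup ⟨y, rfl⟩ ⟨y, rfl⟩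

theorem rank_one_more {p' p q : ℕ} (A : Matrix (Fin p') (Fin q) ℝ) (B : Matrix (Fin p) (Fin q) ℝ)
    (i0 : Fin p') (h : ∀ i, i ≠ i0 → ∃ a, ∀ j, A i j = B a j) : A.rank ≤ B.rank + 1 := by
  classical
  choose s hs using h
  set P : Matrix (Fin p') (Fin p) ℝ := Matrix.of fun i a =>
    if hi : i ≠ i0 then (if a = s i hi then 1 else 0) else 0 with hP
  set C : Matrix (Fin p') (Fin q) ℝ := Matrix.of fun i j => if i = i0 then A i j else 0 with hC
  have hA : A = P * B + C := by
    ext i j
    rw [Matrix.add_apply, Matrix.mul_apply]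
    by_cases hi : i = i0
    · rw [Finset.sum_eq_zero]
      · simp [hC, hi]
      · intro a _
        simp [hP, hi]
    · rw [Finset.sum_eq_single (s i hi)]
      · simp [hC, hP, hi, hs i hi j]
      · intro a _ ha
        simp [hP, ha, hi]
      · intro hh
        exact absurd (Finset.mem_univ _) hh
  have h2 : C.rank ≤ 1 := by
    have := Matrix.rank_le_card_of_support_subset C {i0} (by
      intro i hi
      by_contra hne
      apply hi
      have hne' : i ≠ i0 := by simpa using hne
      funext j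
      simp [hC, Matrix.row, hne'])
    simpa using this
  calc A.rank = (P * B + C).rank := by rw [← hA]
    _ ≤ (P * B).rank + C.rank := rank_add_le' _ _
    _ ≤ B.rank + 1 := Nat.add_le_add (Matrix.rank_mul_le_right _ _) h2

theorem rank_last_row (M : ℤ → ℤ → ℝ) (p q : ℕ) :
    (Matrix.of fun (i : Fin (p+1)) (j : Fin q) => M (i:ℤ) (j:ℤ)).rank
      ≤ (Matrix.of fun (i : Fin p) (j : Fin q) => M (i:ℤ) (j:ℤ)).rank + 1 := by
  refine rank_one_more _ _ (Fin.last p) ?_
  intro i hi
  refine ⟨⟨i, ?_⟩, fun j => rfl⟩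
  have := Fin.val_lt_last hi
  exact this

theorem rank_first_row (M : ℤ → ℤ → ℝ) (p q : ℕ) :
    (Matrix.of fun (i : Fin (p+1)) (j : Fin q) => M (i:ℤ) (j:ℤ)).rank
      ≤ (Matrix.of fun (i : Fin p) (j : Fin q) => M ((i:ℤ) + 1) (j:ℤ)).rank + 1 := by
  refine rank_one_more _ _ 0 ?_
  intro i hi
  obtain ⟨a, rfl⟩ := Fin.exists_succ_eq.mpr hi
  refine ⟨a, fun j => ?_⟩
  simp

theorem det_zero_of_rank {k : ℕ} (N : Matrix (Fin k) (Fin k) ℝ) (M : ℤ → ℤ → ℝ) (p q : ℕ)
    (R C : Finset (Fin k)) (f g : Fin k → ℕ) (hf : ∀ x ∈ R, f x < p) (hg : ∀ y ∈ C, g y < q)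
    (h : ∀ x ∈ R, ∀ y ∈ C, N x y = M (f x) (g y))
    (hr : (Matrix.of fun (i : Fin p) (j : Fin q) => M (i:ℤ) (j:ℤ)).rank + k < R.card + C.card) :
    N.det = 0 := by
  classical
  by_contra hdet
  set M' : Matrix (Fin p) (Fin q) ℝ := Matrix.of fun (i : Fin p) (j : Fin q) => M (i:ℤ) (j:ℤ) with hM'
  have hk : N.rank = k := by
    rw [Matrix.rank_of_det_ne_zero hdet, Fintype.card_fin]
  set P : Matrix (Fin k) (Fin p) ℝ := Matrix.of fun x i => if x ∈ R ∧ f x = (i:ℕ) then 1 else 0 with hP
  set Q : Matrix (Fin q) (Fin k) ℝ := Matrix.of fun j y => if y ∈ C ∧ g y = (j:ℕ) then 1 else 0 with hQ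
  set B1 : Matrix (Fin k) (Fin k) ℝ := Matrix.of fun x y => if x ∈ R then 0 else N x y with hB1
  set B2 : Matrix (Fin k) (Fin k) ℝ := Matrix.of fun x y => if x ∈ R ∧ y ∉ C then N x y else 0 with hB2
  have hN : N = P * M' * Q + B1 + B2 := by
    ext x y
    rw [Matrix.add_apply, Matrix.add_apply, Matrix.mul_apply]
    by_cases hx : x ∈ R
    · by_cases hy : y ∈ C
      · rw [Finset.sum_eq_single (⟨g y, hg y hy⟩ : Fin q)]
        · rw [Matrix.mul_apply, Finset.sum_eq_single (⟨f x, hf x hx⟩ : Fin p)]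
          · simp [hB1, hB2, hP, hQ, hM', hx, hy, h x hx y hy]
          · intro a _ ha
            have : f x ≠ (a:ℕ) := fun he => ha (Fin.ext he.symm)
            simp [hP, this]
          · intro hh
            exact absurd (Finset.mem_univ _) hh
        · intro a _ ha
          have : g y ≠ (a:ℕ) := fun he => ha (Fin.ext he.symm)
          simp [hQ, this]
        · intro hh
          exact absurd (Finset.mem_univ _) hh
      · rw [Finset.sum_eq_zero]
        · simp [hB1, hB2, hx, hy]
        · intro a _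
          simp [hQ, hy]
    · rw [Finset.sum_eq_zero]
      · simp [hB1, hB2, hx]
      · intro a _
        have : (P * M') x a = 0 := by
          rw [Matrix.mul_apply, Finset.sum_eq_zero]
          intro b _
          simp [hP, hx]
        rw [this, zero_mul]
  have h1 : B1.rank ≤ Rᶜ.card := Matrix.rank_le_card_of_support_subset B1 Rᶜ (by
    intro x hx
    rw [Finset.mem_coe, Finset.mem_compl]
    intro hxR
    apply hx
    funext y
    simp [hB1, Matrix.row, hxR])
  have h2 : B2.rank ≤ Cᶜ.card := by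
    rw [← Matrix.rank_transpose]
    exact Matrix.rank_le_card_of_support_subset B2.transpose Cᶜ (by
      intro y hy
      rw [Finset.mem_coe, Finset.mem_compl]
      intro hyC
      apply hy
      funext x
      simp [hB2, Matrix.row, hyC])
  have h3 : (P * M' * Q).rank ≤ M'.rank :=
    (Matrix.rank_mul_le_left _ _).trans (Matrix.rank_mul_le_right _ _)
  have h4 : N.rank ≤ (P * M' * Q).rank + B1.rank + B2.rank := by
    calc N.rank = (P * M' * Q + B1 + B2).rank := by rw [← hN]
      _ ≤ (P * M' * Q + B1).rank + B2.rank := rank_add_le' _ _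
      _ ≤ _ := Nat.add_le_add_right (rank_add_le' _ _) _
  rw [Finset.card_compl, Fintype.card_fin] at h1 h2
  have h5 : R.card ≤ k := by simpa using Finset.card_le_univ R
  have h6 : C.card ≤ k := by simpa using Finset.card_le_univ C
  omega

end J08

end TZ
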