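import Pool.Agent.Helper80.TZ.Defs
import Pool.Agent.Helper80.TZ.J01
set_option autoImplicit false
set_option linter.unusedVariables false
open Finset

namespace TZ

namespace J10

theorem oneSide (M : ℤ → ℤ → ℝ) (q : ℕ) (k : ℕ) (I : Fin (k+1) → ℤ)
    (h1 : ∀ J : Fin k → ℤ, StrictMono J → (∀ b, 0 ≤ J b ∧ J b < q) →
      0 < mn M (fun a => I (Fin.castSucc a)) J)
    (h2 : ∀ J : Fin (k+1) → ℤ, StrictMono J → (∀ b, 0 ≤ J b ∧ J b < q) →
      (∀ b, J b = J 0 + (b : ℕ)) → 0 < mn M I J) :
    ∀ (D : ℕ) (J : Fin (k+1) → ℤ), StrictMono J → (∀ b, 0 ≤ J b ∧ J b < q) →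
      (J (Fin.last k) - J 0).toNat ≤ D → 0 < mn M I J := by
  intro D
  induction D with
  | zero =>
    intro J hJ hr hD
    apply h2 J hJ hr
    have h3 : J (Fin.last k) ≤ J 0 := by omega
    have hk : k = 0 := by
      by_contra hk
      have : (0 : Fin (k+1)) < Fin.last k := by
        rw [Fin.lt_def]; simp; omega
      have := hJ this
      omega
    subst hk
    intro b
    have : b = 0 := by
      apply Fin.ext
      have := b.2
      simp only [Fin.val_zero]
      omega
    subst this
    simp
  | succ D ih =>
    intro J hJ hr hD
    by_cases hsol : ∀ c : Fin k, J c.succ = J c.castSucc + 1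
    · apply h2 J hJ hr
      intro b
      induction b using Fin.induction with
      | zero => simp
      | succ c hc =>
        rw [hsol c, hc]
        simp only [Fin.val_castSucc, Fin.val_succ]
        push_cast
        ring
    · push Not at hsol
      obtain ⟨c, hc⟩ := hsol
      have hclt : J c.castSucc + 1 < J c.succ := by
        have := hJ (Fin.castSucc_lt_succ (i := c))
        omega
      set Jn : ℕ → ℤ := fun s => if h : s < k+1 then J ⟨s, h⟩ else 0 with hJn
      have hJnv : ∀ (s : ℕ) (h : s < k+1), Jn s = J ⟨s, h⟩ := by
        intro s h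
        simp only [hJn]
        rw [dif_pos h]
      have hJnm : ∀ s t : ℕ, s < t → t < k+1 → Jn s < Jn t := by
        intro s t hst ht
        rw [hJnv s (by omega), hJnv t ht]
        exact hJ (by rw [Fin.lt_def]; exact hst)
      have hJnm' : ∀ s t : ℕ, s ≤ t → t < k+1 → Jn s ≤ Jn t := by
        intro s t hst ht
        rcases hst.lt_or_eq with h | h
        · exact (hJnm s t h ht).le
        · rw [h]
      have hck : (c : ℕ) < k := c.2
      have hcc : Jn c + 1 < Jn (c + 1) := by
        rw [hJnv c (by omega), hJnv (c+1) (by omega)]
        exact hclt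
      set F : Fin (k+2) → ℤ := fun t => if (t : ℕ) ≤ c then Jn t else
        if (t : ℕ) = c + 1 then Jn c + 1 else Jn (t - 1) with hF
      have hFm : StrictMono F := by
        intro s t hst
        rw [Fin.lt_def] at hst
        have hs2 := s.2
        have ht2 := t.2
        simp only [hF]
        by_cases ht : (t : ℕ) ≤ c
        · rw [if_pos ht, if_pos (by omega)]
          exact hJnm _ _ hst (by omega)
        · rw [if_neg ht]
          by_cases ht' : (t : ℕ) = c + 1
          · rw [if_pos ht', if_pos (by omega)]
            have := hJnm' s c (by omega) (by omega)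
            omega
          · rw [if_neg ht']
            by_cases hs : (s : ℕ) ≤ c
            · rw [if_pos hs]
              exact hJnm _ _ (by omega) (by omega)
            · rw [if_neg hs]
              by_cases hs' : (s : ℕ) = c + 1
              · rw [if_pos hs']
                have := hJnm' (c+1) ((t : ℕ) - 1) (by omega) (by omega)
                omega
              · rw [if_neg hs']
                exact hJnm _ _ (by omega) (by omega)
      have hF0 : F 0 = J 0 := by
        have : F 0 = Jn 0 := by
          simp only [hF]
          rw [if_pos (by simp)]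
          simp
        rw [this, hJnv 0 (by omega)]
        rfl
      have hFl : F (Fin.last (k+1)) = J (Fin.last k) := by
        simp only [hF, Fin.val_last]
        rw [if_neg (by omega), if_neg (by omega), hJnv _ (by omega)]
        rfl
      have hFr : ∀ t, 0 ≤ F t ∧ F t < q := by
        intro t
        have ha : F 0 ≤ F t := hFm.monotone (Fin.zero_le t)
        have hb : F t ≤ F (Fin.last (k+1)) := hFm.monotone (Fin.le_last t)
        have := hr 0
        have := hr (Fin.last k)
        rw [hF0] at ha
        rw [hFl] at hb
        omega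
      set yy : Fin (k+2) := c.succ.castSucc with hyy
      have hyyv : (yy : ℕ) = c + 1 := by simp [hyy]
      have hFs : ∀ b : Fin (k+1), F (yy.succAbove b) = J b := by
        intro b
        have hb2 := b.2
        by_cases hb : (b : ℕ) ≤ c
        · have : yy.succAbove b = b.castSucc := by
            apply Fin.succAbove_of_castSucc_lt
            rw [Fin.lt_def, hyyv, Fin.val_castSucc]; omega
          rw [this]
          simp only [hF, Fin.val_castSucc]
          rw [if_pos hb, hJnv _ hb2]
        · have : yy.succAbove b = b.succ := by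
            apply Fin.succAbove_of_le_castSucc
            rw [Fin.le_def, hyyv, Fin.val_castSucc]; omega
          rw [this]
          simp only [hF, Fin.val_succ]
          rw [if_neg (by omega), if_neg (by omega), hJnv _ (by omega)]
          rfl
      obtain ⟨S, hS, hid⟩ := J01.T3L (Matrix.of fun a b => M (I a) (F b)) 0 yy
        (by rw [Fin.lt_def, hyyv]; simp) (by rw [Fin.lt_def, hyyv]; simp)
      have e1 : ((Matrix.of fun a b => M (I a) (F b)).submatrix id yy.succAbove).det = mn M I J := by
        unfold mn
        congr 1
        ext a b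
        simp [hFs]
      have key : ∀ G : Fin k → Fin (k+2), StrictMono G →
          0 < ((Matrix.of fun a b => M (I a) (F b)).submatrix Fin.castSucc G).det := by
        intro G hG
        exact h1 (fun b => F (G b)) (hFm.comp hG) (fun b => hFr _)
      have key2 : ∀ G : Fin (k+1) → Fin (k+2), StrictMono G →
          (F (G (Fin.last k)) - F (G 0)).toNat ≤ D →
          0 < ((Matrix.of fun a b => M (I a) (F b)).submatrix id G).det := by
        intro G hG hGD
        exact ih (fun b => F (G b)) (hFm.comp hG) (fun b => hFr _) hGD
      rw [e1] at hid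
      have p1 := key (fun j : Fin k => (0 : Fin (k+2)).succAbove (Fin.castSucc j))
        ((Fin.strictMono_succAbove _).comp Fin.strictMono_castSucc)
      have p2 := key (fun j : Fin k => yy.succAbove (Fin.castSucc j))
        ((Fin.strictMono_succAbove _).comp Fin.strictMono_castSucc)
      have p3 := key S hS
      have hlastpos : F 0 < F (Fin.last (k+1)) := hFm (by rw [Fin.lt_def]; simp)
      have p4 := key2 ((0 : Fin (k+2)).succAbove) (Fin.strictMono_succAbove _) (by
        have e2 : (0 : Fin (k+2)).succAbove (Fin.last k) = Fin.last (k+1) := by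
          simp
        have e3 : F 0 < F ((0 : Fin (k+2)).succAbove 0) := hFm (by simp)
        rw [e2]
        rw [← hF0, ← hFl] at hD
        have e4 : F ((0 : Fin (k+2)).succAbove 0) ≤ F (Fin.last (k+1)) := hFm.monotone (Fin.le_last _)
        omega)
      have p5 := key2 Fin.castSucc Fin.strictMono_castSucc (by
        have e2 : Fin.castSucc (0 : Fin (k+1)) = 0 := rfl
        have e3 : F (Fin.castSucc (Fin.last k)) < F (Fin.last (k+1)) := hFm (Fin.castSucc_lt_last _)
        rw [e2]
        rw [← hF0, ← hFl] at hD
        omega)
      have hpos : 0 < mn M I J * ((Matrix.of fun a b => M (I a) (F b)).submatrix Fin.castSucc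
          (fun j : Fin k => (0 : Fin (k+2)).succAbove (Fin.castSucc j))).det := by
        rw [hid]
        exact add_pos (mul_pos p4 p2) (mul_pos p5 p3)
      by_contra hneg
      push Not at hneg
      exact absurd hpos (not_lt.2 (mul_nonpos_of_nonpos_of_nonneg hneg p1.le))

theorem fekete (M : ℤ → ℤ → ℝ) (p q : ℕ)
    (h : ∀ (k i j : ℕ), i + k ≤ p → j + k ≤ q → 0 < win M k i j) :
    ∀ (k : ℕ) (I J : Fin k → ℤ), StrictMono I → StrictMono J →
      (∀ a, 0 ≤ I a ∧ I a < p) → (∀ b, 0 ≤ J b ∧ J b < q) → 0 < mn M I J := by
  intro k
  induction k with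
  | zero =>
    intro I J _ _ _ _
    simp [mn]
  | succ k ih =>
    -- solid rows
    have hA : ∀ I J : Fin (k+1) → ℤ, StrictMono I → StrictMono J →
        (∀ a, 0 ≤ I a ∧ I a < p) → (∀ b, 0 ≤ J b ∧ J b < q) → (∀ a, I a = I 0 + (a : ℕ)) →
        0 < mn M I J := by
      intro I J hI hJ hIr hJr hIs
      refine oneSide M q k I (fun J' hJ' hJr' => ih _ _ (hI.comp Fin.strictMono_castSucc) hJ'
        (fun a => hIr _) hJr') ?_ _ J hJ hJr le_rfl
      intro J' hJ' hJr' hJs'
      have hw := h (k+1) (I 0).toNat (J' 0).toNat (by
        have h1 := hIr 0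
        have h2 := hIr (Fin.last k)
        have h3 := hIs (Fin.last k)
        rw [Fin.val_last] at h3
        omega) (by
        have h1 := hJr' 0
        have h2 := hJr' (Fin.last k)
        have h3 := hJs' (Fin.last k)
        rw [Fin.val_last] at h3
        omega)
      have e : win M (k+1) ((I 0).toNat : ℤ) ((J' 0).toNat : ℤ) = mn M I J' := by
        unfold win mn
        rw [Int.toNat_of_nonneg (hIr 0).1, Int.toNat_of_nonneg (hJr' 0).1]
        congr 1
        ext a b
        simp only [Matrix.of_apply]
        rw [hIs a, hJs' b]
      rw [← e]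
      exact hw
    intro I J hI hJ hIr hJr
    have htr : ∀ {m : ℕ} (A B : Fin m → ℤ), mn (fun i j => M j i) A B = mn M B A := by
      intro m A B
      unfold mn
      rw [← Matrix.det_transpose]
      rfl
    rw [← htr]
    refine oneSide (fun i j => M j i) p k J (fun I' hI' hIr' => ?_) ?_ _ I hI hIr le_rfl
    · rw [htr]
      exact ih _ _ hI' (hJ.comp Fin.strictMono_castSucc) hIr' (fun a => hJr _)
    · intro I' hI' hIr' hIs'
      rw [htr]
      exact hA I' J hI' hJ hIr' hJr hIs'

end J10

end TZ
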