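import Pool.Agent.Helper80.TZ.Defs
import Pool.Agent.Helper80.TZ.J01
import Pool.Agent.Helper80.TZ.J02
set_option autoImplicit false
set_option linter.unusedVariables false
open Finset

namespace TZ

namespace J11

theorem exch (M : ℤ → ℤ → ℝ) (p q : ℕ) (hTN : TNR M p q) {k : ℕ} (I : Fin (k+1) → ℤ)
    (hI : StrictMono I) (hIr : ∀ a, 0 ≤ I a ∧ I a < p) (F : Fin (k+2) → ℤ) (hF : StrictMono F)
    (hFr : ∀ b, 0 ≤ F b ∧ F b < q) (y : Fin (k+2)) (hy0 : 0 < y) (hy1 : y < Fin.last (k+1))
    (h0 : mn M I (fun b => F (y.succAbove b)) = 0)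
    (hl : 0 < mn M (fun a : Fin k => I a.castSucc) (fun b : Fin k => F (y.succAbove b.castSucc)))
    (hr : 0 < mn M (fun a : Fin k => I a.succ) (fun b : Fin k => F (y.succAbove b.succ)))
    (t : Fin (k+2)) : mn M I (fun b => F (t.succAbove b)) = 0 := by
  have hA : 0 ≤ mn M I (fun b => F (t.succAbove b)) :=
    hTN _ _ _ hI (hF.comp (Fin.strictMono_succAbove t)) hIr (fun b => hFr _)
  rcases lt_trichotomy t y with hty | hty | hty
  · obtain ⟨S, hS, h⟩ := J01.T3L (Matrix.of (fun a b => M (I a) (F b))) t y hty hy1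
    have hB : 0 ≤ mn M I (fun b => F (Fin.castSucc b)) :=
      hTN _ _ _ hI (hF.comp Fin.strictMono_castSucc) hIr (fun b => hFr _)
    have hC : 0 ≤ mn M (fun a : Fin k => I a.castSucc) (fun b => F (S b)) :=
      hTN _ _ _ (hI.comp Fin.strictMono_castSucc) (hF.comp hS) (fun a => hIr _) (fun b => hFr _)
    change mn M I (fun b => F (y.succAbove b)) * _ = mn M I (fun b => F (t.succAbove b)) *
      mn M (fun a : Fin k => I a.castSucc) (fun b : Fin k => F (y.succAbove b.castSucc)) +
      mn M I (fun b => F (Fin.castSucc b)) *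
        mn M (fun a : Fin k => I a.castSucc) (fun b => F (S b)) at h
    rw [h0, zero_mul] at h
    have h1 := mul_nonneg hB hC
    have h2 := mul_nonneg hA hl.le
    have h3 : mn M I (fun b => F (t.succAbove b)) *
      mn M (fun a : Fin k => I a.castSucc) (fun b : Fin k => F (y.succAbove b.castSucc)) = 0 := by
      linarith
    rcases mul_eq_zero.1 h3 with h4 | h4
    · exact h4
    · exact absurd h4 hl.ne'
  · rw [hty]
    exact h0
  · obtain ⟨S, hS, h⟩ := J02.T3F (Matrix.of (fun a b => M (I a) (F b))) y t hy0 hty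
    have hB : 0 ≤ mn M I (fun b => F (Fin.succ b)) :=
      hTN _ _ _ hI (hF.comp Fin.strictMono_succ) hIr (fun b => hFr _)
    have hC : 0 ≤ mn M (fun a : Fin k => I a.succ) (fun b => F (S b)) :=
      hTN _ _ _ (hI.comp Fin.strictMono_succ) (hF.comp hS) (fun a => hIr _) (fun b => hFr _)
    change mn M I (fun b => F (y.succAbove b)) * _ = mn M I (fun b => F (t.succAbove b)) *
      mn M (fun a : Fin k => I a.succ) (fun b : Fin k => F (y.succAbove b.succ)) +
      mn M I (fun b => F (Fin.succ b)) *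
        mn M (fun a : Fin k => I a.succ) (fun b => F (S b)) at h
    rw [h0, zero_mul] at h
    have h1 := mul_nonneg hB hC
    have h2 := mul_nonneg hA hr.le
    have h3 : mn M I (fun b => F (t.succAbove b)) *
      mn M (fun a : Fin k => I a.succ) (fun b : Fin k => F (y.succAbove b.succ)) = 0 := by
      linarith
    rcases mul_eq_zero.1 h3 with h4 | h4
    · exact h4
    · exact absurd h4 hr.ne'

end J11

end TZ
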