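import Pool.Agent.Helper80.TZ.Defs
set_option autoImplicit false
set_option linter.unusedVariables false
open Finset

namespace TZ

namespace J12

theorem val_sa {k : ℕ} (y : Fin (k+2)) (b : Fin (k+1)) :
    ((y.succAbove b : Fin (k+2)) : ℕ) = if (b:ℕ) < (y:ℕ) then (b:ℕ) else (b:ℕ) + 1 := by
  unfold Fin.succAbove
  have e : (b.castSucc < y) ↔ (b:ℕ) < (y:ℕ) := Iff.rfl
  by_cases h : (b:ℕ) < (y:ℕ)
  · rw [if_pos (e.2 h), if_pos h]; rfl
  · rw [if_neg (fun h' => h (e.1 h')), if_neg h]; rfl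

/-- the inserted sequence -/
def G (A : ℕ → ℤ) (y : ℕ) (v : ℤ) (n : ℕ) : ℤ :=
  if n < y then A n + n else if n = y then v else A (n-1) + ((n-1 : ℕ) : ℤ)

theorem G_lt (A : ℕ → ℤ) (y : ℕ) (v : ℤ) (n : ℕ) (h : n < y) : G A y v n = A n + n := by
  rw [G, if_pos h]
theorem G_eq (A : ℕ → ℤ) (y : ℕ) (v : ℤ) : G A y v y = v := by
  rw [G, if_neg (lt_irrefl _), if_pos rfl]
theorem G_gt (A : ℕ → ℤ) (y : ℕ) (v : ℤ) (n : ℕ) (h : y ≤ n) : G A y v (n+1) = A n + n := by
  rw [G, if_neg (by omega), if_neg (by omega)]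
  simp

theorem G_step (A : ℕ → ℤ) (k y : ℕ) (v : ℤ) (hA : ∀ i, i + 1 ≤ k → A i ≤ A (i+1)) (hy0 : 0 < y)
    (hyk : y < k + 1) (h1 : A (y-1) + ((y - 1 : ℕ) : ℤ) < v) (h2 : v < A y + y) (i : ℕ)
    (hi : i ≤ k) : G A y v i < G A y v (i+1) := by
  rcases lt_trichotomy (i+1) y with h | h | h
  · rw [G_lt _ _ _ _ (by omega), G_lt _ _ _ _ h]
    have := hA i (by omega)
    push_cast
    linarith
  · subst h
    rw [G_lt _ _ _ _ (by omega), G_eq]
    simpa using h1
  · rcases eq_or_lt_of_le (Nat.lt_succ_iff.1 h) with h' | h'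
    · subst h'
      rw [G_eq, G_gt _ _ _ _ le_rfl]
      exact h2
    · obtain ⟨j, rfl⟩ : ∃ j, i = j + 1 := ⟨i - 1, by omega⟩
      rw [G_gt _ _ _ _ (by omega), G_gt _ _ _ _ (by omega)]
      have := hA j (by omega)
      push_cast
      linarith

/-- extension of `α` to naturals -/
def ex {k : ℕ} (α : Fin (k+1) → ℤ) (n : ℕ) : ℤ := if h : n < k + 1 then α ⟨n, h⟩ else 0

theorem ex_val {k : ℕ} (α : Fin (k+1) → ℤ) (b : Fin (k+1)) : ex α (b:ℕ) = α b := by
  rw [ex, dif_pos b.2]

theorem ex_lt {k : ℕ} (α : Fin (k+1) → ℤ) (n : ℕ) (h : n < k + 1) : ex α n = α ⟨n, h⟩ := by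
  rw [ex, dif_pos h]

theorem main_F {k : ℕ} (α : Fin (k+1) → ℤ) (hα : Monotone α) (y : Fin (k+2)) (v : ℤ)
    (hy0 : 0 < (y:ℕ)) (hyk : (y:ℕ) < k + 1)
    (h1 : ex α ((y:ℕ)-1) + (((y:ℕ) - 1 : ℕ) : ℤ) < v) (h2 : v < ex α y + (y:ℕ)) :
    StrictMono (fun x : Fin (k+2) => G (ex α) y v x) ∧ 0 < y ∧ y < Fin.last (k+1) ∧
      (∀ b, G (ex α) y v (y.succAbove b : Fin (k+2)) = α b + (b:ℤ)) ∧
      G (ex α) y v (0 : Fin (k+2)) = α 0 ∧
      G (ex α) y v (Fin.last (k+1)) = α (Fin.last k) + k := by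
  have hA : ∀ i, i + 1 ≤ k → ex α i ≤ ex α (i+1) := by
    intro i hi
    rw [ex_lt α i (by omega), ex_lt α (i+1) (by omega)]
    apply hα
    rw [Fin.le_def]
    simp
  refine ⟨?_, ?_, ?_, ?_, ?_, ?_⟩
  · rw [Fin.strictMono_iff_lt_succ]
    intro i
    exact G_step (ex α) k y v hA hy0 hyk h1 h2 i (by omega)
  · rw [Fin.lt_def]; exact hy0
  · rw [Fin.lt_def]; exact hyk
  · intro b
    rw [val_sa]
    by_cases h : (b:ℕ) < (y:ℕ)
    · rw [if_pos h, G_lt _ _ _ _ h, ex_val]
    · rw [if_neg h, G_gt _ _ _ _ (not_lt.1 h), ex_val]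
  · have : ((0 : Fin (k+2)) : ℕ) = 0 := rfl
    rw [this, G_lt _ _ _ _ hy0, ex_lt α 0 (by omega)]
    simp
  · have : ((Fin.last (k+1) : Fin (k+2)) : ℕ) = k + 1 := rfl
    rw [this, G_gt _ _ _ _ (by omega), ex_lt α k (by omega)]
    rfl

theorem mov_F {k : ℕ} (α α' : Fin (k+1) → ℤ) (hα : Monotone α) (h : Mov α α') :
    ∃ (F : Fin (k+2) → ℤ) (y t : Fin (k+2)), StrictMono F ∧ 0 < y ∧ y < Fin.last (k+1) ∧
      (∀ b, F (y.succAbove b) = α b + (b:ℤ)) ∧ (∀ b, F (t.succAbove b) = α' b + (b:ℤ)) ∧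
      F 0 = α 0 ∧ F (Fin.last (k+1)) = α (Fin.last k) + k := by
  cases h with
  | up r s hs h1 h2 =>
    have hsk := s.2
    have hy : ((s.castSucc : Fin (k+2)) : ℕ) = (s:ℕ) := rfl
    obtain ⟨m1, m2, m3, m4, m5, m6⟩ := main_F α hα s.castSucc (α r + (r:ℕ) + 1)
      (by rw [hy]; omega) (by rw [hy]; omega)
      (by
        have e : ((s.castSucc : Fin (k+2)) : ℕ) - 1 = (r:ℕ) := by rw [hy]; omega
        rw [e, ex_val]; linarith)
      (by rw [hy, ex_val, hs]; push_cast; linarith)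
    refine ⟨_, s.castSucc, 0, m1, m2, m3, m4, ?_, m5, m6⟩
    intro b
    show G (ex α) ((s.castSucc : Fin (k+2)) : ℕ) (α r + (r:ℕ) + 1)
      (((0 : Fin (k+2)).succAbove b : Fin (k+2)) : ℕ) = (if b ≤ r then α b + 1 else α b) + (b:ℤ)
    have e0 : (((0 : Fin (k+2)).succAbove b : Fin (k+2)) : ℕ) = (b:ℕ) + 1 := by
      rw [val_sa]; simp
    rw [e0, hy]
    rcases lt_trichotomy (b:ℕ) (r:ℕ) with hb | hb | hb
    · rw [G_lt _ _ _ _ (by omega), ex_lt α _ (by omega), if_pos (Fin.le_def.2 hb.le),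
        h1 ⟨(b:ℕ)+1, by omega⟩ (by rw [Fin.le_def]; exact hb), h1 b (Fin.le_def.2 hb.le)]
      push_cast
      ring
    · have hbr : b = r := Fin.ext hb
      subst hbr
      have e1 : (b:ℕ) + 1 = (s:ℕ) := hs.symm
      rw [e1, G_eq, if_pos le_rfl]
      ring
    · rw [G_gt _ _ _ _ (by omega), ex_val, if_neg (by rw [Fin.le_def]; omega)]
  | dn r s hs h1 h2 =>
    have hsk := s.2
    have hy : ((s.castSucc : Fin (k+2)) : ℕ) = (s:ℕ) := rfl
    obtain ⟨m1, m2, m3, m4, m5, m6⟩ := main_F α hα s.castSucc (α s + (s:ℕ) - 1)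
      (by rw [hy]; omega) (by rw [hy]; omega)
      (by
        have e : ((s.castSucc : Fin (k+2)) : ℕ) - 1 = (r:ℕ) := by rw [hy]; omega
        rw [e, ex_val, hs]; push_cast; linarith)
      (by rw [hy, ex_val]; linarith)
    refine ⟨_, s.castSucc, Fin.last (k+1), m1, m2, m3, m4, ?_, m5, m6⟩
    intro b
    show G (ex α) ((s.castSucc : Fin (k+2)) : ℕ) (α s + (s:ℕ) - 1)
      (((Fin.last (k+1)).succAbove b : Fin (k+2)) : ℕ) =
        (if s ≤ b then α b - 1 else α b) + (b:ℤ)
    have hbk := b.2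
    have e0 : (((Fin.last (k+1)).succAbove b : Fin (k+2)) : ℕ) = (b:ℕ) := by
      rw [val_sa, if_pos]
      exact hbk
    rw [e0, hy]
    rcases lt_trichotomy (b:ℕ) (s:ℕ) with hb | hb | hb
    · rw [G_lt _ _ _ _ hb, ex_val, if_neg (by rw [Fin.le_def]; omega)]
    · have hbr : b = s := Fin.ext hb
      subst hbr
      rw [G_eq, if_pos le_rfl]
      ring
    · obtain ⟨j, hj⟩ : ∃ j, (b:ℕ) = j + 1 := ⟨(b:ℕ) - 1, by omega⟩
      rw [hj, G_gt _ _ _ _ (by omega), ex_lt α _ (by omega), if_pos (Fin.le_def.2 hb.le),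
        h1 ⟨j, by omega⟩ (by rw [Fin.le_def]; show (s:ℕ) ≤ j; omega), h1 b (Fin.le_def.2 hb.le)]
      push_cast
      ring
  | one r s hs h2 =>
    have hsk := s.2
    have hy : ((s.castSucc : Fin (k+2)) : ℕ) = (s:ℕ) := rfl
    obtain ⟨m1, m2, m3, m4, m5, m6⟩ := main_F α hα s.castSucc (α s + (s:ℕ) - 1)
      (by rw [hy]; omega) (by rw [hy]; omega)
      (by
        have e : ((s.castSucc : Fin (k+2)) : ℕ) - 1 = (r:ℕ) := by rw [hy]; omega
        rw [e, ex_val, hs]; push_cast; linarith)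
      (by rw [hy, ex_val]; linarith)
    refine ⟨_, s.castSucc, s.succ, m1, m2, m3, m4, ?_, m5, m6⟩
    intro b
    show G (ex α) ((s.castSucc : Fin (k+2)) : ℕ) (α s + (s:ℕ) - 1)
      ((s.succ.succAbove b : Fin (k+2)) : ℕ) =
        (if b = s then α b - 1 else α b) + (b:ℤ)
    have e0 : ((s.succ.succAbove b : Fin (k+2)) : ℕ) =
        if (b:ℕ) < (s:ℕ) + 1 then (b:ℕ) else (b:ℕ) + 1 := by
      rw [val_sa]; rfl
    rw [e0, hy]
    rcases lt_trichotomy (b:ℕ) (s:ℕ) with hb | hb | hb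
    · rw [if_pos (by omega), G_lt _ _ _ _ hb, ex_val, if_neg (by intro h; rw [h] at hb; omega)]
    · have hbr : b = s := Fin.ext hb
      subst hbr
      rw [if_pos (by omega), G_eq, if_pos rfl]
      ring
    · rw [if_neg (by omega), G_gt _ _ _ _ (by omega), ex_val,
        if_neg (by intro h; rw [h] at hb; omega)]

theorem mu_nonneg {k : ℕ} (α' : Fin (k+1) → ℤ) (h : Monotone α') : 0 ≤ mu α' := by
  unfold mu
  apply Finset.sum_nonneg
  intro b _
  have := h (Fin.zero_le b)
  linarith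

theorem mov_props {k : ℕ} (α α' : Fin (k+1) → ℤ) (hα : Monotone α) (h : Mov α α') :
    Monotone α' ∧ (∀ b, α 0 ≤ α' b ∧ α' b ≤ α (Fin.last k)) ∧ 0 ≤ mu α' ∧ mu α' < mu α := by
  have hmono : Monotone α' := by
    cases h with
    | up r s hs h1 h2 =>
      intro a b hab
      show (if a ≤ r then α a + 1 else α a) ≤ (if b ≤ r then α b + 1 else α b)
      have hab' := hα hab
      by_cases ha : a ≤ r
      · by_cases hb : b ≤ r
        · rw [if_pos ha, if_pos hb]; linarith
        · rw [if_pos ha, if_neg hb, h1 a ha]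
          have hsb : s ≤ b := by
            rw [Fin.le_def] at hb ⊢
            omega
          have := hα hsb
          omega
      · have hb : ¬ b ≤ r := fun h => ha (le_trans hab h)
        rw [if_neg ha, if_neg hb]; exact hab'
    | dn r s hs h1 h2 =>
      intro a b hab
      show (if s ≤ a then α a - 1 else α a) ≤ (if s ≤ b then α b - 1 else α b)
      have hab' := hα hab
      by_cases ha : s ≤ a
      · have hb : s ≤ b := le_trans ha hab
        rw [if_pos ha, if_pos hb]; linarith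
      · by_cases hb : s ≤ b
        · rw [if_neg ha, if_pos hb, h1 b hb]
          have hsb : a ≤ r := by
            rw [Fin.le_def] at ha ⊢
            omega
          have := hα hsb
          omega
        · rw [if_neg ha, if_neg hb]; exact hab'
    | one r s hs h2 =>
      intro a b hab
      show (if a = s then α a - 1 else α a) ≤ (if b = s then α b - 1 else α b)
      have hab' := hα hab
      by_cases ha : a = s
      · by_cases hb : b = s
        · rw [if_pos ha, if_pos hb]; linarith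
        · rw [if_pos ha, if_neg hb]; linarith
      · by_cases hb : b = s
        · rw [if_neg ha, if_pos hb]
          have hsb : a ≤ r := by
            rw [Fin.le_def] at hab ⊢
            have : (a:ℕ) ≠ (s:ℕ) := fun h => ha (Fin.ext h)
            rw [hb] at hab
            omega
          have := hα hsb
          rw [hb]
          omega
        · rw [if_neg ha, if_neg hb]; exact hab'
  refine ⟨hmono, ?_, mu_nonneg α' hmono, ?_⟩
  · cases h with
    | up r s hs h1 h2 =>
      intro b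
      show α 0 ≤ (if b ≤ r then α b + 1 else α b) ∧ (if b ≤ r then α b + 1 else α b) ≤ _
      have hb0 := hα (Fin.zero_le b)
      have hbl := hα (Fin.le_last b)
      have hsl := hα (Fin.le_last s)
      by_cases hb : b ≤ r
      · rw [if_pos hb]
        have := h1 b hb
        constructor <;> omega
      · rw [if_neg hb]; exact ⟨hb0, hbl⟩
    | dn r s hs h1 h2 =>
      intro b
      show α 0 ≤ (if s ≤ b then α b - 1 else α b) ∧ (if s ≤ b then α b - 1 else α b) ≤ _
      have hb0 := hα (Fin.zero_le b)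
      have hbl := hα (Fin.le_last b)
      have hr0 := hα (Fin.zero_le r)
      by_cases hb : s ≤ b
      · rw [if_pos hb]
        have := h1 b hb
        constructor <;> omega
      · rw [if_neg hb]; exact ⟨hb0, hbl⟩
    | one r s hs h2 =>
      intro b
      show α 0 ≤ (if b = s then α b - 1 else α b) ∧ (if b = s then α b - 1 else α b) ≤ _
      have hb0 := hα (Fin.zero_le b)
      have hbl := hα (Fin.le_last b)
      have hr0 := hα (Fin.zero_le r)
      by_cases hb : b = s
      · rw [if_pos hb]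
        subst hb
        constructor <;> omega
      · rw [if_neg hb]; exact ⟨hb0, hbl⟩
  · unfold mu
    cases h with
    | up r s hs h1 h2 =>
      have h0 : (0 : Fin (k+1)) ≤ r := Fin.zero_le r
      apply Finset.sum_lt_sum
      · intro b _
        show (if b ≤ r then α b + 1 else α b) - (if (0 : Fin (k+1)) ≤ r then α 0 + 1 else α 0) ≤ _
        rw [if_pos h0]
        by_cases hb : b ≤ r
        · rw [if_pos hb]; linarith
        · rw [if_neg hb]; linarith
      · refine ⟨s, Finset.mem_univ _, ?_⟩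
        show (if s ≤ r then α s + 1 else α s) - (if (0 : Fin (k+1)) ≤ r then α 0 + 1 else α 0) < _
        rw [if_pos h0, if_neg (by rw [Fin.le_def]; omega)]
        linarith
    | dn r s hs h1 h2 =>
      have h0 : ¬ s ≤ (0 : Fin (k+1)) := by
        rw [Fin.le_def]
        have : ((0 : Fin (k+1)) : ℕ) = 0 := rfl
        omega
      apply Finset.sum_lt_sum
      · intro b _
        show (if s ≤ b then α b - 1 else α b) - (if s ≤ (0 : Fin (k+1)) then α 0 - 1 else α 0) ≤ _
        rw [if_neg h0]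
        by_cases hb : s ≤ b
        · rw [if_pos hb]; linarith
        · rw [if_neg hb]
      · refine ⟨s, Finset.mem_univ _, ?_⟩
        show (if s ≤ s then α s - 1 else α s) - (if s ≤ (0 : Fin (k+1)) then α 0 - 1 else α 0) < _
        rw [if_neg h0, if_pos le_rfl]
        linarith
    | one r s hs h2 =>
      have h0 : ¬ (0 : Fin (k+1)) = s := by
        intro h
        have := congrArg Fin.val h
        have h' : ((0 : Fin (k+1)) : ℕ) = 0 := rfl
        omega
      apply Finset.sum_lt_sum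
      · intro b _
        show (if b = s then α b - 1 else α b) - (if (0 : Fin (k+1)) = s then α 0 - 1 else α 0) ≤ _
        rw [if_neg h0]
        by_cases hb : b = s
        · rw [if_pos hb]; linarith
        · rw [if_neg hb]
      · refine ⟨s, Finset.mem_univ _, ?_⟩
        show (if s = s then α s - 1 else α s) - (if (0 : Fin (k+1)) = s then α 0 - 1 else α 0) < _
        rw [if_neg h0, if_pos rfl]
        linarith

end J12

end TZ
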