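import Pool.Agent.Helper80.TZ.Defs
set_option autoImplicit false
set_option linter.unusedVariables false
open Finset

namespace TZ

namespace J14


theorem brk_dn {m n k : ℕ} (hkm : k + 1 < m) (Q : Set ℤ) (α β α' β' : Fin (k+1) → ℤ)
    (hle : ∀ a b, α' b - β' a ≤ α b - β a) (hge : ∀ a b, α b - β a - 1 ≤ α' b - β' a)
    (hC : Cond m n Q α β) (hn : ¬ Cond m n Q α' β') :
    ∃ a b : Fin (k+1), a ≤ b ∧ α' b - β' a = α b - β a - 1 ∧ (m:ℤ) + α b - β a ∈ Q ∧
      ∀ q ∈ Q, (b:ℤ) - (a:ℤ) + 1 ≤ q → (m:ℤ) + α b - β a ≤ q := by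
  by_contra hcon
  apply hn
  refine ⟨?_, ?_, ?_⟩
  · intro a b hab
    by_contra h1
    apply hcon
    obtain ⟨q, hq, hq1, hq2⟩ := hC.1 a b hab
    have h2 : ∀ q ∈ Q, (b:ℤ) - (a:ℤ) + 1 ≤ q → (m:ℤ) + α' b - β' a < q := by
      intro q hq hq1
      by_contra h3
      exact h1 ⟨q, hq, hq1, by omega⟩
    have h3 := h2 q hq hq1
    have h4 := hle a b
    have h5 := hge a b
    have h6 : q = (m:ℤ) + α b - β a := by omega
    refine ⟨a, b, hab, by omega, h6 ▸ hq, ?_⟩
    intro q' hq' hq1'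
    have := h2 q' hq' hq1'
    omega
  · intro a b hab
    obtain ⟨q, hq, hq1, hq2⟩ := hC.2.1 a b hab
    have h4 := hle a b
    exact ⟨q, hq, by omega, hq2⟩
  · intro h; omega

theorem brk_up {m n k : ℕ} (hkm : k + 1 < m) (Q : Set ℤ) (α β α' β' : Fin (k+1) → ℤ)
    (hge : ∀ a b, α b - β a ≤ α' b - β' a) (hle : ∀ a b, α' b - β' a ≤ α b - β a + 1)
    (hC : Cond m n Q α β) (hn : ¬ Cond m n Q α' β') :
    ∃ a b : Fin (k+1), b ≤ a ∧ α' b - β' a = α b - β a + 1 ∧ (m:ℤ) + α b - β a ∈ Q ∧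
      ∀ q ∈ Q, q ≤ (m:ℤ) + n - 1 - ((a:ℤ) - (b:ℤ)) → q ≤ (m:ℤ) + α b - β a := by
  by_contra hcon
  apply hn
  refine ⟨?_, ?_, ?_⟩
  · intro a b hab
    obtain ⟨q, hq, hq1, hq2⟩ := hC.1 a b hab
    have h4 := hge a b
    exact ⟨q, hq, hq1, by omega⟩
  · intro a b hab
    by_contra h1
    apply hcon
    obtain ⟨q, hq, hq1, hq2⟩ := hC.2.1 a b hab
    have h2 : ∀ q ∈ Q, q ≤ (m:ℤ) + n - 1 - ((a:ℤ) - (b:ℤ)) → q < (m:ℤ) + α' b - β' a := by
      intro q hq hq1
      by_contra h3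
      exact h1 ⟨q, hq, by omega, hq1⟩
    have h3 := h2 q hq hq2
    have h4 := hle a b
    have h5 := hge a b
    have h6 : q = (m:ℤ) + α b - β a := by omega
    refine ⟨a, b, hab, by omega, h6 ▸ hq, ?_⟩
    intro q' hq' hq1'
    have := h2 q' hq' hq1'
    omega
  · intro h; omega

theorem first_run {k : ℕ} (α : Fin (k+1) → ℤ) (hm : Monotone α) (hne : ¬ ∀ a, α a = α 0) :
    ∃ r s : Fin (k+1), (s:ℕ) = r + 1 ∧ (∀ x, x ≤ r → α x = α 0) ∧ α 0 < α s := by
  classical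
  have hS : (Finset.univ.filter (fun x => α 0 < α x)).Nonempty := by
    push Not at hne
    obtain ⟨a, ha⟩ := hne
    refine ⟨a, ?_⟩
    simp only [Finset.mem_filter, Finset.mem_univ, true_and]
    exact lt_of_le_of_ne (hm (Fin.zero_le a)) (Ne.symm ha)
  set S := Finset.univ.filter (fun x => α 0 < α x) with hSdef
  have hs := S.min'_mem hS
  set s := S.min' hS with hsdef
  have hs2 : α 0 < α s := by simpa [hSdef] using hs
  have hs0 : (s : ℕ) ≠ 0 := by
    intro h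
    have : s = 0 := Fin.ext h
    rw [this] at hs2
    exact lt_irrefl _ hs2
  refine ⟨⟨(s:ℕ) - 1, by have := s.2; omega⟩, s, by simp; omega, ?_, hs2⟩
  intro x hx
  have hx1 : (x : ℕ) ≤ (s:ℕ) - 1 := hx
  by_contra hne2
  have hxS : x ∈ S := by
    simp only [hSdef, Finset.mem_filter, Finset.mem_univ, true_and]
    exact lt_of_le_of_ne (hm (Fin.zero_le x)) (Ne.symm hne2)
  have h1 : s ≤ x := S.min'_le x hxS
  have h2 : (s:ℕ) ≤ x := h1
  omega

theorem last_run {k : ℕ} (α : Fin (k+1) → ℤ) (hm : Monotone α) (hne : ¬ ∀ a, α a = α 0) :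
    ∃ r s : Fin (k+1), (s:ℕ) = r + 1 ∧ (∀ x, s ≤ x → α x = α (Fin.last k)) ∧ α r < α (Fin.last k) := by
  classical
  have hS : (Finset.univ.filter (fun x => α x < α (Fin.last k))).Nonempty := by
    push Not at hne
    obtain ⟨a, ha⟩ := hne
    refine ⟨0, ?_⟩
    simp only [Finset.mem_filter, Finset.mem_univ, true_and]
    have h1 := hm (Fin.zero_le a)
    have h2 := hm (Fin.le_last a)
    exact lt_of_lt_of_le (lt_of_le_of_ne h1 (Ne.symm ha)) h2
  set S := Finset.univ.filter (fun x => α x < α (Fin.last k)) with hSdef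
  have hs := S.max'_mem hS
  set r := S.max' hS with hrdef
  have hs2 : α r < α (Fin.last k) := by simpa [hSdef] using hs
  have hs0 : (r : ℕ) ≠ k := by
    intro h
    have : r = Fin.last k := Fin.ext h
    rw [this] at hs2
    exact lt_irrefl _ hs2
  refine ⟨r, ⟨(r:ℕ) + 1, by have := r.2; omega⟩, rfl, ?_, hs2⟩
  intro x hx
  have hx1 : (r:ℕ) + 1 ≤ x := hx
  by_contra hne2
  have hxS : x ∈ S := by
    simp only [hSdef, Finset.mem_filter, Finset.mem_univ, true_and]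
    exact lt_of_le_of_ne (hm (Fin.le_last x)) hne2
  have h1 : x ≤ r := S.le_max' x hxS
  have h2 : (x:ℕ) ≤ r := h1
  omega

/-- no good move of `α` when `α` is not constant -/
theorem alpha_fail {m n k : ℕ} (hkm : k + 1 < m) (Q : Set ℤ) (α β : Fin (k+1) → ℤ)
    (hR : Rng m n α β) (hC : Cond m n Q α β) (hne : ¬ ∀ a, α a = α 0)
    (hmv : ∀ α', Mov α α' → ¬ Cond m n Q α' β) :
    (∃ a, (m:ℤ) + α 0 - β a ∈ Q ∧ ∀ q ∈ Q, q ≤ (m:ℤ) + n - (k+1) → q ≤ (m:ℤ) + α 0 - β a) ∧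
    (∃ a, (m:ℤ) + α (Fin.last k) - β a ∈ Q ∧
      ∀ q ∈ Q, (k:ℤ) + 1 ≤ q → (m:ℤ) + α (Fin.last k) - β a ≤ q) := by
  constructor
  · obtain ⟨r, s, hs, h1, h2⟩ := first_run α hR.1 hne
    have hr : α r = α 0 := h1 r le_rfl
    have hn := hmv _ (Mov.up r s hs (fun x hx => by rw [h1 x hx, hr]) (by rw [hr]; exact h2))
    obtain ⟨a, b, hab, he, hq, hq2⟩ := brk_up hkm Q α β _ β
      (fun a b => by split_ifs <;> omega)
      (fun a b => by split_ifs <;> omega) hC hn
    have hb : b ≤ r := by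
      by_contra hb
      simp only [hb, if_false] at he
      omega
    rw [h1 b hb] at hq hq2
    refine ⟨a, hq, ?_⟩
    intro q hqQ hqle
    apply hq2 q hqQ
    have := a.2
    have := b.2
    omega
  · obtain ⟨r, s, hs, h1, h2⟩ := last_run α hR.1 hne
    have hr : α s = α (Fin.last k) := h1 s le_rfl
    have hn := hmv _ (Mov.dn r s hs (fun x hx => by rw [h1 x hx, hr]) (by rw [hr]; exact h2))
    obtain ⟨a, b, hab, he, hq, hq2⟩ := brk_dn hkm Q α β _ β
      (fun a b => by split_ifs <;> omega)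
      (fun a b => by split_ifs <;> omega) hC hn
    have hb : s ≤ b := by
      by_contra hb
      simp only [hb, if_false] at he
      omega
    rw [h1 b hb] at hq hq2
    refine ⟨a, hq, ?_⟩
    intro q hqQ hqle
    apply hq2 q hqQ
    have := a.2
    have := b.2
    omega

/-- no good move of `β` when `β` is not constant -/
theorem beta_fail {m n k : ℕ} (hkm : k + 1 < m) (Q : Set ℤ) (α β : Fin (k+1) → ℤ)
    (hR : Rng m n α β) (hC : Cond m n Q α β) (hne : ¬ ∀ a, β a = β 0)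
    (hmv : ∀ β', Mov β β' → ¬ Cond m n Q α β') :
    (∃ b, (m:ℤ) + α b - β 0 ∈ Q ∧ ∀ q ∈ Q, (k:ℤ) + 1 ≤ q → (m:ℤ) + α b - β 0 ≤ q) ∧
    (∃ b, (m:ℤ) + α b - β (Fin.last k) ∈ Q ∧
      ∀ q ∈ Q, q ≤ (m:ℤ) + n - (k+1) → q ≤ (m:ℤ) + α b - β (Fin.last k)) := by
  constructor
  · obtain ⟨r, s, hs, h1, h2⟩ := first_run β hR.2.1 hne
    have hr : β r = β 0 := h1 r le_rfl
    have hn := hmv _ (Mov.up r s hs (fun x hx => by rw [h1 x hx, hr]) (by rw [hr]; exact h2))
    obtain ⟨a, b, hab, he, hq, hq2⟩ := brk_dn hkm Q α β α _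
      (fun a b => by split_ifs <;> omega)
      (fun a b => by split_ifs <;> omega) hC hn
    have hb : a ≤ r := by
      by_contra hb
      simp only [hb, if_false] at he
      omega
    rw [h1 a hb] at hq hq2
    refine ⟨b, hq, ?_⟩
    intro q hqQ hqle
    apply hq2 q hqQ
    have := a.2
    have := b.2
    omega
  · obtain ⟨r, s, hs, h1, h2⟩ := last_run β hR.2.1 hne
    have hr : β s = β (Fin.last k) := h1 s le_rfl
    have hn := hmv _ (Mov.dn r s hs (fun x hx => by rw [h1 x hx, hr]) (by rw [hr]; exact h2))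
    obtain ⟨a, b, hab, he, hq, hq2⟩ := brk_up hkm Q α β α _
      (fun a b => by split_ifs <;> omega)
      (fun a b => by split_ifs <;> omega) hC hn
    have hb : s ≤ a := by
      by_contra hb
      simp only [hb, if_false] at he
      omega
    rw [h1 a hb] at hq hq2
    refine ⟨b, hq, ?_⟩
    intro q hqQ hqle
    apply hq2 q hqQ
    have := a.2
    have := b.2
    omega

theorem step {m n k : ℕ} (hkm : k + 1 < m) (hmn : m ≤ n) (Q : Set ℤ)
    (hQ : ∀ q ∈ Q, 1 ≤ q ∧ q + 1 ≤ (m:ℤ) + n) (α β : Fin (k+1) → ℤ)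
    (hR : Rng m n α β) (hC : Cond m n Q α β) :
    ((∀ a, α a = α 0) ∧ (∀ a, β a = β 0)) ∨
    (∃ α', Mov α α' ∧ Cond m n Q α' β) ∨
    (∃ β', Mov β β' ∧ Cond m n Q α β') ∨
    (∃ d : ℤ, (∀ a, α a = β a + d) ∧ ∀ q ∈ Q, q = (m:ℤ) + d) := by
  classical
  by_contra hcon
  rw [not_or, not_or, not_or] at hcon
  obtain ⟨hcon1, hcon2, hcon3, hcon4⟩ := hcon
  have hA : ∀ α', Mov α α' → ¬ Cond m n Q α' β := fun α' h1 h2 => hcon2 ⟨α', h1, h2⟩
  have hB : ∀ β', Mov β β' → ¬ Cond m n Q α β' := fun β' h1 h2 => hcon3 ⟨β', h1, h2⟩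
  -- range
  have hT1 : ∀ a b, (k:ℤ) + 1 ≤ (m:ℤ) + α b - β a := by
    intro a b
    have h1 := (hR.2.2.1 b).1
    have h2 := (hR.2.2.2 a).2
    push_cast at h2
    omega
  have hT2 : ∀ a b, (m:ℤ) + α b - β a ≤ (m:ℤ) + n - (k + 1) := by
    intro a b
    have h1 := (hR.2.2.1 b).2
    have h2 := (hR.2.2.2 a).1
    push_cast at h1
    omega
  have mα0 : ∀ x, α 0 ≤ α x := fun x => hR.1 (Fin.zero_le x)
  have mαl : ∀ x, α x ≤ α (Fin.last k) := fun x => hR.1 (Fin.le_last x)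
  have mβ0 : ∀ x, β 0 ≤ β x := fun x => hR.2.1 (Fin.zero_le x)
  have mβl : ∀ x, β x ≤ β (Fin.last k) := fun x => hR.2.1 (Fin.le_last x)
  by_cases hα : ∀ a, α a = α 0
  · by_cases hβ : ∀ a, β a = β 0
    · exact hcon1 ⟨hα, hβ⟩
    · obtain ⟨⟨b1, hb1, hb1'⟩, ⟨b2, hb2, hb2'⟩⟩ := beta_fail hkm Q α β hR hC hβ hB
      have h1 := hb1' _ hb2 (hT1 _ _)
      rw [hα b1, hα b2] at h1
      apply hβ
      intro a
      have := mβ0 a
      have := mβl a
      omega
  · by_cases hβ : ∀ a, β a = β 0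
    · obtain ⟨⟨b1, hb1, hb1'⟩, ⟨b2, hb2, hb2'⟩⟩ := alpha_fail hkm Q α β hR hC hα hA
      have h1 := hb2' _ hb1 (hT1 _ _)
      rw [hβ b1, hβ b2] at h1
      apply hα
      intro a
      have := mα0 a
      have := mαl a
      omega
    · obtain ⟨⟨a1, ha1, ha1'⟩, ⟨a2, ha2, ha2'⟩⟩ := alpha_fail hkm Q α β hR hC hα hA
      obtain ⟨⟨b2, hb2, hb2'⟩, ⟨b1, hb1, hb1'⟩⟩ := beta_fail hkm Q α β hR hC hβ hB
      -- max : (a1), (b1);  min : (a2), (b2)
      have e1 := ha1' _ hb1 (hT2 _ _)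
      have e2 := hb1' _ ha1 (hT2 _ _)
      have e3 := ha2' _ hb2 (hT1 _ _)
      have e4 := hb2' _ ha2 (hT1 _ _)
      have e5 := ha2' _ ha1 (hT1 _ _)
      have e6 := hb2' _ hb1 (hT1 _ _)
      have i1 := mβ0 a1
      have i2 := mβl a2
      have i3 := mα0 b2
      have i4 := mαl b1
      have i5 := mβl a1
      have i6 := mβ0 a2
      have i7 := mαl b2
      have i8 := mα0 b1
      obtain ⟨d, hd⟩ : ∃ d : ℤ, d = α 0 - β 0 := ⟨_, rfl⟩
      have hd2 : d = α (Fin.last k) - β (Fin.last k) := by omega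
      have hmax : ∀ q ∈ Q, q ≤ (m:ℤ) + n - (k+1) → q ≤ (m:ℤ) + d := by
        intro q hq h
        have := ha1' q hq h
        omega
      have hmin : ∀ q ∈ Q, (k:ℤ) + 1 ≤ q → (m:ℤ) + d ≤ q := by
        intro q hq h
        have := ha2' q hq h
        omega
      obtain ⟨ra, sa, hsa, h1a, h2a⟩ := first_run α hR.1 hα
      obtain ⟨rb, sb, hsb, h1b, h2b⟩ := first_run β hR.2.1 hβ
      have hra : α ra = α 0 := h1a ra le_rfl
      have hrb : β rb = β 0 := h1b rb le_rfl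
      have hna := hA _ (Mov.one ra sa hsa (by rw [hra]; exact h2a))
      have hnb := hB _ (Mov.one rb sb hsb (by rw [hrb]; exact h2b))
      obtain ⟨a', b, hab, he, hq, hq2⟩ := brk_dn hkm Q α β _ β
        (fun a b => by split_ifs <;> omega)
        (fun a b => by split_ifs <;> omega) hC hna
      obtain ⟨a, b', hab', he', hq', hq2'⟩ := brk_up hkm Q α β α _
        (fun a b => by split_ifs <;> omega)
        (fun a b => by split_ifs <;> omega) hC hnb
      have hb : b = sa := by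
        by_contra hb
        simp only [hb, if_false] at he
        omega
      have ha : a = sb := by
        by_contra ha
        simp only [ha, if_false] at he'
        omega
      subst hb
      subst ha
      have f1 := hmax _ hq (hT2 _ _)
      have f2 := hmin _ hq (hT1 _ _)
      have f3 := hmax _ hq' (hT2 _ _)
      have f4 := hmin _ hq' (hT1 _ _)
      have g1 : (a : ℕ) ≤ a' := by
        by_contra h
        have h3 : a' ≤ rb := by
          show (a' : ℕ) ≤ rb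
          omega
        have := h1b a' h3
        omega
      have g2 : (b : ℕ) ≤ b' := by
        by_contra h
        have h3 : b' ≤ ra := by
          show (b' : ℕ) ≤ ra
          omega
        have := h1a b' h3
        omega
      have g3 : (a' : ℕ) ≤ b := hab
      have g4 : (b' : ℕ) ≤ a := hab'
      have hQd : ∀ q ∈ Q, q = (m:ℤ) + d := by
        intro q hqQ
        have j1 := hq2 q hqQ (by have := (hQ q hqQ).1; omega)
        have j2 := hq2' q hqQ (by have := (hQ q hqQ).2; omega)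
        omega
      apply hcon4
      refine ⟨d, ?_, hQd⟩
      intro x
      obtain ⟨q1, hq1, _, hq12⟩ := hC.1 x x le_rfl
      obtain ⟨q3, hq3, hq31, _⟩ := hC.2.1 x x le_rfl
      have k1 := hQd q1 hq1
      have k2 := hQd q3 hq3
      omega

end J14

end TZ
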