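import Pool.Agent.Helper80.TZ.Defs
set_option autoImplicit false
set_option linter.unusedVariables false
open Finset

namespace TZ

namespace J15

theorem firstrun {k : ℕ} (α : Fin (k+1) → ℤ) (hm : Monotone α) (hl : α 0 < α (Fin.last k)) :
    ∃ r s : Fin (k+1), (s:ℕ) = r + 1 ∧ (∀ x, x ≤ r → α x = α r) ∧ α r < α s ∧ α r = α 0 := by
  have hne : (Finset.univ.filter (fun x => α 0 < α x)).Nonempty :=
    ⟨Fin.last k, by simp [hl]⟩
  set s := (Finset.univ.filter (fun x => α 0 < α x)).min' hne with hs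
  have hs1 : α 0 < α s := by
    have := Finset.min'_mem _ hne
    rw [Finset.mem_filter] at this
    exact this.2
  have hs0 : (s:ℕ) ≠ 0 := by
    intro h0
    have : s = 0 := Fin.ext (by simpa using h0)
    rw [this] at hs1
    exact lt_irrefl _ hs1
  have hlt : ∀ x, x < s → α x = α 0 := by
    intro x hx
    by_contra hne'
    have h0 : α 0 ≤ α x := hm (Fin.zero_le x)
    have : α 0 < α x := lt_of_le_of_ne h0 (Ne.symm hne')
    have := Finset.min'_le (Finset.univ.filter (fun x => α 0 < α x)) x (by simp [this])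
    exact absurd hx (not_lt.mpr this)
  have hrlt : (⟨(s:ℕ) - 1, by omega⟩ : Fin (k+1)) < s := by
    rw [Fin.lt_def]; simp only; omega
  refine ⟨⟨(s:ℕ) - 1, by omega⟩, s, ?_, ?_, ?_, ?_⟩
  · simp only; omega
  · intro x hx
    rw [hlt _ (lt_of_le_of_lt hx hrlt), hlt _ hrlt]
  · rw [hlt _ hrlt]; exact hs1
  · exact hlt _ hrlt

theorem lastrun {k : ℕ} (α : Fin (k+1) → ℤ) (hm : Monotone α) (hl : α 0 < α (Fin.last k)) :
    ∃ r s : Fin (k+1), (s:ℕ) = r + 1 ∧ (∀ x, s ≤ x → α x = α s) ∧ α r < α s ∧ α s = α (Fin.last k) := by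
  have hne : (Finset.univ.filter (fun x => α x < α (Fin.last k))).Nonempty :=
    ⟨0, by simp [hl]⟩
  set r := (Finset.univ.filter (fun x => α x < α (Fin.last k))).max' hne with hr
  have hr1 : α r < α (Fin.last k) := by
    have := Finset.max'_mem _ hne
    rw [Finset.mem_filter] at this
    exact this.2
  have hrk : (r:ℕ) ≠ k := by
    intro h0
    have : r = Fin.last k := Fin.ext (by simpa using h0)
    rw [this] at hr1
    exact lt_irrefl _ hr1
  have hrl := r.2
  have hlt : ∀ x, r < x → α x = α (Fin.last k) := by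
    intro x hx
    by_contra hne'
    have h0 : α x ≤ α (Fin.last k) := hm (Fin.le_last x)
    have : α x < α (Fin.last k) := lt_of_le_of_ne h0 hne'
    have := Finset.le_max' (Finset.univ.filter (fun x => α x < α (Fin.last k))) x (by simp [this])
    exact absurd hx (not_lt.mpr this)
  have hslt : r < (⟨(r:ℕ) + 1, by omega⟩ : Fin (k+1)) := by
    rw [Fin.lt_def]; simp
  refine ⟨r, ⟨(r:ℕ) + 1, by omega⟩, rfl, ?_, ?_, ?_⟩
  · intro x hx
    rw [hlt _ (lt_of_lt_of_le hslt hx), hlt _ hslt]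
  · rw [hlt _ hslt]; exact hr1
  · exact hlt _ hslt

theorem stepm {m n k : ℕ} (hkm : k + 1 = m) (hmn : m ≤ n) (Q : Set ℤ)
    (hQ : ∀ q ∈ Q, 1 ≤ q ∧ q + 1 ≤ (m:ℤ) + n) (α β : Fin (k+1) → ℤ)
    (hR : Rng m n α β) (hC : Cond m n Q α β) :
    (∀ a, β a = 0) ∧ ((∀ a, α a = α 0) ∨ (∃ α', Mov α α' ∧ Cond m n Q α' β)) := by
  obtain ⟨hma, hmb, hra, hrb⟩ := hR
  obtain ⟨c1, c2, c3⟩ := hC
  have hb0 : ∀ a, β a = 0 := by
    intro a
    have := hrb a
    push_cast at this
    have h2 : (k:ℤ) + 1 = m := by exact_mod_cast hkm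
    omega
  refine ⟨hb0, ?_⟩
  by_cases hc : α 0 < α (Fin.last k)
  swap
  · left
    intro a
    have h1 : α 0 ≤ α a := hma (Fin.zero_le a)
    have h2 : α a ≤ α (Fin.last k) := hma (Fin.le_last a)
    omega
  right
  have hkm' : (k:ℤ) + 1 = m := by exact_mod_cast hkm
  by_cases hA : ∃ q ∈ Q, (m:ℤ) + α 0 + 1 ≤ q ∧ q ≤ (m:ℤ) + α (Fin.last k)
  · obtain ⟨q, hq, hq1, hq2⟩ := hA
    obtain ⟨r, s, hs, h1, h2, h3⟩ := firstrun α hma hc
    refine ⟨_, Mov.up r s hs h1 h2, ?_, ?_, ?_⟩
    · intro a b hab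
      obtain ⟨q', hq', e1, e2⟩ := c1 a b hab
      refine ⟨q', hq', e1, ?_⟩
      beta_reduce
      split_ifs
      · omega
      · exact e2
    · intro a b hab
      by_cases hbr : b ≤ r
      · refine ⟨q, hq, ?_, ?_⟩
        · beta_reduce
          rw [if_pos hbr, hb0, h1 b hbr, h3]; omega
        · have := (hra (Fin.last k)).2
          push_cast at this
          have ha := a.2
          omega
      · obtain ⟨q', hq', e1, e2⟩ := c2 a b hab
        refine ⟨q', hq', ?_, e2⟩
        beta_reduce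
        rw [if_neg hbr]; exact e1
    · intro _
      refine ⟨q, hq, 0, Fin.last k, ?_, ?_⟩
      · beta_reduce
        rw [if_pos (Fin.zero_le r)]; omega
      · beta_reduce
        split_ifs <;> omega
  · obtain ⟨q, hq, b, b', e1, e2⟩ := c3 hkm
    have hb1 : α 0 ≤ α b := hma (Fin.zero_le b)
    have hb2 : α b' ≤ α (Fin.last k) := hma (Fin.le_last b')
    have hq0 : q = (m:ℤ) + α 0 := by
      by_contra hne
      apply hA
      exact ⟨q, hq, by omega, by omega⟩
    have h00 := (hra 0).1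
    obtain ⟨r, s, hs, h1, h2, h3⟩ := lastrun α hma hc
    refine ⟨_, Mov.dn r s hs h1 h2, ?_, ?_, ?_⟩
    · intro a b hab
      by_cases hbs : s ≤ b
      · refine ⟨q, hq, ?_, ?_⟩
        · have := b.2
          omega
        · beta_reduce
          rw [if_pos hbs, hb0, h1 b hbs, h3]; omega
      · obtain ⟨q', hq', e1, e2⟩ := c1 a b hab
        refine ⟨q', hq', e1, ?_⟩
        beta_reduce
        rw [if_neg hbs]; exact e2
    · intro a b hab
      obtain ⟨q', hq', e1, e2⟩ := c2 a b hab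
      refine ⟨q', hq', ?_, e2⟩
      beta_reduce
      split_ifs <;> omega
    · intro _
      refine ⟨q, hq, 0, Fin.last k, ?_, ?_⟩
      · beta_reduce
        split_ifs <;> omega
      · beta_reduce
        split_ifs <;> omega


end J15

end TZ
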