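import Pool.Agent.Helper80.TZ.Defs
import Pool.Agent.Helper80.TZ.J11
import Pool.Agent.Helper80.TZ.J12
set_option autoImplicit false
set_option linter.unusedVariables false
open Finset

namespace TZ

namespace J16

theorem tab_mn (c : ℤ → ℝ) {k : ℕ} (α β : Fin k → ℤ) :
    tab c α β = mn (toe c) (fun a => β a + (a:ℤ)) (fun b => α b + (b:ℤ)) := rfl

theorem smono {k : ℕ} (β : Fin k → ℤ) (h : Monotone β) : StrictMono (fun a => β a + (a:ℤ)) := by
  intro a b hab
  have h1 := h hab.le
  have h2 : ((a:ℕ):ℤ) < ((b:ℕ):ℤ) := by exact_mod_cast hab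
  show β a + (a:ℤ) < β b + (b:ℤ)
  omega

theorem exc_col (c : ℤ → ℝ) (m n : ℕ) (hTN : TNR (toe c) m n) {k : ℕ}
    (α β : Fin (k+1) → ℤ) (hR : Rng m n α β) (α' : Fin (k+1) → ℤ) (hM : Mov α α')
    (h0 : tab c α β = 0)
    (hl : 0 < tab c (fun b : Fin k => α b.castSucc) (fun a : Fin k => β a.castSucc))
    (hr : 0 < tab c (fun b : Fin k => α b.succ) (fun a : Fin k => β a.succ)) :
    tab c α' β = 0 := by
  obtain ⟨hα, hβ, hαr, hβr⟩ := hR
  obtain ⟨F, y, t, hF, hy0, hy1, e1, e2, e3, e4⟩ := J12.mov_F α α' hα hM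
  have hFr : ∀ b, 0 ≤ F b ∧ F b < n := by
    intro b
    have a1 : F 0 ≤ F b := hF.monotone (Fin.zero_le b)
    have a2 : F b ≤ F (Fin.last (k+1)) := hF.monotone (Fin.le_last b)
    have a3 := (hαr 0).1
    have a4 := (hαr (Fin.last k)).2
    push_cast at a4
    constructor <;> omega
  have hI : ∀ a : Fin (k+1), 0 ≤ β a + (a:ℤ) ∧ β a + (a:ℤ) < m := by
    intro a
    have a1 := (hβr a).1
    have a2 := (hβr a).2
    have a3 := a.2
    push_cast at a2
    constructor <;> omega
  have E := J11.exch (toe c) m n hTN (fun a => β a + (a:ℤ)) (smono β hβ) hI F hF hFr y hy0 hy1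
    (by
      simp only [e1]
      exact h0)
    (by
      simp only [e1]
      exact hl)
    (by
      simp only [e1]
      have : mn (toe c) (fun a : Fin k => β a.succ + ((a.succ : Fin (k+1)) : ℤ))
          (fun b : Fin k => α b.succ + ((b.succ : Fin (k+1)) : ℤ))
          = tab c (fun b : Fin k => α b.succ) (fun a : Fin k => β a.succ) := by
        unfold mn tab toe
        congr 1
        ext a b
        simp only [Matrix.of_apply, Fin.val_succ]
        congr 1
        push_cast
        ring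
      rw [this]
      exact hr) t
  simp only [e2] at E
  exact E

theorem tab_tr (c : ℤ → ℝ) {k : ℕ} (α β : Fin k → ℤ) :
    tab (fun d => c (-d)) β α = tab c α β := by
  unfold tab
  rw [← Matrix.det_transpose]
  congr 1
  ext a b
  simp only [Matrix.transpose_apply, Matrix.of_apply]
  congr 1
  ring

theorem TNR_tr (c : ℤ → ℝ) (m n : ℕ) (hTN : TNR (toe c) m n) : TNR (toe (fun d => c (-d))) n m := by
  intro k I J hI hJ hIr hJr
  have h := hTN k J I hJ hI hJr hIr
  have e : mn (toe (fun d => c (-d))) I J = mn (toe c) J I := by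
    unfold mn toe
    rw [← Matrix.det_transpose]
    congr 1
    ext a b
    simp only [Matrix.transpose_apply, Matrix.of_apply]
    congr 1
    ring
  rw [e]; exact h

theorem exc_row (c : ℤ → ℝ) (m n : ℕ) (hTN : TNR (toe c) m n) {k : ℕ}
    (α β : Fin (k+1) → ℤ) (hR : Rng m n α β) (β' : Fin (k+1) → ℤ) (hM : Mov β β')
    (h0 : tab c α β = 0)
    (hl : 0 < tab c (fun b : Fin k => α b.castSucc) (fun a : Fin k => β a.castSucc))
    (hr : 0 < tab c (fun b : Fin k => α b.succ) (fun a : Fin k => β a.succ)) :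
    tab c α β' = 0 := by
  obtain ⟨hα, hβ, hαr, hβr⟩ := hR
  have h := exc_col (fun d => c (-d)) n m (TNR_tr c m n hTN) β α ⟨hβ, hα, hβr, hαr⟩ β' hM
    (by rw [tab_tr]; exact h0) (by rw [tab_tr]; exact hl) (by rw [tab_tr]; exact hr)
  rw [tab_tr] at h
  exact h

end J16

end TZ
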