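import Pool.Agent.Helper80.TZ.Defs
import Pool.Agent.Helper80.TZ.J03
import Pool.Agent.Helper80.TZ.J04
set_option autoImplicit false
set_option linter.unusedVariables false
open Finset

namespace TZ

namespace J17

theorem win_toe (c : ℤ → ℝ) (k : ℕ) (i j : ℤ) : win (toe c) k i j = sol c k (j - i) := by
  unfold win sol toe
  congr 1
  ext a b
  simp only [Matrix.of_apply]
  congr 1
  ring

theorem sol_dodgson (c : ℤ → ℝ) (k : ℕ) (d : ℤ) :
    sol c (k+2) d * sol c k d = sol c (k+1) d ^ 2 - sol c (k+1) (d-1) * sol c (k+1) (d+1) := by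
  have h := J03.dodgson (Matrix.of fun a b : Fin (k+2) => c (d + (b:ℤ) - (a:ℤ)))
  have e1 : ((Matrix.of fun a b : Fin (k+2) => c (d + (b:ℤ) - (a:ℤ))).submatrix
      (fun i : Fin k => i.succ.castSucc) (fun i : Fin k => i.succ.castSucc)).det = sol c k d := by
    unfold sol
    congr 1
    ext a b
    simp only [Matrix.of_apply, Matrix.submatrix_apply, Fin.val_castSucc, Fin.val_succ]
    congr 1
    push_cast
    ring
  have e2 : ((Matrix.of fun a b : Fin (k+2) => c (d + (b:ℤ) - (a:ℤ))).submatrix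
      Fin.castSucc Fin.castSucc).det = sol c (k+1) d := by
    unfold sol
    congr 1
  have e3 : ((Matrix.of fun a b : Fin (k+2) => c (d + (b:ℤ) - (a:ℤ))).submatrix
      Fin.succ Fin.succ).det = sol c (k+1) d := by
    unfold sol
    congr 1
    ext a b
    simp only [Matrix.of_apply, Matrix.submatrix_apply, Fin.val_succ]
    congr 1
    push_cast
    ring
  have e4 : ((Matrix.of fun a b : Fin (k+2) => c (d + (b:ℤ) - (a:ℤ))).submatrix
      Fin.succ Fin.castSucc).det = sol c (k+1) (d-1) := by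
    unfold sol
    congr 1
    ext a b
    simp only [Matrix.of_apply, Matrix.submatrix_apply, Fin.val_castSucc, Fin.val_succ]
    congr 1
    push_cast
    ring
  have e5 : ((Matrix.of fun a b : Fin (k+2) => c (d + (b:ℤ) - (a:ℤ))).submatrix
      Fin.castSucc Fin.succ).det = sol c (k+1) (d+1) := by
    unfold sol
    congr 1
    ext a b
    simp only [Matrix.of_apply, Matrix.submatrix_apply, Fin.val_castSucc, Fin.val_succ]
    congr 1
    push_cast
    ring
  rw [e1, e2, e3, e4, e5] at h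
  have e0 : (Matrix.of fun a b : Fin (k+2) => c (d + (b:ℤ) - (a:ℤ))).det = sol c (k+2) d := rfl
  rw [e0] at h
  rw [h]
  ring

theorem tnr_block (c : ℤ → ℝ) (m n : ℕ) (hTN : TNR (toe c) m n) (i j : ℤ) (p q : ℕ)
    (hi : 0 ≤ i) (hj : 0 ≤ j) (hip : i + p ≤ m) (hjq : j + q ≤ n) :
    TNR (toe (fun d => c (d + (j - i)))) p q := by
  intro k I J hI hJ hIb hJb
  have h := hTN k (fun a => I a + i) (fun b => J b + j)
    (fun a b hab => by have := hI hab; simp only; omega)
    (fun a b hab => by have := hJ hab; simp only; omega)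
    (fun a => by have := hIb a; omega)
    (fun b => by have := hJb b; omega)
  have e : mn (toe c) (fun a => I a + i) (fun b => J b + j) =
      mn (toe (fun d => c (d + (j - i)))) I J := by
    unfold mn toe
    congr 1
    ext a b
    simp only [Matrix.of_apply]
    congr 1
    ring
  rw [e] at h
  exact h

theorem sol_shift (c : ℤ → ℝ) (k : ℕ) (s d : ℤ) :
    sol (fun x => c (x + s)) k d = sol c k (d + s) := by
  unfold sol
  congr 1
  ext a b
  simp only [Matrix.of_apply]
  congr 1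
  ring

theorem sol_nonneg (c : ℤ → ℝ) (m n : ℕ) (hTN : TNR (toe c) m n) (k : ℕ) (hkm : k ≤ m)
    (hkn : k ≤ n) (d : ℤ) (h1 : (k:ℤ) - m ≤ d) (h2 : d + k ≤ n) : 0 ≤ sol c k d := by
  obtain ⟨i0, hi0, hi1, hi2, hi3⟩ : ∃ i0 : ℤ, 0 ≤ i0 ∧ 0 ≤ i0 + d ∧ i0 + k ≤ m ∧ i0 + d + k ≤ n := by
    rcases le_total 0 d with h | h
    · exact ⟨0, by omega, by omega, by omega, by omega⟩
    · exact ⟨-d, by omega, by omega, by omega, by omega⟩
  have h := hTN k (fun a => i0 + (a:ℤ)) (fun b => i0 + d + (b:ℤ))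
    (fun a b hab => by have : (a:ℕ) < b := hab; simp only; omega)
    (fun a b hab => by have : (a:ℕ) < b := hab; simp only; omega)
    (fun a => by have := a.isLt; omega)
    (fun b => by have := b.isLt; omega)
  have e : mn (toe c) (fun a : Fin k => i0 + (a:ℤ)) (fun b : Fin k => i0 + d + (b:ℤ)) =
      sol c k d := by
    unfold mn toe sol
    congr 1
    ext a b
    simp only [Matrix.of_apply]
    congr 1
    ring
  rw [e] at h
  exact h

theorem sol_down1 (c : ℤ → ℝ) (m n : ℕ) (hTN : TNR (toe c) m n) (k : ℕ)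
    (hkm : k + 1 ≤ m) (hkn : k + 1 ≤ n) (d : ℤ) (h1 : (k:ℤ) + 1 - m ≤ d) (h2 : d + k + 1 ≤ n)
    (h : 0 < sol c (k + 1) d) : 0 < sol c k d := by
  obtain ⟨i0, hi0, hi1, hi2, hi3⟩ : ∃ i0 : ℤ, 0 ≤ i0 ∧ 0 ≤ i0 + d ∧ i0 + (k + 1 : ℕ) ≤ m ∧
      i0 + d + (k + 1 : ℕ) ≤ n := by
    rcases le_total 0 d with h | h
    · exact ⟨0, by omega, by omega, by omega, by omega⟩
    · exact ⟨-d, by omega, by omega, by omega, by omega⟩
  have hb := tnr_block c m n hTN i0 (i0 + d) (k + 1) (k + 1) hi0 hi1 hi2 hi3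
  have hd : i0 + d - i0 = d := by ring
  rw [hd] at hb
  have h3 := J04.lead_pos (toe (fun x => c (x + d))) k hb (by
    rw [win_toe, sol_shift, sub_zero, zero_add]; exact h)
  have h4 := h3.1
  rw [win_toe, sol_shift, sub_zero, zero_add] at h4
  exact h4

theorem sol_down (c : ℤ → ℝ) (m n : ℕ) (hTN : TNR (toe c) m n) (k l : ℕ) (hlk : l ≤ k)
    (hkm : k ≤ m) (hkn : k ≤ n) (d : ℤ) (h1 : (k:ℤ) - m ≤ d) (h2 : d + k ≤ n)
    (h : 0 < sol c k d) : 0 < sol c l d := by
  induction k with
  | zero =>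
    have : l = 0 := by omega
    rw [this]; exact h
  | succ k ih =>
    rcases Nat.lt_or_ge k l with h3 | h3
    · have : l = k + 1 := by omega
      rw [this]; exact h
    · exact ih h3 (by omega) (by omega) (by push_cast at h1; omega) (by push_cast at h2; omega)
        (sol_down1 c m n hTN k hkm hkn d (by push_cast at h1; omega) (by push_cast at h2; omega) h)

end J17

end TZ
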