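import Pool.Agent.Helper80.TZ.Defs
import Pool.Agent.Helper80.TZ.J05
import Pool.Agent.Helper80.TZ.J06
import Pool.Agent.Helper80.TZ.J17
set_option autoImplicit false
set_option linter.unusedVariables false
open Finset

namespace TZ

namespace J19

theorem gc (c : ℤ → ℝ) (g h w : ℕ) (hh : 1 ≤ h) (hw : 1 ≤ w)
    (hTN : TNR (toe c) (g+1+h) (g+1+w)) (hL : 0 < sol c (g+1) (-(h:ℤ))) (hU : 0 < sol c (g+1) (w:ℤ))
    (hz : ∀ d : ℤ, -(h:ℤ) < d → d < w → sol c (g+1) d = 0)
    (hg : ∀ d : ℤ, -(h:ℤ) ≤ d → d ≤ w → 0 < sol c g d) : False := by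
  have hdep := J05.slide_first (toe c) (g + h) g (by omega)
    (fun r hr => by
      rw [J17.win_toe]
      exact hz _ (by omega) (by omega))
    (fun r hr => by
      rw [J17.win_toe]
      exact (hg _ (by omega) (by omega)).ne')
  have h4 := J06.gcm (toe c) g h w hh hw hTN hdep
    (by rw [J17.win_toe]; exact hg _ (by omega) (by omega))
    (by rw [J17.win_toe, zero_sub]; exact hL)
    (by rw [J17.win_toe]; exact (hg _ (by omega) (by omega)).ne')
  rw [J17.win_toe, sub_zero] at h4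
  exact hU.ne' h4

theorem sol_interval (c : ℤ → ℝ) (m n : ℕ) (hTN : TNR (toe c) m n) (k : ℕ) (hkm : k < m)
    (hkn : k < n) (x d y : ℤ) (hx : (k:ℤ) - m ≤ x) (hxd : x ≤ d) (hdy : d ≤ y) (hy : y + k ≤ n)
    (hX : 0 < sol c k x) (hY : 0 < sol c k y) : 0 < sol c k d := by
  induction k generalizing x d y with
  | zero =>
    unfold sol
    rw [Matrix.det_isEmpty]
    exact one_pos
  | succ g ih =>
    by_contra hd
    push_cast at hx hy
    obtain ⟨x', ⟨hx1, hx2, hx3⟩, hxmax⟩ := Int.exists_greatest_of_bdd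
      (P := fun z => x ≤ z ∧ z ≤ d ∧ 0 < sol c (g+1) z) ⟨d, fun z hz => hz.2.1⟩
      ⟨x, le_rfl, hxd, hX⟩
    obtain ⟨y', ⟨hy1, hy2, hy3⟩, hymin⟩ := Int.exists_least_of_bdd
      (P := fun z => d ≤ z ∧ z ≤ y ∧ 0 < sol c (g+1) z) ⟨d, fun z hz => hz.1⟩
      ⟨y, hdy, le_rfl, hY⟩
    have hx'd : x' < d := by
      rcases lt_or_eq_of_le hx2 with h | h
      · exact h
      · rw [h] at hx3; exact absurd hx3 hd
    have hdy' : d < y' := by
      rcases lt_or_eq_of_le hy1 with h | h
      · exact h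
      · rw [← h] at hy3; exact absurd hy3 hd
    have hzero : ∀ z : ℤ, x' < z → z < y' → sol c (g+1) z = 0 := by
      intro z hz1 hz2
      have hnn := J17.sol_nonneg c m n hTN (g+1) hkm.le hkn.le z (by push_cast; omega)
        (by push_cast; omega)
      have hnp : ¬ 0 < sol c (g+1) z := by
        intro hpos
        rcases le_total z d with h | h
        · have := hxmax z ⟨by omega, h, hpos⟩
          omega
        · have := hymin z ⟨h, by omega, hpos⟩
          omega
      exact le_antisymm (not_lt.mp hnp) hnn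
    have hgx : 0 < sol c g x' := J17.sol_down c m n hTN (g+1) g (by omega) hkm.le hkn.le x'
      (by push_cast; omega) (by push_cast; omega) hx3
    have hgy : 0 < sol c g y' := J17.sol_down c m n hTN (g+1) g (by omega) hkm.le hkn.le y'
      (by push_cast; omega) (by push_cast; omega) hy3
    have hgall : ∀ z : ℤ, x' ≤ z → z ≤ y' → 0 < sol c g z := fun z hz1 hz2 =>
      ih (by omega) (by omega) x' z y' (by omega) hz1 hz2 (by omega) hgx hgy
    obtain ⟨h, w, hh1, hw1, hhw, hhm, hwn⟩ : ∃ h w : ℕ, 1 ≤ h ∧ 1 ≤ w ∧ (h:ℤ) + w = y' - x' ∧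
        g + 1 + h ≤ m ∧ g + 1 + w ≤ n := by
      rcases le_total (y' - x' - ((n:ℤ) - (g+1))) 1 with hc | hc
      · refine ⟨1, (y' - x' - 1).toNat, le_rfl, by omega, by omega, by omega, by omega⟩
      · refine ⟨(y' - x' - ((n:ℤ) - (g+1))).toNat, n - (g+1), by omega, by omega, by omega,
          by omega, by omega⟩
    obtain ⟨i0, j0, hi0, hj0, hi1, hj1, hij⟩ : ∃ i0 j0 : ℤ, 0 ≤ i0 ∧ 0 ≤ j0 ∧
        i0 + ((g + 1 + h : ℕ) : ℤ) ≤ m ∧ j0 + ((g + 1 + w : ℕ) : ℤ) ≤ n ∧ j0 - i0 = x' + h := by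
      rcases le_total 0 (x' + h) with hc | hc
      · exact ⟨0, x' + h, le_rfl, hc, by push_cast; omega, by push_cast; omega, by omega⟩
      · exact ⟨-(x' + h), 0, by omega, le_rfl, by push_cast; omega, by push_cast; omega, by omega⟩
    have hblock := J17.tnr_block c m n hTN i0 j0 (g+1+h) (g+1+w) hi0 hj0 hi1 hj1
    rw [hij] at hblock
    refine gc (fun z => c (z + (x' + h))) g h w hh1 hw1 hblock ?_ ?_ ?_ ?_
    · rw [J17.sol_shift]
      have : -(h:ℤ) + (x' + h) = x' := by ring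
      rw [this]; exact hx3
    · rw [J17.sol_shift]
      have : (w:ℤ) + (x' + h) = y' := by omega
      rw [this]; exact hy3
    · intro z hz1 hz2
      rw [J17.sol_shift]
      exact hzero _ (by omega) (by omega)
    · intro z hz1 hz2
      rw [J17.sol_shift]
      exact hgall _ (by omega) (by omega)

end J19

end TZ
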