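import Pool.Agent.Helper80.TZ.Defs
import Pool.Agent.Helper80.TZ.J07
import Pool.Agent.Helper80.TZ.J08
import Pool.Agent.Helper80.TZ.J17
import Pool.Agent.Helper80.TZ.J19
set_option autoImplicit false
set_option linter.unusedVariables false
open Finset

namespace TZ

namespace J21

theorem rank_lt (c : ℤ → ℝ) (p q h : ℕ) (hh : 1 ≤ h) (hp : h ≤ p) (hq : h ≤ q)
    (hTN : TNR (toe c) p q)
    (hz : ∀ d : ℤ, (h:ℤ) - p ≤ d → d + h ≤ q → sol c h d = 0) :
    (Matrix.of fun (i : Fin p) (j : Fin q) => toe c (i:ℤ) (j:ℤ)).rank < h := by
  induction h generalizing c p q with
  | zero => omega
  | succ g ih =>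
    rcases Nat.eq_zero_or_pos g with hg | hg
    · subst hg
      have hM : (Matrix.of fun (i : Fin p) (j : Fin q) => toe c (i:ℤ) (j:ℤ)) = 0 := by
        ext i j
        have hi := i.2
        have hj := j.2
        have h1 := hz ((j:ℤ) - (i:ℤ)) (by push_cast; omega) (by push_cast; omega)
        have h2 : sol c (0+1) ((j:ℤ) - (i:ℤ)) = c ((j:ℤ) - (i:ℤ)) := by
          simp [sol]
        rw [h2] at h1
        exact h1
      rw [hM, Matrix.rank_zero]
      norm_num
    · by_cases hall : ∀ d : ℤ, (g:ℤ) - p ≤ d → d + g ≤ q → sol c g d = 0
      · have := ih c p q hg (by omega) (by omega) hTN hall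
        omega
      · push Not at hall
        obtain ⟨d0, hd1, hd2, hd0⟩ := hall
        have hstep : ∀ d : ℤ, (g:ℤ) - p < d → d + g < q →
            sol c g d ^ 2 = sol c g (d-1) * sol c g (d+1) := by
          intro d h1 h2
          obtain ⟨k, rfl⟩ : ∃ k, g = k+1 := ⟨g-1, by omega⟩
          have h3 := J17.sol_dodgson c k d
          have h4 := hz d (by push_cast at *; omega) (by push_cast at *; omega)
          have h5 : sol c (k+2) d = 0 := h4
          rw [h5, zero_mul] at h3
          linarith
        by_cases hint : ∃ d : ℤ, (g:ℤ) - p < d ∧ d + g < q ∧ sol c g d ≠ 0
        · obtain ⟨e, he1, he2, he⟩ := hint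
          have hup : ∀ n : ℕ, e + n + g ≤ q → sol c g (e + n) ≠ 0 := by
            intro n
            induction n with
            | zero =>
              intro _
              simpa using he
            | succ n ihn =>
              intro hn
              push_cast at hn
              have h1 := ihn (by omega)
              have h2 := hstep (e + n) (by omega) (by omega)
              intro h3
              apply h1
              have h4 : e + (n:ℤ) + 1 = e + ((n+1:ℕ):ℤ) := by push_cast; ring
              rw [h4, h3, mul_zero] at h2
              exact (pow_eq_zero_iff two_ne_zero).mp h2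
          have hdn : ∀ n : ℕ, (g:ℤ) - p ≤ e - n → sol c g (e - n) ≠ 0 := by
            intro n
            induction n with
            | zero =>
              intro _
              simpa using he
            | succ n ihn =>
              intro hn
              push_cast at hn
              have h1 := ihn (by omega)
              have h2 := hstep (e - n) (by omega) (by omega)
              intro h3
              apply h1
              have h4 : e - (n:ℤ) - 1 = e - ((n+1:ℕ):ℤ) := by push_cast; ring
              rw [h4, h3, zero_mul] at h2
              exact (pow_eq_zero_iff two_ne_zero).mp h2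
          have hne : ∀ d : ℤ, (g:ℤ) - p ≤ d → d + g ≤ q → sol c g d ≠ 0 := by
            intro d h1 h2
            rcases le_total e d with h | h
            · have h3 : d = e + ((d - e).toNat : ℤ) := by omega
              rw [h3]
              exact hup _ (by omega)
            · have h3 : d = e - ((e - d).toNat : ℤ) := by omega
              rw [h3]
              exact hdn _ (by omega)
          have := J07.rank_le_of_slide (toe c) p q g (by omega) (by omega) (by
            intro r s hr hs
            rw [J17.win_toe]
            exact hz _ (by push_cast; omega) (by push_cast; omega)) (by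
            intro r s hr hs
            rw [J17.win_toe]
            exact hne _ (by omega) (by omega))
          omega
        · push Not at hint
          obtain ⟨p', rfl⟩ : ∃ p', p = p' + 1 := ⟨p - 1, by omega⟩
          by_cases hR : sol c g ((q:ℤ) - g) = 0
          · -- delete the last row
            have hTN' : TNR (toe c) p' q := by
              intro k I J hI hJ h1 h2
              exact hTN k I J hI hJ (fun a => ⟨(h1 a).1, by have := (h1 a).2; push_cast; omega⟩) h2
            have h1 := ih c p' q hg (by omega) (by omega) hTN' (by
              intro d h1 h2
              rcases eq_or_ne (d + g) (q:ℤ) with h3 | h3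
              · have h4 : d = (q:ℤ) - g := by omega
                rw [h4]
                exact hR
              · exact hint d (by push_cast; omega) (by omega))
            have h2 := J08.rank_last_row (toe c) p' q
            omega
          · -- delete the first row
            have hL : sol c g ((g:ℤ) - ((p' + 1 : ℕ) : ℤ)) = 0 := by
              by_contra hL
              have hRp : 0 < sol c g ((q:ℤ) - g) :=
                lt_of_le_of_ne (J17.sol_nonneg c (p'+1) q hTN g (by omega) (by omega) _
                  (by push_cast; omega) (by omega)) (Ne.symm hR)
              have hLp : 0 < sol c g ((g:ℤ) - ((p' + 1 : ℕ) : ℤ)) :=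
                lt_of_le_of_ne (J17.sol_nonneg c (p'+1) q hTN g (by omega) (by omega) _
                  (by push_cast; omega) (by push_cast; omega)) (Ne.symm hL)
              have h3 := J19.sol_interval c (p'+1) q hTN g (by omega) (by omega)
                ((g:ℤ) - ((p' + 1 : ℕ) : ℤ)) ((g:ℤ) - ((p' + 1 : ℕ) : ℤ) + 1) ((q:ℤ) - g)
                (le_refl _) (by omega) (by push_cast; omega) (by omega) hLp hRp
              have h4 := hint ((g:ℤ) - ((p' + 1 : ℕ) : ℤ) + 1) (by omega) (by push_cast; omega)
              linarith
            have hTN' : TNR (toe (fun d => c (d + (0 - 1)))) p' q :=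
              J17.tnr_block c (p'+1) q hTN 1 0 p' q (by norm_num) (le_refl _)
                (by push_cast; omega) (by omega)
            have h1 := ih (fun d => c (d + (0 - 1))) p' q hg (by omega) (by omega) hTN' (by
              intro d h1 h2
              rw [J17.sol_shift]
              rcases eq_or_ne (d + (0 - 1)) ((g:ℤ) - ((p' + 1 : ℕ) : ℤ)) with h3 | h3
              · rw [h3]
                exact hL
              · exact hint _ (by push_cast at h3 ⊢; omega) (by omega))
            have h2 := J08.rank_first_row (toe c) p' q
            have h3 : (Matrix.of fun (i : Fin p') (j : Fin q) => toe c ((i:ℤ) + 1) (j:ℤ)) =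
                (Matrix.of fun (i : Fin p') (j : Fin q) =>
                  toe (fun d => c (d + (0 - 1))) (i:ℤ) (j:ℤ)) := by
              ext i j
              show c ((j:ℤ) - ((i:ℤ) + 1)) = c ((j:ℤ) - (i:ℤ) + (0 - 1))
              congr 1
              ring
            rw [h3] at h2
            omega


end J21

end TZ
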