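import Pool.Agent.Helper80.TZ.Defs
import Pool.Agent.Helper80.TZ.J17
import Pool.Agent.Helper80.TZ.J19
set_option autoImplicit false
set_option linter.unusedVariables false
open Finset

namespace TZ

namespace J22

private theorem j26375_top (c : ℤ → ℝ) (m n : ℕ) (hm : 1 ≤ m) (hmn : m ≤ n) (d : ℤ) (h1 : 0 ≤ d)
    (h2 : d + m ≤ n) : 0 < sol c m d ↔ d + m ∈ QA c m n := by
  have hlev : lev m n (d + m) = m := by
    unfold lev
    have : min (d + (m:ℤ)) (min (m:ℤ) ((m:ℤ) + n - (d + m))) = m := by omega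
    rw [this]; exact Int.toNat_natCast m
  have hoff : d + (m:ℤ) - m = d := by ring
  constructor
  · intro h
    refine ⟨by omega, by omega, ?_⟩
    rw [hlev, hoff]; exact h
  · rintro ⟨-, -, h⟩
    rwa [hlev, hoff] at h

private theorem j26375_lo (c : ℤ → ℝ) (m n : ℕ) (hmn : m ≤ n) (k : ℕ)
    (hk : 1 ≤ k) (hkm : k ≤ m) (d : ℤ) (hd : d = (k:ℤ) - m)
    (h : 0 < sol c k d) : (k : ℤ) ∈ QA c m n := by
  have hlev : lev m n (k:ℤ) = k := by
    unfold lev
    have : min (k:ℤ) (min (m:ℤ) ((m:ℤ) + n - k)) = k := by omega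
    rw [this]; exact Int.toNat_natCast k
  refine ⟨by omega, by omega, ?_⟩
  rw [hlev, ← hd]; exact h

private theorem j26375_hi (c : ℤ → ℝ) (m n : ℕ) (hmn : m ≤ n) (k : ℕ)
    (hk : 1 ≤ k) (hkm : k ≤ m) (d : ℤ) (hd : d = (n:ℤ) - k)
    (h : 0 < sol c k d) : (m : ℤ) + n - k ∈ QA c m n := by
  have hlev : lev m n ((m : ℤ) + n - k) = k := by
    unfold lev
    have : min ((m : ℤ) + n - k) (min (m:ℤ) ((m:ℤ) + n - ((m : ℤ) + n - k))) = k := by omega
    rw [this]; exact Int.toNat_natCast k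
  refine ⟨by omega, by omega, ?_⟩
  have h3 : (m : ℤ) + n - k - m = d := by rw [hd]; ring
  rw [hlev, h3]; exact h

private theorem j26375_up (c : ℤ → ℝ) (m n : ℕ) (hmn : m ≤ n) (hTN : TNR (toe c) m n) (k : ℕ)
    (hk : 1 ≤ k) (hkm : k + 1 ≤ m) (d : ℤ) (h1 : (k:ℤ) + 1 - m ≤ d) (h2 : d + k + 1 ≤ n)
    (h : 0 < sol c k d) (h0 : sol c k (d - 1) = 0 ∨ sol c k (d + 1) = 0) :
    0 < sol c (k + 1) d := by
  obtain ⟨k', rfl⟩ : ∃ k', k = k' + 1 := ⟨k - 1, by omega⟩
  have hd := J17.sol_dodgson c k' d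
  have hz : sol c (k'+1) (d-1) * sol c (k'+1) (d+1) = 0 := by
    rcases h0 with h0 | h0
    · rw [h0, zero_mul]
    · rw [h0, mul_zero]
  rw [hz, sub_zero] at hd
  have hpos : 0 < sol c (k'+2) d * sol c k' d := by rw [hd]; positivity
  have hnn : 0 ≤ sol c (k'+1+1) d :=
    J17.sol_nonneg c m n hTN (k'+1+1) hkm (by omega) d (by push_cast at *; omega)
      (by push_cast at *; omega)
  have hne : sol c (k'+1+1) d ≠ 0 := by
    intro h5
    have h6 : sol c (k'+2) d = 0 := h5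
    rw [h6, zero_mul] at hpos
    exact lt_irrefl _ hpos
  exact lt_of_le_of_ne hnn (Ne.symm hne)

private theorem j26375_left (c : ℤ → ℝ) (m n : ℕ) (hmn : m ≤ n) (hTN : TNR (toe c) m n) (r : ℕ) :
    ∀ k : ℕ, 1 ≤ k → k ≤ m → m = k + r → ∀ (j : ℕ) (d : ℤ), d = (k:ℤ) - m + j → d + k ≤ n →
    0 < sol c k d → ∃ q ∈ QA c m n, (k:ℤ) ≤ q ∧ q ≤ d + m := by
  induction r with
  | zero =>
    intro k hk hkm hr j d hd h2 h
    have hkm' : k = m := by omega
    subst hkm'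
    exact ⟨d + k, (j26375_top c k n hk hmn d (by omega) h2).mp h, by omega, le_rfl⟩
  | succ r ih =>
    intro k hk hkm hr j
    induction j with
    | zero =>
      intro d hd h2 h
      exact ⟨k, j26375_lo c m n hmn k hk hkm d (by rw [hd]; simp) h, le_rfl, by
        rw [hd]; push_cast; omega⟩
    | succ j ihj =>
      intro d hd h2 h
      push_cast at hd
      by_cases hp : 0 < sol c k (d - 1)
      · obtain ⟨q, hq, hq1, hq2⟩ := ihj (d - 1) (by omega) (by omega) hp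
        exact ⟨q, hq, hq1, by omega⟩
      · have hz : sol c k (d - 1) = 0 :=
          le_antisymm (not_lt.mp hp)
            (J17.sol_nonneg c m n hTN k hkm (by omega) (d - 1) (by omega) (by omega))
        by_cases he : d = (n:ℤ) - k
        · exact ⟨(m:ℤ) + n - k, j26375_hi c m n hmn k hk hkm d he h, by omega, by omega⟩
        · have h5 := j26375_up c m n hmn hTN k hk (by omega) d (by omega) (by omega) h (Or.inl hz)
          obtain ⟨q, hq, hq1, hq2⟩ := ih (k + 1) (by omega) (by omega) (by omega) j d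
            (by push_cast; omega) (by push_cast; omega) h5
          exact ⟨q, hq, by push_cast at hq1; omega, hq2⟩

private theorem j26375_right (c : ℤ → ℝ) (m n : ℕ) (hmn : m ≤ n) (hTN : TNR (toe c) m n) (r : ℕ) :
    ∀ k : ℕ, 1 ≤ k → k ≤ m → m = k + r → ∀ (j : ℕ) (d : ℤ), d = (n:ℤ) - k - j → (k:ℤ) - m ≤ d →
    0 < sol c k d → ∃ q ∈ QA c m n, d + m ≤ q ∧ q ≤ (m:ℤ) + n - k := by
  induction r with
  | zero =>
    intro k hk hkm hr j d hd h2 h
    have hkm' : k = m := by omega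
    subst hkm'
    exact ⟨d + k, (j26375_top c k n hk hmn d (by omega) (by omega)).mp h, le_rfl, by omega⟩
  | succ r ih =>
    intro k hk hkm hr j
    induction j with
    | zero =>
      intro d hd h2 h
      exact ⟨(m:ℤ) + n - k, j26375_hi c m n hmn k hk hkm d (by rw [hd]; simp) h, by
        rw [hd]; push_cast; omega, le_rfl⟩
    | succ j ihj =>
      intro d hd h2 h
      push_cast at hd
      by_cases hp : 0 < sol c k (d + 1)
      · obtain ⟨q, hq, hq1, hq2⟩ := ihj (d + 1) (by omega) (by omega) hp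
        exact ⟨q, hq, by omega, hq2⟩
      · have hz : sol c k (d + 1) = 0 :=
          le_antisymm (not_lt.mp hp)
            (J17.sol_nonneg c m n hTN k hkm (by omega) (d + 1) (by omega) (by omega))
        by_cases he : d = (k:ℤ) - m
        · exact ⟨k, j26375_lo c m n hmn k hk hkm d he h, by omega, by omega⟩
        · have h5 := j26375_up c m n hmn hTN k hk (by omega) d (by omega) (by omega) h (Or.inr hz)
          obtain ⟨q, hq, hq1, hq2⟩ := ih (k + 1) (by omega) (by omega) (by omega) j d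
            (by push_cast; omega) (by push_cast; omega) h5
          exact ⟨q, hq, hq1, by push_cast at hq2; omega⟩

private theorem j26375_low (c : ℤ → ℝ) (m n : ℕ) (hmn : m ≤ n) (hTN : TNR (toe c) m n) (k : ℕ)
    (hk : 1 ≤ k) (hkm : k < m) (q : ℤ) (hq : q ∈ QA c m n) (h1 : (k:ℤ) ≤ q)
    (h2 : q ≤ (m:ℤ) + n - k) : 0 < sol c k (q - m) := by
  obtain ⟨a1, a2, a3⟩ := hq
  have hlev : (lev m n q : ℤ) = min q (min (m:ℤ) ((m:ℤ) + n - q)) := by
    unfold lev
    rw [Int.toNat_of_nonneg (by omega)]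
  exact J17.sol_down c m n hTN (lev m n q) k (by omega) (by omega) (by omega) (q - m) (by omega)
    (by omega) a3

theorem supp_left (c : ℤ → ℝ) (m n : ℕ) (hmn : m ≤ n) (hTN : TNR (toe c) m n) (k : ℕ)
    (hk : 1 ≤ k) (hkm : k ≤ m) (d : ℤ) (h1 : (k:ℤ) - m ≤ d) (h2 : d + k ≤ n)
    (h : 0 < sol c k d) : ∃ q ∈ QA c m n, (k:ℤ) ≤ q ∧ q ≤ d + m := by
  exact j26375_left c m n hmn hTN (m - k) k hk hkm (by omega) (d - ((k:ℤ) - m)).toNat d
    (by omega) h2 h

theorem supp_right (c : ℤ → ℝ) (m n : ℕ) (hmn : m ≤ n) (hTN : TNR (toe c) m n) (k : ℕ)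
    (hk : 1 ≤ k) (hkm : k ≤ m) (d : ℤ) (h1 : (k:ℤ) - m ≤ d) (h2 : d + k ≤ n)
    (h : 0 < sol c k d) : ∃ q ∈ QA c m n, d + m ≤ q ∧ q ≤ (m:ℤ) + n - k := by
  exact j26375_right c m n hmn hTN (m - k) k hk hkm (by omega) ((n:ℤ) - k - d).toNat d
    (by omega) h1 h

theorem supp_top (c : ℤ → ℝ) (m n : ℕ) (hm : 1 ≤ m) (hmn : m ≤ n) (d : ℤ) (h1 : 0 ≤ d)
    (h2 : d + m ≤ n) : 0 < sol c m d ↔ d + m ∈ QA c m n := by
  exact j26375_top c m n hm hmn d h1 h2

theorem supp_pos (c : ℤ → ℝ) (m n : ℕ) (hmn : m ≤ n) (hTN : TNR (toe c) m n) (k : ℕ)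
    (hk : 1 ≤ k) (hkm : k < m) (d : ℤ) (h1 : (k:ℤ) - m ≤ d) (h2 : d + k ≤ n)
    (hl : ∃ q ∈ QA c m n, (k:ℤ) ≤ q ∧ q ≤ d + m)
    (hr : ∃ q ∈ QA c m n, d + m ≤ q ∧ q ≤ (m:ℤ) + n - k) : 0 < sol c k d := by
  obtain ⟨q1, hq1, a1, a2⟩ := hl
  obtain ⟨q2, hq2, b1, b2⟩ := hr
  have s1 := j26375_low c m n hmn hTN k hk hkm q1 hq1 a1 (by omega)
  have s2 := j26375_low c m n hmn hTN k hk hkm q2 hq2 (by omega) b2
  exact J19.sol_interval c m n hTN k hkm (by omega) (q1 - m) d (q2 - m) (by omega) (by omega)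
    (by omega) (by omega) s1 s2

end J22

end TZ
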