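import Pool.Agent.Helper80.TZ.Defs
import Pool.Agent.Helper80.TZ.J12
import Pool.Agent.Helper80.TZ.J14
import Pool.Agent.Helper80.TZ.J15
import Pool.Agent.Helper80.TZ.J16
import Pool.Agent.Helper80.TZ.J22
set_option autoImplicit false
set_option linter.unusedVariables false
open Finset

namespace TZ

namespace J23

theorem tab_nonneg (c : ℤ → ℝ) (m n : ℕ) (hTN : TNR (toe c) m n) (k : ℕ)
    (α β : Fin k → ℤ) (hR : Rng m n α β) : 0 ≤ tab c α β := by
  obtain ⟨hα, hβ, hα2, hβ2⟩ := hR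
  have h1 := hTN k (fun a => β a + (a : ℤ)) (fun b => α b + (b : ℤ))
    (by
      intro a b hab
      have h2 := hβ hab.le
      have h3 : ((a : ℕ) : ℤ) < ((b : ℕ) : ℤ) := by exact_mod_cast hab
      show β a + (a : ℤ) < β b + (b : ℤ)
      linarith)
    (by
      intro a b hab
      have h2 := hα hab.le
      have h3 : ((a : ℕ) : ℤ) < ((b : ℕ) : ℤ) := by exact_mod_cast hab
      show α a + (a : ℤ) < α b + (b : ℤ)
      linarith)
    (by
      intro a
      have h2 := hβ2 a
      have h3 : ((a : ℕ) : ℤ) < (k : ℤ) := by exact_mod_cast a.2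
      have h4 : (0 : ℤ) ≤ ((a : ℕ) : ℤ) := Int.natCast_nonneg _
      constructor
      · show 0 ≤ β a + (a : ℤ)
        linarith [h2.1]
      · show β a + (a : ℤ) < m
        linarith [h2.2])
    (by
      intro a
      have h2 := hα2 a
      have h3 : ((a : ℕ) : ℤ) < (k : ℤ) := by exact_mod_cast a.2
      have h4 : (0 : ℤ) ≤ ((a : ℕ) : ℤ) := Int.natCast_nonneg _
      constructor
      · show 0 ≤ α a + (a : ℤ)
        linarith [h2.1]
      · show α a + (a : ℤ) < n
        linarith [h2.2])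
  exact h1

theorem sol_one (c : ℤ → ℝ) (d : ℤ) : sol c 1 d = c d := by
  unfold sol
  rw [Matrix.det_fin_one]
  simp

theorem entry_nonneg (c : ℤ → ℝ) (m n : ℕ) (hTN : TNR (toe c) m n) (i j : ℤ)
    (hi : 0 ≤ i ∧ i < m) (hj : 0 ≤ j ∧ j < n) : 0 ≤ c (j - i) := by
  have h1 := hTN 1 (fun _ => i) (fun _ => j) (Subsingleton.strictMono _)
    (Subsingleton.strictMono _) (fun _ => hi) (fun _ => hj)
  unfold mn at h1
  rw [Matrix.det_fin_one] at h1
  exact h1

theorem cond_cast {m n k : ℕ} (hk : k + 1 < m) (Q : Set ℤ) (α β : Fin (k + 1 + 1) → ℤ)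
    (hC : Cond m n Q α β) : Cond m n Q (fun b : Fin (k + 1) => α b.castSucc)
      (fun a : Fin (k + 1) => β a.castSucc) := by
  obtain ⟨h1, h2, _⟩ := hC
  refine ⟨?_, ?_, ?_⟩
  · intro a b hab
    have h3 := h1 a.castSucc b.castSucc (by simpa using hab)
    simpa using h3
  · intro a b hab
    have h3 := h2 a.castSucc b.castSucc (by simpa using hab)
    simpa using h3
  · intro h
    omega

theorem cond_succ {m n k : ℕ} (hk : k + 1 < m) (Q : Set ℤ) (α β : Fin (k + 1 + 1) → ℤ)
    (hC : Cond m n Q α β) : Cond m n Q (fun b : Fin (k + 1) => α b.succ)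
      (fun a : Fin (k + 1) => β a.succ) := by
  obtain ⟨h1, h2, _⟩ := hC
  refine ⟨?_, ?_, ?_⟩
  · intro a b hab
    obtain ⟨q, hq, h3, h4⟩ := h1 a.succ b.succ (Fin.succ_le_succ_iff.2 hab)
    refine ⟨q, hq, ?_, h4⟩
    simp only [Fin.val_succ] at h3
    push_cast at h3
    linarith
  · intro a b hab
    obtain ⟨q, hq, h3, h4⟩ := h2 a.succ b.succ (Fin.succ_le_succ_iff.2 hab)
    refine ⟨q, hq, h3, ?_⟩
    simp only [Fin.val_succ] at h4
    push_cast at h4
    linarith
  · intro h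
    omega

theorem rng_cast {m n k : ℕ} (α β : Fin (k + 1 + 1) → ℤ) (hR : Rng m n α β) :
    Rng m n (fun b : Fin (k + 1) => α b.castSucc) (fun a : Fin (k + 1) => β a.castSucc) := by
  obtain ⟨hα, hβ, hα2, hβ2⟩ := hR
  refine ⟨fun a b hab => hα (by simpa using hab), fun a b hab => hβ (by simpa using hab), ?_, ?_⟩
  · intro b
    have h := hα2 b.castSucc
    refine ⟨h.1, ?_⟩
    have h2 := h.2
    push_cast at h2 ⊢
    linarith
  · intro b
    have h := hβ2 b.castSucc
    refine ⟨h.1, ?_⟩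
    have h2 := h.2
    push_cast at h2 ⊢
    linarith

theorem rng_succ {m n k : ℕ} (α β : Fin (k + 1 + 1) → ℤ) (hR : Rng m n α β) :
    Rng m n (fun b : Fin (k + 1) => α b.succ) (fun a : Fin (k + 1) => β a.succ) := by
  obtain ⟨hα, hβ, hα2, hβ2⟩ := hR
  refine ⟨fun a b hab => hα (Fin.succ_le_succ_iff.2 hab),
    fun a b hab => hβ (Fin.succ_le_succ_iff.2 hab), ?_, ?_⟩
  · intro b
    have h := hα2 b.succ
    refine ⟨h.1, ?_⟩
    have h2 := h.2
    push_cast at h2 ⊢
    linarith
  · intro b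
    have h := hβ2 b.succ
    refine ⟨h.1, ?_⟩
    have h2 := h.2
    push_cast at h2 ⊢
    linarith

theorem rng_mov_left {m n k : ℕ} (α β α' : Fin (k + 1) → ℤ) (hR : Rng m n α β)
    (hM : Mov α α') : Rng m n α' β := by
  obtain ⟨hα, hβ, hα2, hβ2⟩ := hR
  obtain ⟨h1, h2, _, _⟩ := J12.mov_props α α' hα hM
  refine ⟨h1, hβ, ?_, hβ2⟩
  intro b
  have h3 := h2 b
  have h4 := hα2 0
  have h5 := hα2 (Fin.last k)
  exact ⟨h4.1.trans h3.1, by linarith [h5.2, h3.2]⟩

theorem rng_mov_right {m n k : ℕ} (α β β' : Fin (k + 1) → ℤ) (hR : Rng m n α β)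
    (hM : Mov β β') : Rng m n α β' := by
  obtain ⟨hα, hβ, hα2, hβ2⟩ := hR
  obtain ⟨h1, h2, _, _⟩ := J12.mov_props β β' hβ hM
  refine ⟨hα, h1, hα2, ?_⟩
  intro b
  have h3 := h2 b
  have h4 := hβ2 0
  have h5 := hβ2 (Fin.last k)
  exact ⟨h4.1.trans h3.1, by linarith [h5.2, h3.2]⟩

theorem mu_nonneg' {k : ℕ} (α : Fin (k + 1) → ℤ) (hα : Monotone α) : 0 ≤ mu α := by
  unfold mu
  apply Finset.sum_nonneg
  intro b _
  have := hα (Fin.zero_le b)
  linarith

theorem tab_const (c : ℤ → ℝ) {k : ℕ} (α β : Fin (k + 1) → ℤ) (hα : ∀ a, α a = α 0)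
    (hβ : ∀ a, β a = β 0) : tab c α β = sol c (k + 1) (α 0 - β 0) := by
  unfold tab sol
  congr 1
  ext a b
  simp only [Matrix.of_apply]
  rw [hα b, hβ a]
  congr 1
  ring

/-- the shifted diagonal case -/
theorem pos_S3 (c : ℤ → ℝ) (m n : ℕ) (hm : 1 ≤ m) (hmn : m ≤ n)
    (hTN : TNR (toe c) m n) (k : ℕ) (hkm : k + 1 < m) (α β : Fin (k+1) → ℤ) (hR : Rng m n α β)
    (hC : Cond m n (QA c m n) α β) (d : ℤ) (hd : ∀ a, α a = β a + d)
    (hQ : ∀ q ∈ QA c m n, q = (m : ℤ) + d) : 0 < tab c α β := by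
  obtain ⟨hα, hβ, hα2, hβ2⟩ := hR
  obtain ⟨hC1, hC2, _⟩ := hC
  have hcd : 0 < c d := by
    have h0 := hα2 0
    have h0' := hβ2 0
    have h0'' := hd 0
    push_cast at h0 h0'
    have h1 := J22.supp_pos c m n hmn hTN 1 le_rfl (by omega) d
      (by push_cast; omega) (by push_cast; omega)
      (by
        obtain ⟨q, hq, h3, h4⟩ := hC1 0 0 le_rfl
        refine ⟨q, hq, ?_, ?_⟩
        · push_cast at h3 ⊢
          linarith
        · linarith)
      (by
        obtain ⟨q, hq, h3, h4⟩ := hC2 0 0 le_rfl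
        refine ⟨q, hq, ?_, ?_⟩
        · linarith
        · push_cast at h4 ⊢
          linarith)
    rwa [sol_one] at h1
  have hoff : ∀ a b : Fin (k + 1), a ≠ b → c ((α b + (b:ℤ)) - (β a + (a:ℤ))) = 0 := by
    intro a b hab
    have ha := hβ2 a
    have hb := hα2 b
    have ha3 : ((a : ℕ) : ℤ) < (k : ℤ) + 1 := by exact_mod_cast a.2
    have hb3 : ((b : ℕ) : ℤ) < (k : ℤ) + 1 := by exact_mod_cast b.2
    have ha4 : (0 : ℤ) ≤ ((a : ℕ) : ℤ) := Int.natCast_nonneg _
    have hb4 : (0 : ℤ) ≤ ((b : ℕ) : ℤ) := Int.natCast_nonneg _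
    push_cast at ha hb
    have hnn := entry_nonneg c m n hTN (β a + (a:ℤ)) (α b + (b:ℤ))
      ⟨by linarith [ha.1], by linarith [ha.2]⟩ ⟨by linarith [hb.1], by linarith [hb.2]⟩
    have hne : (α b + (b:ℤ)) - (β a + (a:ℤ)) ≠ d := by
      rw [hd b]
      rcases lt_or_gt_of_ne hab with h | h
      · have h1 := hβ h.le
        have h2 : ((a : ℕ) : ℤ) < ((b : ℕ) : ℤ) := by exact_mod_cast h
        intro h3
        linarith
      · have h1 := hβ h.le
        have h2 : ((b : ℕ) : ℤ) < ((a : ℕ) : ℤ) := by exact_mod_cast h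
        intro h3
        linarith
    by_contra hne0
    have hpos : 0 < sol c 1 ((α b + (b:ℤ)) - (β a + (a:ℤ))) := by
      rw [sol_one]
      exact lt_of_le_of_ne hnn (Ne.symm hne0)
    obtain ⟨q, hq, _, h4⟩ := J22.supp_left c m n hmn hTN 1 le_rfl hm _
      (by push_cast; linarith [ha.2, hb.1]) (by push_cast; linarith [ha.1, hb.2]) hpos
    obtain ⟨q', hq', h3', _⟩ := J22.supp_right c m n hmn hTN 1 le_rfl hm _
      (by push_cast; linarith [ha.2, hb.1]) (by push_cast; linarith [ha.1, hb.2]) hpos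
    rw [hQ q hq] at h4
    rw [hQ q' hq'] at h3'
    apply hne
    linarith
  have htab : tab c α β = c d ^ (k + 1) := by
    have h1 : (Matrix.of fun a b : Fin (k + 1) => c ((α b + (b:ℤ)) - (β a + (a:ℤ)))) =
        Matrix.diagonal (fun _ : Fin (k + 1) => c d) := by
      ext a b
      rw [Matrix.of_apply]
      by_cases hab : a = b
      · subst hab
        rw [Matrix.diagonal_apply_eq, hd a]
        congr 1
        ring
      · rw [Matrix.diagonal_apply_ne _ hab]
        exact hoff a b hab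
    unfold tab
    rw [h1, Matrix.det_diagonal, Finset.prod_const, Finset.card_univ, Fintype.card_fin]
  rw [htab]
  positivity

theorem toNat_lt1 {a b a' : ℤ} {N : ℕ} (h : (a + b).toNat = N) (h1 : 0 ≤ a') (h2 : a' < a)
    (h3 : 0 ≤ b) : (a' + b).toNat < N := by
  omega

theorem toNat_lt2 {a b b' : ℤ} {N : ℕ} (h : (a + b).toNat = N) (h1 : 0 ≤ b') (h2 : b' < b)
    (h3 : 0 ≤ a) : (a + b').toNat < N := by
  omega

theorem sol_congr (c : ℤ → ℝ) {k m : ℕ} (h : k = m) (d : ℤ) : sol c k d = sol c m d := by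
  rw [h]

/-- one step of the inner induction -/
theorem pos_step (c : ℤ → ℝ) (m n : ℕ) (hm : 1 ≤ m) (hmn : m ≤ n)
    (hTN : TNR (toe c) m n) (k : ℕ)
    (hpre : ∀ α β : Fin (k+1) → ℤ, Rng m n α β → Cond m n (QA c m n) α β →
      0 < tab c (fun b : Fin k => α b.castSucc) (fun a : Fin k => β a.castSucc))
    (hsuf : ∀ α β : Fin (k+1) → ℤ, Rng m n α β → Cond m n (QA c m n) α β →
      0 < tab c (fun b : Fin k => α b.succ) (fun a : Fin k => β a.succ)) (N : ℕ) :
    ∀ (α β : Fin (k+1) → ℤ), Rng m n α β → Cond m n (QA c m n) α β → (mu α + mu β).toNat = N →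
      0 < tab c α β := by
  induction N using Nat.strong_induction_on with
  | _ N ih =>
    intro α β hR hC hN
    have hnn := tab_nonneg c m n hTN (k + 1) α β hR
    by_contra hnot
    have h0 : tab c α β = 0 := le_antisymm (not_lt.1 hnot) hnn
    have hpre' := hpre α β hR hC
    have hsuf' := hsuf α β hR hC
    have hQ : ∀ q ∈ QA c m n, 1 ≤ q ∧ q + 1 ≤ (m:ℤ) + n := fun q hq => ⟨hq.1, hq.2.1⟩
    obtain ⟨hα, hβ, hα2, hβ2⟩ := id hR
    obtain ⟨hC1, hC2, hC3⟩ := id hC
    have h00 := hα2 0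
    have h00' := hβ2 0
    push_cast at h00 h00'
    have hkm : k + 1 ≤ m := by omega
    have hmua := mu_nonneg' α hα
    have hmub := mu_nonneg' β hβ
    have hleft : ∀ α', Mov α α' → Cond m n (QA c m n) α' β → False := by
      intro α' hM hC'
      have hR' := rng_mov_left α β α' hR hM
      obtain ⟨_, _, h3, h4⟩ := J12.mov_props α α' hα hM
      have h5 := J16.exc_col c m n hTN α β hR α' hM h0 hpre' hsuf'
      have h6 := ih (mu α' + mu β).toNat (toNat_lt1 hN h3 h4 hmub) α' β hR' hC' rfl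
      rw [h5] at h6
      exact lt_irrefl _ h6
    have hright : ∀ β', Mov β β' → Cond m n (QA c m n) α β' → False := by
      intro β' hM hC'
      have hR' := rng_mov_right α β β' hR hM
      obtain ⟨_, _, h3, h4⟩ := J12.mov_props β β' hβ hM
      have h5 := J16.exc_row c m n hTN α β hR β' hM h0 hpre' hsuf'
      have h6 := ih (mu α + mu β').toNat (toNat_lt2 hN h3 h4 hmua) α β' hR' hC' rfl
      rw [h5] at h6
      exact lt_irrefl _ h6
    rcases Nat.lt_or_eq_of_le hkm with hlt | heq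
    · rcases J14.step hlt hmn (QA c m n) hQ α β hR hC with ⟨hca, hcb⟩ | ⟨α', hM, hC'⟩ |
        ⟨β', hM, hC'⟩ | ⟨d, hd, hQd⟩
      · apply hnot
        rw [tab_const c α β hca hcb]
        apply J22.supp_pos c m n hmn hTN (k + 1) (by omega) hlt
        · push_cast
          omega
        · push_cast
          omega
        · obtain ⟨q, hq, h3, h4⟩ := hC1 0 (Fin.last k) (Fin.zero_le _)
          rw [hca (Fin.last k)] at h4
          refine ⟨q, hq, ?_, ?_⟩
          · simp only [Fin.val_last, Fin.val_zero] at h3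
            push_cast at h3 ⊢
            linarith
          · linarith
        · obtain ⟨q, hq, h3, h4⟩ := hC2 (Fin.last k) 0 (Fin.zero_le _)
          rw [hcb (Fin.last k)] at h3
          refine ⟨q, hq, ?_, ?_⟩
          · linarith
          · simp only [Fin.val_last, Fin.val_zero] at h4
            push_cast at h4 ⊢
            linarith
      · exact hleft α' hM hC'
      · exact hright β' hM hC'
      · exact hnot (pos_S3 c m n hm hmn hTN k hlt α β hR hC d hd hQd)
    · obtain ⟨hb0, hca | ⟨α', hM, hC'⟩⟩ := J15.stepm heq hmn (QA c m n) hQ α β hR hC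
      · apply hnot
        rw [tab_const c α β hca (fun a => by rw [hb0 a, hb0 0]), hb0 0, sub_zero]
        obtain ⟨q, hq, b, b', h3, h4⟩ := hC3 heq
        rw [hca b] at h3
        rw [hca b'] at h4
        have hq2 : q = α 0 + (m : ℤ) := by linarith
        rw [hq2] at hq
        rw [sol_congr c heq]
        have heq' : (m : ℤ) = (k : ℤ) + 1 := by rw [← heq]; push_cast; ring
        exact (J22.supp_top c m n hm hmn (α 0) h00.1 (by linarith [h00.2])).2 hq
      · exact hleft α' hM hC'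

theorem pos_of_cond (c : ℤ → ℝ) (m n : ℕ) (hm : 1 ≤ m) (hmn : m ≤ n)
    (hTN : TNR (toe c) m n) (k : ℕ) (α β : Fin (k+1) → ℤ) (hR : Rng m n α β)
    (hC : Cond m n (QA c m n) α β) : 0 < tab c α β := by
  induction k with
  | zero =>
    refine pos_step c m n hm hmn hTN 0 ?_ ?_ _ α β hR hC rfl
    · intro α β _ _
      unfold tab
      rw [Matrix.det_isEmpty]
      exact one_pos
    · intro α β _ _
      unfold tab
      rw [Matrix.det_isEmpty]
      exact one_pos
  | succ k ih =>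
    refine pos_step c m n hm hmn hTN (k + 1) ?_ ?_ _ α β hR hC rfl
    · intro α β hR hC
      have h00' := hR.2.2.2 0
      push_cast at h00'
      exact ih _ _ (rng_cast α β hR) (cond_cast (by omega) _ α β hC)
    · intro α β hR hC
      have h00' := hR.2.2.2 0
      push_cast at h00'
      exact ih _ _ (rng_succ α β hR) (cond_succ (by omega) _ α β hC)

end J23

end TZ
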