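import Pool.Agent.Helper80.TZ.Defs
import Pool.Agent.Helper80.TZ.J08
import Pool.Agent.Helper80.TZ.J17
import Pool.Agent.Helper80.TZ.J21
import Pool.Agent.Helper80.TZ.J22
set_option autoImplicit false
set_option linter.unusedVariables false
open Finset

namespace TZ

namespace J24

theorem core (c : ℤ → ℝ) (m n : ℕ) (hTN : TNR (toe c) m n) (k : ℕ) (α β : Fin (k+1) → ℤ)
    (i j : ℤ) (p q h : ℕ) (R C : Finset (Fin (k+1)))
    (hi : 0 ≤ i) (hj : 0 ≤ j) (hip : i + p ≤ m) (hjq : j + q ≤ n)
    (hh : 1 ≤ h) (hp : h ≤ p) (hq : h ≤ q)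
    (hRr : ∀ x ∈ R, i ≤ β x + (x:ℤ) ∧ β x + (x:ℤ) < i + p)
    (hCr : ∀ y ∈ C, j ≤ α y + (y:ℤ) ∧ α y + (y:ℤ) < j + q)
    (hz : ∀ x : ℤ, (h:ℤ) - p + (j - i) ≤ x → x + h ≤ q + (j - i) → sol c h x = 0)
    (hcard : h + (k+1) ≤ R.card + C.card) : tab c α β = 0 := by
  have hT := J17.tnr_block c m n hTN i j p q hi hj hip hjq
  have hrk := J21.rank_lt (fun d => c (d + (j - i))) p q h hh hp hq hT (by
    intro d h1 h2
    rw [J17.sol_shift]
    exact hz _ (by linarith) (by linarith))
  refine J08.det_zero_of_rank (k := k+1) _ (toe (fun d => c (d + (j - i)))) p q R C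
    (fun x => (β x + (x:ℤ) - i).toNat) (fun y => (α y + (y:ℤ) - j).toNat) ?_ ?_ ?_ ?_
  · intro x hx
    have := hRr x hx
    show (β x + (x:ℤ) - i).toNat < p
    omega
  · intro y hy
    have := hCr y hy
    show (α y + (y:ℤ) - j).toNat < q
    omega
  · intro x hx y hy
    have h1 := hRr x hx
    have h2 := hCr y hy
    have e1 : (((β x + (x:ℤ) - i).toNat : ℕ) : ℤ) = β x + (x:ℤ) - i := Int.toNat_of_nonneg (by linarith)
    have e2 : (((α y + (y:ℤ) - j).toNat : ℕ) : ℤ) = α y + (y:ℤ) - j := Int.toNat_of_nonneg (by linarith)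
    show c ((α y + (y:ℤ)) - (β x + (x:ℤ))) =
      c ((((α y + (y:ℤ) - j).toNat : ℕ) : ℤ) - (((β x + (x:ℤ) - i).toNat : ℕ) : ℤ) + (j - i))
    rw [e1, e2]
    congr 1
    ring
  · omega

theorem card_ge' {k : ℕ} (a : Fin (k+1)) :
    (univ.filter (fun x : Fin (k+1) => a ≤ x)).card = k + 1 - (a:ℕ) := by
  have : (univ.filter (fun x : Fin (k+1) => a ≤ x)) = Finset.Ici a := by
    ext x; simp
  rw [this, Fin.card_Ici]

theorem card_le' {k : ℕ} (a : Fin (k+1)) :
    (univ.filter (fun x : Fin (k+1) => x ≤ a)).card = (a:ℕ) + 1 := by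
  have : (univ.filter (fun x : Fin (k+1) => x ≤ a)) = Finset.Iic a := by
    ext x; simp
  rw [this, Fin.card_Iic]

theorem cond_of_pos (c : ℤ → ℝ) (m n : ℕ) (hm : 1 ≤ m) (hmn : m ≤ n)
    (hTN : TNR (toe c) m n) (k : ℕ) (α β : Fin (k+1) → ℤ) (hR : Rng m n α β)
    (hpos : 0 < tab c α β) : Cond m n (QA c m n) α β := by
  obtain ⟨hα, hβ, hαr, hβr⟩ := hR
  have hαs : ∀ x y : Fin (k+1), x ≤ y → α x + (x:ℤ) ≤ α y + (y:ℤ) := by
    intro x y hxy
    have h1 := hα hxy
    have h2 : (x:ℕ) ≤ (y:ℕ) := hxy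
    omega
  have hβs : ∀ x y : Fin (k+1), x ≤ y → β x + (x:ℤ) ≤ β y + (y:ℤ) := by
    intro x y hxy
    have h1 := hβ hxy
    have h2 : (x:ℕ) ≤ (y:ℕ) := hxy
    omega
  refine ⟨?_, ?_, ?_⟩
  · intro a b hab
    by_contra hcon
    push Not at hcon
    have hab' : (a:ℕ) ≤ (b:ℕ) := hab
    have ha := a.2
    have hb := b.2
    have h1 := hβr a
    have h2 := hαr b
    push_cast at h1 h2
    have hzero : tab c α β = 0 := by
      refine core c m n hTN k α β (β a + (a:ℤ)) 0 ((m:ℤ) - (β a + (a:ℤ))).toNat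
        (α b + (b:ℤ) + 1).toNat ((b:ℕ) - (a:ℕ) + 1)
        (univ.filter (fun x => a ≤ x)) (univ.filter (fun x => x ≤ b))
        (by omega) le_rfl (by omega) (by omega) (by omega) (by omega) (by omega) ?_ ?_ ?_ ?_
      · intro x hx
        rw [Finset.mem_filter] at hx
        have h3 := hβs a x hx.2
        have h4 := hβr x
        have h5 := x.2
        push_cast at h4
        omega
      · intro y hy
        rw [Finset.mem_filter] at hy
        have h3 := hαs y b hy.2
        have h4 := hαr y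
        omega
      · intro x hx1 hx2
        have e1 : ((((m:ℤ) - (β a + (a:ℤ))).toNat : ℕ) : ℤ) = (m:ℤ) - (β a + (a:ℤ)) :=
          Int.toNat_of_nonneg (by omega)
        have e2 : (((α b + (b:ℤ) + 1).toNat : ℕ) : ℤ) = α b + (b:ℤ) + 1 :=
          Int.toNat_of_nonneg (by omega)
        have e3 : (((b:ℕ) - (a:ℕ) + 1 : ℕ) : ℤ) = (b:ℤ) - (a:ℤ) + 1 := by omega
        rw [e1] at hx1
        rw [e2] at hx2
        have hnn := J17.sol_nonneg c m n hTN ((b:ℕ) - (a:ℕ) + 1) (by omega) (by omega) x
          (by omega) (by omega)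
        rcases hnn.lt_or_eq with hlt | heq
        · obtain ⟨q, hq, hq1, hq2⟩ := J22.supp_left c m n hmn hTN ((b:ℕ) - (a:ℕ) + 1) (by omega)
            (by omega) x (by omega) (by omega) hlt
          have := hcon q hq (by omega)
          omega
        · exact heq.symm
      · rw [card_ge', card_le']
        omega
    exact absurd hzero hpos.ne'
  · intro a b hab
    by_contra hcon
    push Not at hcon
    have hab' : (b:ℕ) ≤ (a:ℕ) := hab
    have ha := a.2
    have hb := b.2
    have h1 := hβr a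
    have h2 := hαr b
    push_cast at h1 h2
    have hzero : tab c α β = 0 := by
      refine core c m n hTN k α β 0 (α b + (b:ℤ)) (β a + (a:ℤ) + 1).toNat
        ((n:ℤ) - (α b + (b:ℤ))).toNat ((a:ℕ) - (b:ℕ) + 1)
        (univ.filter (fun x => x ≤ a)) (univ.filter (fun x => b ≤ x))
        le_rfl (by omega) (by omega) (by omega) (by omega) (by omega) (by omega) ?_ ?_ ?_ ?_
      · intro x hx
        rw [Finset.mem_filter] at hx
        have h3 := hβs x a hx.2
        have h4 := hβr x
        have h5 := x.2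
        push_cast at h4
        omega
      · intro y hy
        rw [Finset.mem_filter] at hy
        have h3 := hαs b y hy.2
        have h4 := hαr y
        have h5 := y.2
        push_cast at h4
        omega
      · intro x hx1 hx2
        have e1 : ((((n:ℤ) - (α b + (b:ℤ))).toNat : ℕ) : ℤ) = (n:ℤ) - (α b + (b:ℤ)) :=
          Int.toNat_of_nonneg (by omega)
        have e2 : (((β a + (a:ℤ) + 1).toNat : ℕ) : ℤ) = β a + (a:ℤ) + 1 :=
          Int.toNat_of_nonneg (by omega)
        have e3 : (((a:ℕ) - (b:ℕ) + 1 : ℕ) : ℤ) = (a:ℤ) - (b:ℤ) + 1 := by omega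
        rw [e2] at hx1
        rw [e1] at hx2
        have hnn := J17.sol_nonneg c m n hTN ((a:ℕ) - (b:ℕ) + 1) (by omega) (by omega) x
          (by omega) (by omega)
        rcases hnn.lt_or_eq with hlt | heq
        · obtain ⟨q, hq, hq1, hq2⟩ := J22.supp_right c m n hmn hTN ((a:ℕ) - (b:ℕ) + 1) (by omega)
            (by omega) x (by omega) (by omega) hlt
          have := hcon q hq (by omega)
          omega
        · exact heq.symm
      · rw [card_ge', card_le']
        omega
    exact absurd hzero hpos.ne'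
  · intro hkm
    by_contra hcon
    push Not at hcon
    have hβ0 : ∀ a, β a = 0 := by
      intro a
      have h1 := hβr a
      push_cast at h1
      omega
    have hα0 := hαr 0
    have hαl := hαr (Fin.last k)
    have hmono := hα (Fin.zero_le (Fin.last k))
    push_cast at hα0 hαl
    have hzero : tab c α β = 0 := by
      refine core c m n hTN k α β 0 (α 0) m (α (Fin.last k) + (k:ℤ) - α 0 + 1).toNat m
        univ univ le_rfl (by omega) (by omega) (by omega) (by omega) le_rfl (by omega) ?_ ?_ ?_ ?_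
      · intro x _
        rw [hβ0 x]
        have := x.2
        omega
      · intro y _
        have h3 := hαs y (Fin.last k) (Fin.le_last y)
        have h4 := hα (Fin.zero_le y)
        rw [Fin.val_last] at h3
        omega
      · intro x hx1 hx2
        have e2 : (((α (Fin.last k) + (k:ℤ) - α 0 + 1).toNat : ℕ) : ℤ) =
            α (Fin.last k) + (k:ℤ) - α 0 + 1 := Int.toNat_of_nonneg (by omega)
        rw [e2] at hx2
        have hnn := J17.sol_nonneg c m n hTN m le_rfl hmn x (by omega) (by omega)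
        rcases hnn.lt_or_eq with hlt | heq
        · have hq := (J22.supp_top c m n hm hmn x (by omega) (by omega)).1 hlt
          have := hcon _ hq 0 (Fin.last k) (by omega)
          omega
        · exact heq.symm
      · rw [Finset.card_univ, Fintype.card_fin]
        omega
    exact absurd hzero hpos.ne'

end J24

end TZ
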