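import Pool.Agent.Helper80.TZ.Defs
set_option autoImplicit false
set_option linter.unusedVariables false
open Finset

namespace TZ

namespace J31

theorem fixpt {S : Type} (Φ : (S → ℝ) → (S → ℝ)) (L U : S → ℝ)
    (hmono : ∀ f g : S → ℝ, (∀ s, L s ≤ f s) → (∀ s, f s ≤ g s) → ∀ s, Φ f s ≤ Φ g s)
    (hL : ∀ s, L s ≤ Φ L s) (hU : ∀ s, Φ U s ≤ U s) (hLU : ∀ s, L s ≤ U s)
    (hcont : ∀ (F : ℕ → S → ℝ) (f : S → ℝ),
      (∀ s, Filter.Tendsto (fun n => F n s) Filter.atTop (nhds (f s))) →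
      ∀ s, Filter.Tendsto (fun n => Φ (F n) s) Filter.atTop (nhds (Φ f s))) :
    ∃ f : S → ℝ, (∀ s, L s ≤ f s) ∧ (∀ s, f s ≤ U s) ∧ ∀ s, Φ f s = f s := by
  have h1 : ∀ n : ℕ, ∀ s, L s ≤ (Φ^[n] L) s ∧ (Φ^[n] L) s ≤ (Φ^[n + 1] L) s ∧
      (Φ^[n] L) s ≤ U s := by
    intro n
    induction n with
    | zero => intro s; exact ⟨le_refl _, hL s, hLU s⟩
    | succ n ih =>
      intro s
      refine ⟨(ih s).1.trans (ih s).2.1, ?_, ?_⟩
      · rw [Function.iterate_succ_apply' Φ (n + 1), Function.iterate_succ_apply' Φ n]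
        have h2 := hmono (Φ^[n] L) (Φ^[n + 1] L) (fun s => (ih s).1) (fun s => (ih s).2.1) s
        rw [Function.iterate_succ_apply' Φ n] at h2
        exact h2
      · rw [Function.iterate_succ_apply' Φ n]
        exact (hmono (Φ^[n] L) U (fun s => (ih s).1) (fun s => (ih s).2.2) s).trans (hU s)
  have hm : ∀ s, Monotone fun n => (Φ^[n] L) s := fun s => monotone_nat_of_le_succ fun n =>
    (h1 n s).2.1
  have hb : ∀ s, BddAbove (Set.range fun n => (Φ^[n] L) s) := fun s =>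
    ⟨U s, by rintro _ ⟨n, rfl⟩; exact (h1 n s).2.2⟩
  have ht : ∀ s, Filter.Tendsto (fun n => (Φ^[n] L) s) Filter.atTop
      (nhds (⨆ n, (Φ^[n] L) s)) := fun s => tendsto_atTop_ciSup (hm s) (hb s)
  refine ⟨fun s => ⨆ n, (Φ^[n] L) s, fun s => ?_, fun s => ?_, fun s => ?_⟩
  · exact ge_of_tendsto' (ht s) (fun n => (h1 n s).1)
  · exact le_of_tendsto' (ht s) (fun n => (h1 n s).2.2)
  · have h2 := hcont (fun n => Φ^[n] L) (fun s => ⨆ n, (Φ^[n] L) s) ht s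
    have h3 : Filter.Tendsto (fun n => Φ (Φ^[n] L) s) Filter.atTop
        (nhds (⨆ n, (Φ^[n] L) s)) := by
      have h4 := (Filter.tendsto_add_atTop_iff_nat 1).2 (ht s)
      refine h4.congr fun n => ?_
      rw [Function.iterate_succ_apply']
    exact tendsto_nhds_unique h2 h3

/-- interior sites -/
def inr' (m n : ℕ) (s : ℕ × ℤ) : Prop :=
  1 ≤ s.1 ∧ s.1 + 1 ≤ m ∧ (s.1 : ℤ) - m < s.2 ∧ s.2 < (n : ℤ) - s.1

open Classical in
/-- boundary values -/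
noncomputable def gb (m n : ℕ) (p : ℤ → ℝ) (s : ℕ × ℤ) : ℝ :=
  if 1 ≤ s.2 + m ∧ s.2 + 1 ≤ (n : ℤ) ∧ s.1 = lev m n (s.2 + m) then p (s.2 + m) else 1

open Classical in
/-- the iteration -/
noncomputable def Ph (m n : ℕ) (p : ℤ → ℝ) (f : ℕ × ℤ → ℝ) (s : ℕ × ℤ) : ℝ :=
  if inr' m n s then Real.sqrt (f (s.1 + 1, s.2) * f (s.1 - 1, s.2) +
    f (s.1, s.2 - 1) * f (s.1, s.2 + 1)) else gb m n p s

open Classical in
/-- supersolution -/
noncomputable def Us (m n : ℕ) (s : ℕ × ℤ) : ℝ :=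
  if s.1 ≤ m ∧ |s.2| ≤ (m : ℤ) + n then
    (2 : ℝ) ^ ((m : ℤ) ^ 2 + ((m : ℤ) + n) ^ 2 - (s.1 : ℤ) ^ 2 - s.2 ^ 2) else 1

theorem Us_ge (m n : ℕ) (s : ℕ × ℤ) : 1 ≤ Us m n s := by
  unfold Us
  split_ifs with h
  · apply one_le_zpow₀ (by norm_num)
    have h1 : (s.1 : ℤ) ^ 2 ≤ (m : ℤ) ^ 2 := by
      have : (s.1 : ℤ) ≤ m := by exact_mod_cast h.1
      nlinarith [Int.natCast_nonneg s.1]
    have h2 : s.2 ^ 2 ≤ ((m : ℤ) + n) ^ 2 := by
      rw [← sq_abs s.2]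
      exact pow_le_pow_left₀ (abs_nonneg _) h.2 2
    linarith
  · exact le_refl _

theorem Us_le (m n : ℕ) (s : ℕ × ℤ) : Us m n s ≤ (2 : ℝ) ^ ((m : ℤ) ^ 2 + ((m : ℤ) + n) ^ 2) := by
  unfold Us
  split_ifs with h
  · apply zpow_le_zpow_right₀ (by norm_num)
    nlinarith [sq_nonneg (s.1 : ℤ), sq_nonneg s.2]
  · apply one_le_zpow₀ (by norm_num)
    positivity

theorem Us_key (Z Z1 Z2 Z3 Z4 : ℤ) (h1 : Z1 + Z2 = (Z + Z) + (-2))
    (h2 : Z3 + Z4 = (Z + Z) + (-2)) :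
    Real.sqrt ((2 : ℝ) ^ Z1 * (2 : ℝ) ^ Z2 + (2 : ℝ) ^ Z3 * (2 : ℝ) ^ Z4) ≤ (2 : ℝ) ^ Z := by
  have hz : (0 : ℝ) < (2 : ℝ) ^ Z := by positivity
  rw [Real.sqrt_le_left hz.le, ← zpow_add₀ (by norm_num : (2 : ℝ) ≠ 0),
    ← zpow_add₀ (by norm_num : (2 : ℝ) ≠ 0), h1, h2,
    zpow_add₀ (by norm_num : (2 : ℝ) ≠ 0) _ (-2), zpow_add₀ (by norm_num : (2 : ℝ) ≠ 0) Z Z]
  have hq : (2 : ℝ) ^ (-2 : ℤ) = 1 / 4 := by norm_num
  rw [hq]
  nlinarith

theorem Us_super (m n : ℕ) (k : ℕ) (d : ℤ) (h2 : k + 2 ≤ m)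
    (h3 : (k : ℤ) + 1 - m < d) (h4 : d < (n : ℤ) - (k + 1)) :
    Real.sqrt (Us m n (k + 2, d) * Us m n (k, d) + Us m n (k + 1, d - 1) * Us m n (k + 1, d + 1)) ≤
      Us m n (k + 1, d) := by
  have hd : |d| ≤ (m : ℤ) + n := by
    rw [abs_le]; constructor <;> omega
  have hd1 : |d - 1| ≤ (m : ℤ) + n := by
    rw [abs_le]; constructor <;> omega
  have hd2 : |d + 1| ≤ (m : ℤ) + n := by
    rw [abs_le]; constructor <;> omega
  have e1 : Us m n (k + 2, d) =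
      (2 : ℝ) ^ ((m : ℤ) ^ 2 + ((m : ℤ) + n) ^ 2 - ((k + 2 : ℕ) : ℤ) ^ 2 - d ^ 2) := by
    unfold Us; rw [if_pos ⟨by simp only; omega, hd⟩]
  have e2 : Us m n (k, d) =
      (2 : ℝ) ^ ((m : ℤ) ^ 2 + ((m : ℤ) + n) ^ 2 - (k : ℤ) ^ 2 - d ^ 2) := by
    unfold Us; rw [if_pos ⟨by simp only; omega, hd⟩]
  have e3 : Us m n (k + 1, d - 1) =
      (2 : ℝ) ^ ((m : ℤ) ^ 2 + ((m : ℤ) + n) ^ 2 - ((k + 1 : ℕ) : ℤ) ^ 2 - (d - 1) ^ 2) := by
    unfold Us; rw [if_pos ⟨by simp only; omega, hd1⟩]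
  have e4 : Us m n (k + 1, d + 1) =
      (2 : ℝ) ^ ((m : ℤ) ^ 2 + ((m : ℤ) + n) ^ 2 - ((k + 1 : ℕ) : ℤ) ^ 2 - (d + 1) ^ 2) := by
    unfold Us; rw [if_pos ⟨by simp only; omega, hd2⟩]
  have e5 : Us m n (k + 1, d) =
      (2 : ℝ) ^ ((m : ℤ) ^ 2 + ((m : ℤ) + n) ^ 2 - ((k + 1 : ℕ) : ℤ) ^ 2 - d ^ 2) := by
    unfold Us; rw [if_pos ⟨by simp only; omega, hd⟩]
  rw [e1, e2, e3, e4, e5]
  refine Us_key _ _ _ _ _ ?_ ?_
  · push_cast; ring
  · push_cast; ring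

theorem dirichlet (m n : ℕ) (hm : 1 ≤ m) (hmn : m ≤ n) : ∃ K : ℝ, ∀ p : ℤ → ℝ,
    (∀ t, 0 < p t ∧ p t ≤ 1) → ∃ D : ℕ → ℤ → ℝ,
      (∀ k d, 0 < D k d) ∧ (∀ k d, D k d ≤ K) ∧ (∀ d, D 0 d = 1) ∧
      (∀ t : ℤ, 1 ≤ t → t + 1 ≤ (m:ℤ) + n → D (lev m n t) (t - m) = p t) ∧
      (∀ (k : ℕ) (d : ℤ), k + 2 ≤ m → (k:ℤ) + 1 - m < d → d + k + 1 < n →
        D (k+2) d * D k d = D (k+1) d ^ 2 - D (k+1) (d-1) * D (k+1) (d+1)) := by
  classical
  refine ⟨(2 : ℝ) ^ ((m : ℤ) ^ 2 + ((m : ℤ) + n) ^ 2), fun p hp => ?_⟩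
  obtain ⟨t0, _, ht0⟩ := Finset.exists_min_image (Finset.Icc (1 : ℤ) ((m : ℤ) + n)) p
    ⟨1, by rw [Finset.mem_Icc]; constructor <;> omega⟩
  obtain ⟨δ, hδdef⟩ : ∃ δ : ℝ, δ = min 1 (p t0) := ⟨_, rfl⟩
  have hδ0 : 0 < δ := by rw [hδdef]; exact lt_min one_pos (hp t0).1
  have hδ1 : δ ≤ 1 := by rw [hδdef]; exact min_le_left _ _
  have hδp : ∀ t : ℤ, 1 ≤ t → t ≤ (m : ℤ) + n → δ ≤ p t := by
    intro t h1 h2
    rw [hδdef]
    exact (min_le_right _ _).trans (ht0 t (by rw [Finset.mem_Icc]; exact ⟨h1, h2⟩))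
  have hg1 : ∀ s, gb m n p s ≤ 1 := by
    intro s; unfold gb; split_ifs
    · exact (hp _).2
    · exact le_refl _
  have hg0 : ∀ s, δ ≤ gb m n p s := by
    intro s; unfold gb; split_ifs with h
    · exact hδp _ h.1 (by omega)
    · exact hδ1
  obtain ⟨f, hf1, hf2, hf3⟩ := fixpt (Ph m n p) (fun _ => δ) (Us m n)
    (by
      intro f g hf hfg s
      unfold Ph
      split_ifs with h
      · apply Real.sqrt_le_sqrt
        have hpos : ∀ s, 0 ≤ f s := fun s => hδ0.le.trans (hf s)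
        have hposg : ∀ s, 0 ≤ g s := fun s => (hpos s).trans (hfg s)
        exact add_le_add (mul_le_mul (hfg _) (hfg _) (hpos _) (hposg _))
          (mul_le_mul (hfg _) (hfg _) (hpos _) (hposg _))
      · exact le_refl _)
    (by
      intro s
      unfold Ph
      split_ifs with h
      · apply Real.le_sqrt_of_sq_le
        nlinarith
      · exact hg0 s)
    (by
      rintro ⟨k, d⟩
      unfold Ph
      split_ifs with h
      · obtain ⟨h1, h2, h3, h4⟩ := h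
        simp only at h1 h2 h3 h4
        obtain ⟨j, rfl⟩ : ∃ j, k = j + 1 := ⟨k - 1, by omega⟩
        exact Us_super m n j d (by omega) (by push_cast at h3; linarith)
          (by push_cast at h4; linarith)
      · exact (hg1 _).trans (Us_ge m n _))
    (fun s => hδ1.trans (Us_ge m n s))
    (by
      intro F f hF s
      unfold Ph
      split_ifs with h
      · exact (((hF _).mul (hF _)).add ((hF _).mul (hF _))).sqrt
      · exact tendsto_const_nhds)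
  refine ⟨fun k d => f (k, d), fun k d => hδ0.trans_le (hf1 _),
    fun k d => (hf2 _).trans (Us_le m n _), fun d => ?_, fun t ht1 ht2 => ?_,
    fun k d h1 h2 h3 => ?_⟩
  · show f (0, d) = 1
    rw [← hf3]
    unfold Ph
    rw [if_neg (by unfold inr'; simp)]
    unfold gb
    rw [if_neg]
    rintro ⟨h1, h2, h3⟩
    simp only at h1 h2 h3
    unfold lev at h3
    omega
  · show f (lev m n t, t - m) = p t
    rw [← hf3]
    unfold Ph
    rw [if_neg]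
    · unfold gb
      rw [if_pos]
      · simp
      · simp only
        refine ⟨by omega, by omega, by rw [sub_add_cancel]⟩
    · unfold inr' lev
      simp only
      omega
  · show f (k + 2, d) * f (k, d) = f (k + 1, d) ^ 2 - f (k + 1, d - 1) * f (k + 1, d + 1)
    have hi : inr' m n (k + 1, d) := by
      unfold inr'
      refine ⟨?_, ?_, ?_, ?_⟩
      · show 1 ≤ k + 1
        omega
      · show k + 1 + 1 ≤ m
        omega
      · show ((k + 1 : ℕ) : ℤ) - m < d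
        push_cast; linarith
      · show d < (n : ℤ) - ((k + 1 : ℕ) : ℤ)
        push_cast; linarith
    have h4 := hf3 (k + 1, d)
    unfold Ph at h4
    rw [if_pos hi] at h4
    simp only at h4
    have hpos : ∀ s, 0 ≤ f s := fun s => hδ0.le.trans (hf1 s)
    have h5 : f (k + 1, d) ^ 2 = f (k + 1 + 1, d) * f (k + 1 - 1, d) +
        f (k + 1, d - 1) * f (k + 1, d + 1) := by
      rw [← h4, Real.sq_sqrt]
      exact add_nonneg (mul_nonneg (hpos _) (hpos _)) (mul_nonneg (hpos _) (hpos _))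
    rw [h5]
    simp only [Nat.add_sub_cancel]
    ring

end J31

end TZ
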