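import Pool.Agent.Helper80.TZ.Defs
import Pool.Agent.Helper80.TZ.J10
import Pool.Agent.Helper80.TZ.J17
import Pool.Agent.Helper80.TZ.J31
set_option autoImplicit false
set_option linter.unusedVariables false
open Finset

namespace TZ

namespace J32

theorem exists_pos_claim (m n : ℕ) (D : ℕ → ℤ → ℝ) (hD0 : ∀ k d, 0 < D k d)
    (hD1 : ∀ d, D 0 d = 1)
    (hD2 : ∀ (k : ℕ) (d : ℤ), k + 2 ≤ m → (k:ℤ) + 1 - m < d → d + k + 1 < n →
        D (k+2) d * D k d = D (k+1) d ^ 2 - D (k+1) (d-1) * D (k+1) (d+1)) :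
    ∀ k : ℕ, k ≤ m → ∀ d : ℤ, (k:ℤ) - m ≤ d → d + k ≤ n → sol (fun d => D 1 d) k d = D k d := by
  intro k
  induction k using Nat.strong_induction_on with
  | _ k ih =>
    intro hk d h1 h2
    match k, ih, hk, h1, h2 with
    | 0, _, _, _, _ =>
      rw [hD1]
      unfold sol
      exact Matrix.det_isEmpty
    | 1, _, _, _, _ =>
      unfold sol
      rw [Matrix.det_unique]
      simp
    | k + 2, ih, hk, h1, h2 =>
      push_cast at h1 h2
      have e0 := ih k (by omega) (by omega) d (by linarith) (by linarith)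
      have e1 := ih (k + 1) (by omega) (by omega) d (by push_cast; linarith) (by push_cast; linarith)
      have e2 := ih (k + 1) (by omega) (by omega) (d - 1) (by push_cast; linarith)
        (by push_cast; linarith)
      have e3 := ih (k + 1) (by omega) (by omega) (d + 1) (by push_cast; linarith)
        (by push_cast; linarith)
      have h3 := J17.sol_dodgson (fun d => D 1 d) k d
      have h4 := hD2 k d hk (by linarith) (by linarith)
      rw [e0, e1, e2, e3, ← h4] at h3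
      exact mul_right_cancel₀ (hD0 k d).ne' h3

theorem exists_pos (m n : ℕ) (hm : 1 ≤ m) (hmn : m ≤ n) : ∃ K : ℝ, ∀ p : ℤ → ℝ,
    (∀ t, 0 < p t ∧ p t ≤ 1) → ∃ c : ℤ → ℝ, TNR (toe c) m n ∧
      (∀ d, 0 ≤ c d ∧ c d ≤ K) ∧
      (∀ t : ℤ, 1 ≤ t → t + 1 ≤ (m:ℤ) + n → sol c (lev m n t) (t - m) = p t) := by
  obtain ⟨K, hK⟩ := J31.dirichlet m n hm hmn
  refine ⟨K, fun p hp => ?_⟩
  obtain ⟨D, hD0, hDK, hD1, hDp, hD2⟩ := hK p hp
  have claim := exists_pos_claim m n D hD0 hD1 hD2
  refine ⟨fun d => D 1 d, ?_, fun d => ⟨(hD0 1 d).le, hDK 1 d⟩, ?_⟩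
  · intro k I J hI hJ hI' hJ'
    refine (J10.fekete (toe (fun d => D 1 d)) m n ?_ k I J hI hJ hI' hJ').le
    intro k i j hi hj
    rw [J17.win_toe, claim k (by omega) _ (by omega) (by omega)]
    exact hD0 _ _
  · intro t h1 h2
    rw [← hDp t h1 h2]
    have h3 : ((lev m n t : ℕ) : ℤ) = min t (min (m:ℤ) ((m:ℤ) + n - t)) := by
      unfold lev
      rw [Int.toNat_of_nonneg]
      omega
    exact claim _ (by omega) _ (by omega) (by omega)

theorem exists_QA_mn {k : ℕ} (I J : Fin k → ℤ) : Continuous fun c : ℤ → ℝ => mn (toe c) I J := by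
  unfold mn toe
  exact Continuous.matrix_det (continuous_matrix fun a b => continuous_apply _)

theorem exists_QA_sol (k : ℕ) (d : ℤ) : Continuous fun c : ℤ → ℝ => sol c k d := by
  unfold sol
  exact Continuous.matrix_det (continuous_matrix fun a b => continuous_apply _)

theorem exists_QA (m n : ℕ) (hm : 1 ≤ m) (hmn : m ≤ n) (Q : Set ℤ)
    (hQ : ∀ q ∈ Q, 1 ≤ q ∧ q + 1 ≤ (m:ℤ) + n) :
    ∃ c : ℤ → ℝ, TNR (toe c) m n ∧ QA c m n = Q := by
  classical
  obtain ⟨K, hK⟩ := exists_pos m n hm hmn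
  have hp : ∀ N : ℕ, ∀ t : ℤ, 0 < (if t ∈ Q then (1:ℝ) else 1 / ((N:ℝ) + 1)) ∧
      (if t ∈ Q then (1:ℝ) else 1 / ((N:ℝ) + 1)) ≤ 1 := by
    intro N t
    split_ifs
    · exact ⟨one_pos, le_rfl⟩
    · refine ⟨by positivity, ?_⟩
      rw [div_le_one (by positivity)]
      have : (0:ℝ) ≤ N := Nat.cast_nonneg N
      linarith
  choose cN h1 h2 h3 using fun N : ℕ => hK _ (hp N)
  have hcomp : IsCompact (Set.univ.pi fun _ : ℤ => Set.Icc (0:ℝ) K) :=
    isCompact_univ_pi fun _ => isCompact_Icc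
  obtain ⟨c, -, φ, hφ, hlim⟩ := hcomp.tendsto_subseq (x := cN)
    (fun N => fun d _ => ⟨(h2 N d).1, (h2 N d).2⟩)
  refine ⟨c, ?_, ?_⟩
  · intro k I J hI hJ hI' hJ'
    refine ge_of_tendsto' (((exists_QA_mn I J).tendsto c).comp hlim) fun N => ?_
    exact h1 (φ N) k I J hI hJ hI' hJ'
  · ext t
    have hs : Filter.Tendsto (fun N => sol (cN (φ N)) (lev m n t) (t - m)) Filter.atTop
        (nhds (sol c (lev m n t) (t - m))) := ((exists_QA_sol (lev m n t) (t - m)).tendsto c).comp hlim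
    constructor
    · rintro ⟨ht1, ht2, ht3⟩
      by_contra hc
      have hs2 : Filter.Tendsto (fun N => sol (cN (φ N)) (lev m n t) (t - m)) Filter.atTop
          (nhds 0) := by
        have h5 : (fun N => sol (cN (φ N)) (lev m n t) (t - m)) =
            (fun N : ℕ => 1 / ((N:ℝ) + 1)) ∘ φ := by
          funext N
          rw [h3 (φ N) t ht1 ht2, if_neg hc]
          rfl
        rw [h5]
        exact tendsto_one_div_add_atTop_nhds_zero_nat.comp hφ.tendsto_atTop
      have h6 := tendsto_nhds_unique hs hs2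
      rw [h6] at ht3
      exact lt_irrefl _ ht3
    · intro ht
      obtain ⟨ht1, ht2⟩ := hQ t ht
      refine ⟨ht1, ht2, ?_⟩
      have h5 : (fun N => sol (cN (φ N)) (lev m n t) (t - m)) = fun _ => (1:ℝ) := by
        funext N
        rw [h3 (φ N) t ht1 ht2, if_pos ht]
      rw [h5] at hs
      have h6 := tendsto_nhds_unique hs tendsto_const_nhds
      rw [h6]
      exact one_pos

end J32

end TZ
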