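import Pool.Agent.Helper80.TZ.Defs
import Pool.Agent.Helper80.TZ.FDefs
set_option autoImplicit false
set_option linter.unusedVariables false
open Finset

namespace TZ

namespace J40

theorem mono_sub {K N : ℕ} (f : Fin K → Fin N) (hf : StrictMono f) (a b : Fin K) (hab : a ≤ b) :
    ((f a : Fin N) : ℤ) - (a : ℤ) ≤ ((f b : Fin N) : ℤ) - (b : ℤ) := by
  obtain ⟨b, hb⟩ := b
  obtain ⟨a, ha⟩ := a
  have hab' : a ≤ b := hab
  obtain ⟨d, rfl⟩ := Nat.exists_eq_add_of_le hab'
  induction d with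
  | zero => simp
  | succ d ih =>
    have h1 := ih (by omega) (by simp) (by omega)
    have h2 : f ⟨a + d, by omega⟩ < f ⟨a + (d + 1), hb⟩ := hf (by simp [Fin.lt_def])
    have h3 : ((f ⟨a + d, by omega⟩ : Fin N) : ℕ) < ((f ⟨a + (d + 1), hb⟩ : Fin N) : ℕ) := h2
    push_cast at h1 ⊢
    have h4 : (((f ⟨a + d, by omega⟩ : Fin N) : ℕ) : ℤ) + 1 ≤ ((f ⟨a + (d + 1), hb⟩ : Fin N) : ℕ) := by
      exact_mod_cast h3
    linarith

theorem rng_aux {K N : ℕ} (f : Fin K → Fin N) (hf : StrictMono f) (b : Fin K) :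
    0 ≤ ((f b : Fin N) : ℤ) - (b : ℤ) ∧ ((f b : Fin N) : ℤ) - (b : ℤ) + K ≤ N := by
  have hK : 0 < K := lt_of_le_of_lt (Nat.zero_le _) b.2
  constructor
  · have := mono_sub f hf ⟨0, hK⟩ b (by simp [Fin.le_def])
    simp only [Nat.cast_zero] at this
    have h0 : (0:ℤ) ≤ ((f ⟨0, hK⟩ : Fin N) : ℤ) := by positivity
    linarith
  · have := mono_sub f hf b ⟨K - 1, by omega⟩ (by simp only [Fin.le_def]; have := b.2; omega)
    have h1 : ((f ⟨K - 1, by omega⟩ : Fin N) : ℤ) + 1 ≤ N := by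
      exact_mod_cast (f ⟨K - 1, by omega⟩).2
    simp only at this
    have h2 : ((K - 1 : ℕ) : ℤ) = (K : ℤ) - 1 := by omega
    rw [h2] at this
    linarith

theorem minor_tab {m n : ℕ} (c : ℤ → ℝ) (A : Matrix (Fin m) (Fin n) ℝ)
    (hA : ∀ i j, A i j = c ((j:ℤ) - (i:ℤ))) (I : Finset (Fin m)) (J : Finset (Fin n))
    (h : J.card = I.card) :
    minor A I J h = tab c (fun b : Fin I.card => ((J.orderEmbOfFin h b : Fin n) : ℤ) - (b:ℤ))
      (fun a : Fin I.card => ((I.orderEmbOfFin rfl a : Fin m) : ℤ) - (a:ℤ)) := by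
  unfold minor tab
  congr 1
  ext a b
  simp only [Matrix.submatrix_apply, Matrix.of_apply, hA]
  congr 1
  ring

theorem rng {m n : ℕ} (I : Finset (Fin m)) (J : Finset (Fin n)) (h : J.card = I.card) :
    Rng m n (fun b : Fin I.card => ((J.orderEmbOfFin h b : Fin n) : ℤ) - (b:ℤ))
      (fun a : Fin I.card => ((I.orderEmbOfFin rfl a : Fin m) : ℤ) - (a:ℤ)) := by
  refine ⟨?_, ?_, ?_, ?_⟩
  · intro a b hab
    exact mono_sub _ (J.orderEmbOfFin h).strictMono a b hab
  · intro a b hab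
    exact mono_sub _ (I.orderEmbOfFin rfl).strictMono a b hab
  · intro b
    exact rng_aux _ (J.orderEmbOfFin h).strictMono b
  · intro b
    exact rng_aux _ (I.orderEmbOfFin rfl).strictMono b

theorem minor_mn {m n : ℕ} (c : ℤ → ℝ) (A : Matrix (Fin m) (Fin n) ℝ)
    (hA : ∀ i j, A i j = c ((j:ℤ) - (i:ℤ))) (I : Finset (Fin m)) (J : Finset (Fin n))
    (h : J.card = I.card) (k : ℕ) (hk : I.card = k) :
    minor A I J h = mn (toe c) (fun a : Fin k => ((I.orderEmbOfFin hk a : Fin m) : ℤ))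
      (fun b : Fin k => ((J.orderEmbOfFin (h.trans hk) b : Fin n) : ℤ)) := by
  subst hk
  unfold minor mn toe
  congr 1
  ext a b
  simp only [Matrix.submatrix_apply, Matrix.of_apply, hA]

theorem lift_fin {k N : ℕ} (I : Fin k → ℤ) (hI : StrictMono I) (h : ∀ a, 0 ≤ I a ∧ I a < N) :
    ∃ S : Finset (Fin N), ∃ hS : S.card = k, ∀ a, ((S.orderEmbOfFin hS a : Fin N) : ℤ) = I a := by
  let f : Fin k → Fin N := fun a => ⟨(I a).toNat, by have := h a; omega⟩
  have hf : StrictMono f := by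
    intro a b hab
    have h1 := hI hab
    have h2 := h a
    have h3 := h b
    simp only [f, Fin.lt_def]
    omega
  have hS : (Finset.univ.image f).card = k := by
    rw [Finset.card_image_of_injective _ hf.injective, Finset.card_univ, Fintype.card_fin]
  refine ⟨Finset.univ.image f, hS, ?_⟩
  intro a
  have := Finset.orderEmbOfFin_unique hS (f := f)
    (fun x => Finset.mem_image_of_mem _ (Finset.mem_univ _)) hf
  rw [← congrFun this a]
  simp only [f]
  have h2 := h a
  omega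

theorem tn_iff {m n : ℕ} (c : ℤ → ℝ) (A : Matrix (Fin m) (Fin n) ℝ)
    (hA : ∀ i j, A i j = c ((j:ℤ) - (i:ℤ))) : IsTN A ↔ TNR (toe c) m n := by
  constructor
  · intro hT k I J hI hJ hIr hJr
    obtain ⟨S, hS, hSe⟩ := lift_fin I hI hIr
    obtain ⟨T, hT', hTe⟩ := lift_fin J hJ hJr
    have h1 := hT S T (hT'.trans hS.symm)
    rw [minor_mn c A hA S T _ k hS] at h1
    have e1 : (fun a : Fin k => ((S.orderEmbOfFin hS a : Fin m) : ℤ)) = I := funext hSe
    have e2 : (fun b : Fin k => ((T.orderEmbOfFin hT' b : Fin n) : ℤ)) = J := funext hTe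
    rw [e1] at h1
    have e3 : (fun b : Fin k => ((T.orderEmbOfFin ((hT'.trans hS.symm).trans hS) b : Fin n) : ℤ))
      = J := e2
    rw [e3] at h1
    exact h1
  · intro hT I J h
    rw [minor_mn c A hA I J h _ rfl]
    apply hT
    · intro a b hab
      have := (I.orderEmbOfFin rfl).strictMono hab
      rw [Fin.lt_def] at this
      show ((I.orderEmbOfFin rfl a : Fin m) : ℤ) < ((I.orderEmbOfFin rfl b : Fin m) : ℤ)
      exact_mod_cast this
    · intro a b hab
      have := (J.orderEmbOfFin (h.trans rfl)).strictMono hab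
      rw [Fin.lt_def] at this
      show ((J.orderEmbOfFin (h.trans rfl) a : Fin n) : ℤ) < ((J.orderEmbOfFin (h.trans rfl) b : Fin n) : ℤ)
      exact_mod_cast this
    · intro a
      refine ⟨by positivity, ?_⟩
      exact_mod_cast (I.orderEmbOfFin rfl a).2
    · intro a
      refine ⟨by positivity, ?_⟩
      exact_mod_cast (J.orderEmbOfFin (h.trans rfl) a).2

theorem rk_emb {N k : ℕ} (S : Finset (Fin N)) (h : S.card = k) (a : Fin k) :
    rk S (S.orderEmbOfFin h a) = (a : ℤ) := by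
  unfold rk
  have : S.filter (fun y => y < S.orderEmbOfFin h a) =
      (Finset.Iio a).map (S.orderEmbOfFin h).toEmbedding := by
    ext y
    simp only [Finset.mem_filter, Finset.mem_map, Finset.mem_Iio]
    constructor
    · rintro ⟨hy, hlt⟩
      have : y ∈ Set.range (S.orderEmbOfFin h) := by
        rw [Finset.range_orderEmbOfFin]
        exact hy
      obtain ⟨b, rfl⟩ := this
      exact ⟨b, (S.orderEmbOfFin h).lt_iff_lt.1 hlt, rfl⟩
    · rintro ⟨b, hb, rfl⟩
      exact ⟨Finset.orderEmbOfFin_mem _ _ _, (S.orderEmbOfFin h).lt_iff_lt.2 hb⟩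
  rw [this, Finset.card_map, Fin.card_Iio]

theorem ex_emb {N k : ℕ} (S : Finset (Fin N)) (h : S.card = k) {x : Fin N} (hx : x ∈ S) :
    ∃ a : Fin k, S.orderEmbOfFin h a = x := by
  have : x ∈ Set.range (S.orderEmbOfFin h) := by
    rw [Finset.range_orderEmbOfFin]
    exact hx
  exact this

theorem nv_iff {m n : ℕ} (Q : Set ℤ) (I : Finset (Fin m)) (J : Finset (Fin n))
    (h : J.card = I.card) :
    NonVan m n Q I J ↔ Cond m n Q
      (fun b : Fin I.card => ((J.orderEmbOfFin h b : Fin n) : ℤ) - (b:ℤ))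
      (fun a : Fin I.card => ((I.orderEmbOfFin rfl a : Fin m) : ℤ) - (a:ℤ)) := by
  have hmI : ∀ a : Fin I.card, I.orderEmbOfFin rfl a ∈ I := fun a => Finset.orderEmbOfFin_mem _ _ _
  have hmJ : ∀ a : Fin I.card, J.orderEmbOfFin h a ∈ J := fun a => Finset.orderEmbOfFin_mem _ _ _
  have hrI : ∀ a : Fin I.card, rk I (I.orderEmbOfFin rfl a) = (a : ℤ) := rk_emb I rfl
  have hrJ : ∀ a : Fin I.card, rk J (J.orderEmbOfFin h a) = (a : ℤ) := rk_emb J h
  unfold NonVan Cond
  refine and_congr ?_ (and_congr ?_ (imp_congr Iff.rfl ?_))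
  · constructor
    · intro H a b hab
      have := H _ (hmI a) _ (hmJ b)
      rw [hrI, hrJ] at this
      exact this (by exact_mod_cast hab)
    · intro H i hi j hj hij
      obtain ⟨a, rfl⟩ := ex_emb I rfl hi
      obtain ⟨b, rfl⟩ := ex_emb J h hj
      rw [hrI, hrJ] at hij ⊢
      exact H a b (by exact_mod_cast hij)
  · constructor
    · intro H a b hab
      have := H _ (hmI a) _ (hmJ b)
      rw [hrI, hrJ] at this
      exact this (by exact_mod_cast hab)
    · intro H i hi j hj hij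
      obtain ⟨a, rfl⟩ := ex_emb I rfl hi
      obtain ⟨b, rfl⟩ := ex_emb J h hj
      rw [hrI, hrJ] at hij ⊢
      exact H a b (by exact_mod_cast hij)
  · constructor
    · rintro ⟨q, hq, j, hj, j', hj', h1, h2⟩
      obtain ⟨b, rfl⟩ := ex_emb J h hj
      obtain ⟨b', rfl⟩ := ex_emb J h hj'
      rw [hrJ] at h1 h2
      exact ⟨q, hq, b, b', h1, h2⟩
    · rintro ⟨q, hq, b, b', h1, h2⟩
      refine ⟨q, hq, _, hmJ b, _, hmJ b', ?_, ?_⟩
      · rw [hrJ]; exact h1
      · rw [hrJ]; exact h2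

end J40

end TZ
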