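import Pool.Agent.Helper80.TZ.Defs
import Pool.Agent.Helper80.TZ.J17
import Pool.Agent.Helper80.TZ.J22
import Pool.Agent.Helper80.TZ.J23
import Pool.Agent.Helper80.TZ.J24
import Pool.Agent.Helper80.TZ.J40
import Pool.Agent.Helper80.TZ.FDefs
set_option autoImplicit false
set_option linter.unusedVariables false
open Finset

namespace TZ

namespace J41

theorem tab_pos_iff (c : ℤ → ℝ) (m n : ℕ) (hm : 1 ≤ m) (hmn : m ≤ n)
    (hTN : TNR (toe c) m n) (K : ℕ) (hK : 1 ≤ K) (α β : Fin K → ℤ) (hR : Rng m n α β) :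
    0 < tab c α β ↔ Cond m n (QA c m n) α β := by
  obtain ⟨k, rfl⟩ : ∃ k, K = k + 1 := ⟨K - 1, by omega⟩
  exact ⟨fun h => J24.cond_of_pos c m n hm hmn hTN k α β hR h,
    fun h => J23.pos_of_cond c m n hm hmn hTN k α β hR h⟩

theorem minor_pos_iff {m n : ℕ} (hm : 1 ≤ m) (hmn : m ≤ n) (c : ℤ → ℝ)
    (A : Matrix (Fin m) (Fin n) ℝ) (hA : ∀ i j, A i j = c ((j:ℤ) - (i:ℤ))) (hTN : IsTN A)
    (I : Finset (Fin m)) (J : Finset (Fin n)) (h : J.card = I.card) (h1 : 1 ≤ I.card) :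
    0 < minor A I J h ↔ NonVan m n (QA c m n) I J := by
  rw [J40.minor_tab c A hA I J h, J40.nv_iff (QA c m n) I J h]
  exact tab_pos_iff c m n hm hmn ((J40.tn_iff c A hA).1 hTN) I.card h1 _ _ (J40.rng I J h)

theorem minor_card {m n : ℕ} (A : Matrix (Fin m) (Fin n) ℝ) (I : Finset (Fin m))
    (J : Finset (Fin n)) (h : J.card = I.card) (l : ℕ) (hl : I.card = l) :
    minor A I J h = (A.submatrix (I.orderEmbOfFin hl) (J.orderEmbOfFin (h.trans hl))).det := by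
  subst hl
  rfl

theorem minor_fg {m n : ℕ} (A : Matrix (Fin m) (Fin n) ℝ) (I : Finset (Fin m))
    (J : Finset (Fin n)) (h : J.card = I.card) (l : ℕ) (hl : I.card = l)
    (f : Fin l → Fin m) (g : Fin l → Fin n) (hf : StrictMono f) (hg : StrictMono g)
    (hfI : ∀ x, f x ∈ I) (hgJ : ∀ x, g x ∈ J) :
    minor A I J h = (A.submatrix f g).det := by
  rw [minor_card A I J h l hl]
  rw [← Finset.orderEmbOfFin_unique hl hfI hf, ← Finset.orderEmbOfFin_unique (h.trans hl) hgJ hg]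

theorem exists_minor (m n : ℕ) (hm : 1 ≤ m) (hmn : m ≤ n) (t : ℤ) (h1 : 1 ≤ t)
    (h2 : t + 1 ≤ (m:ℤ) + n) :
    ∃ (I : Finset (Fin m)) (J : Finset (Fin n)) (h : J.card = I.card), 1 ≤ I.card ∧
      ∀ (c : ℤ → ℝ) (A : Matrix (Fin m) (Fin n) ℝ), (∀ i j, A i j = c ((j:ℤ) - (i:ℤ))) →
        minor A I J h = sol c (lev m n t) (t - m) := by
  obtain ⟨l, hl⟩ : ∃ l : ℕ, l = lev m n t := ⟨_, rfl⟩
  have hl' : (l : ℤ) = min t (min (m:ℤ) ((m:ℤ) + n - t)) := by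
    rw [hl]
    unfold lev
    omega
  obtain ⟨i0, hi0⟩ : ∃ i0 : ℕ, (i0 : ℤ) = max 0 ((m:ℤ) - t) := ⟨(max 0 ((m:ℤ) - t)).toNat, by omega⟩
  obtain ⟨j0, hj0⟩ : ∃ j0 : ℕ, (j0 : ℤ) = i0 + (t - m) := ⟨((i0:ℤ) + (t - m)).toNat, by omega⟩
  have hl1 : 1 ≤ l := by omega
  have hil : i0 + l ≤ m := by omega
  have hjl : j0 + l ≤ n := by omega
  rw [← hl]
  let f : Fin l → Fin m := fun a => ⟨i0 + a, by have := a.2; omega⟩
  let g : Fin l → Fin n := fun a => ⟨j0 + a, by have := a.2; omega⟩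
  have hf : StrictMono f := by
    intro a b hab
    rw [Fin.lt_def] at hab ⊢
    show i0 + (a:ℕ) < i0 + (b:ℕ)
    omega
  have hg : StrictMono g := by
    intro a b hab
    rw [Fin.lt_def] at hab ⊢
    show j0 + (a:ℕ) < j0 + (b:ℕ)
    omega
  have hIc : (Finset.univ.image f).card = l := by
    rw [Finset.card_image_of_injective _ hf.injective, Finset.card_univ, Fintype.card_fin]
  have hJc : (Finset.univ.image g).card = l := by
    rw [Finset.card_image_of_injective _ hg.injective, Finset.card_univ, Fintype.card_fin]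
  refine ⟨Finset.univ.image f, Finset.univ.image g, hJc.trans hIc.symm, by omega, ?_⟩
  intro c A hA
  rw [minor_fg A _ _ _ l hIc f g hf hg
    (fun x => Finset.mem_image_of_mem f (Finset.mem_univ x))
    (fun x => Finset.mem_image_of_mem g (Finset.mem_univ x))]
  unfold sol
  congr 1
  ext a b
  rw [Matrix.submatrix_apply, hA, Matrix.of_apply]
  congr 1
  show (((j0 + (b:ℕ) : ℕ) : ℤ)) - ((i0 + (a:ℕ) : ℕ) : ℤ) = t - m + (b:ℤ) - (a:ℤ)
  push_cast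
  omega

theorem zero_le {m n : ℕ} (hm : 1 ≤ m) (hmn : m ≤ n) (c : ℤ → ℝ)
    (A : Matrix (Fin m) (Fin n) ℝ) (hA : ∀ i j, A i j = c ((j:ℤ) - (i:ℤ))) (hTN : IsTN A) :
    zeroPattern A = pattern m n (QA c m n) := by
  ext P
  obtain ⟨I, J⟩ := P
  show (1 ≤ I.card ∧ ∃ h : J.card = I.card, minor A I J h = 0) ↔
    (1 ≤ I.card ∧ J.card = I.card ∧
      ¬ ((m ≤ n ∧ NonVan m n (QA c m n) I J) ∨ (n < m ∧ NonVan n m (QA c m n) J I)))
  constructor
  · rintro ⟨h1, h, h0⟩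
    refine ⟨h1, h, ?_⟩
    rintro (⟨_, hN⟩ | ⟨hlt, _⟩)
    · have := (minor_pos_iff hm hmn c A hA hTN I J h h1).2 hN
      exact absurd h0 (ne_of_gt this)
    · omega
  · rintro ⟨h1, h, h0⟩
    refine ⟨h1, h, ?_⟩
    by_contra hne
    apply h0
    left
    refine ⟨hmn, (minor_pos_iff hm hmn c A hA hTN I J h h1).1 ?_⟩
    exact lt_of_le_of_ne (hTN I J h) (Ne.symm hne)

theorem QA_congr {m n : ℕ} (hm : 1 ≤ m) (hmn : m ≤ n) (c c' : ℤ → ℝ)
    (A A' : Matrix (Fin m) (Fin n) ℝ) (hA : ∀ i j, A i j = c ((j:ℤ) - (i:ℤ))) (hTN : IsTN A)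
    (hA' : ∀ i j, A' i j = c' ((j:ℤ) - (i:ℤ))) (hTN' : IsTN A')
    (hZ : zeroPattern A = zeroPattern A') : QA c m n = QA c' m n := by
  have key : ∀ (c : ℤ → ℝ) (A : Matrix (Fin m) (Fin n) ℝ), IsTN A →
      (∀ i j, A i j = c ((j:ℤ) - (i:ℤ))) → ∀ (t : ℤ) (I : Finset (Fin m)) (J : Finset (Fin n))
      (h : J.card = I.card), 1 ≤ I.card → minor A I J h = sol c (lev m n t) (t - m) →
      (0 < sol c (lev m n t) (t - m) ↔ (I, J) ∉ zeroPattern A) := by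
    intro c A hTN hA t I J h h1 hs
    rw [← hs]
    constructor
    · rintro hp ⟨_, h', h0⟩
      exact absurd h0 (ne_of_gt hp)
    · intro hn
      refine lt_of_le_of_ne (hTN I J h) (fun h0 => hn ⟨h1, h, h0.symm⟩)
  ext t
  show (1 ≤ t ∧ t + 1 ≤ (m:ℤ) + n ∧ 0 < sol c (lev m n t) (t - m)) ↔
    (1 ≤ t ∧ t + 1 ≤ (m:ℤ) + n ∧ 0 < sol c' (lev m n t) (t - m))
  refine and_congr_right fun ht1 => and_congr_right fun ht2 => ?_
  obtain ⟨I, J, h, h1, hIJ⟩ := exists_minor m n hm hmn t ht1 ht2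
  rw [key c A hTN hA t I J h h1 (hIJ c A hA), key c' A' hTN' hA' t I J h h1 (hIJ c' A' hA'), hZ]

end J41

end TZ

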