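import Pool.Agent.Helper80.TZ.Defs
import Pool.Agent.Helper80.TZ.FDefs
set_option autoImplicit false
set_option linter.unusedVariables false
open Finset

namespace TZ

namespace J42

theorem minor_gen {m n : ℕ} (A : Matrix (Fin m) (Fin n) ℝ) (I : Finset (Fin m))
    (J : Finset (Fin n)) (h : J.card = I.card) (k : ℕ) (hI : I.card = k) :
    minor A I J h = (A.submatrix (I.orderEmbOfFin hI) (J.orderEmbOfFin (h.trans hI))).det := by
  subst hI
  rfl

theorem minor_tr {m n : ℕ} (A : Matrix (Fin m) (Fin n) ℝ) (I : Finset (Fin m))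
    (J : Finset (Fin n)) (h : J.card = I.card) (h' : I.card = J.card) :
    minor A.transpose J I h' = minor A I J h := by
  rw [minor_gen A I J h J.card h', ← Matrix.det_transpose]
  rfl

theorem transpose_toeplitz {m n : ℕ} (A : Matrix (Fin m) (Fin n) ℝ) (h : IsToeplitz A) :
    IsToeplitz A.transpose := by
  obtain ⟨c, hc⟩ := h
  refine ⟨fun d => c (-d), fun i j => ?_⟩
  rw [Matrix.transpose_apply, hc j i]
  congr 1
  ring

theorem transpose_tn {m n : ℕ} (A : Matrix (Fin m) (Fin n) ℝ) (h : IsTN A) :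
    IsTN A.transpose := by
  intro I J hIJ
  rw [minor_tr A J I hIJ.symm hIJ]
  exact h J I hIJ.symm

theorem transpose_zero {m n : ℕ} (A : Matrix (Fin m) (Fin n) ℝ) :
    zeroPattern A.transpose = {P | (P.2, P.1) ∈ zeroPattern A} := by
  ext ⟨J, I⟩
  constructor
  · rintro ⟨h1, h2, h3⟩
    refine ⟨?_, h2.symm, ?_⟩
    · change 1 ≤ I.card
      have h1' : 1 ≤ J.card := h1
      have h2' : I.card = J.card := h2
      omega
    · change minor A I J _ = 0
      have h3' : minor A.transpose J I h2 = 0 := h3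
      rwa [minor_tr A I J h2.symm h2] at h3'
  · rintro ⟨h1, h2, h3⟩
    refine ⟨?_, h2.symm, ?_⟩
    · change 1 ≤ J.card
      have h1' : 1 ≤ I.card := h1
      have h2' : J.card = I.card := h2
      omega
    · change minor A.transpose J I _ = 0
      rw [minor_tr A I J h2 h2.symm]
      exact h3

theorem pattern_swap {m n : ℕ} (hmn : n < m) (Q : Set ℤ) :
    pattern m n Q = {P | (P.2, P.1) ∈ pattern n m Q} := by
  ext ⟨I, J⟩
  have h1 : ¬ (m ≤ n) := by omega
  have h2 : n ≤ m := by omega
  have h3 : ¬ (m < n) := by omega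
  simp only [pattern, Set.mem_setOf_eq, h1, h2, h3, hmn, false_and, true_and, or_false, false_or]
  constructor
  · rintro ⟨a, b, c⟩
    exact ⟨by omega, b.symm, c⟩
  · rintro ⟨a, b, c⟩
    exact ⟨by omega, b.symm, c⟩

end J42

end TZ
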