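import Pool.Agent.Helper80.TZ.Defs
import Pool.Agent.Helper80.TZ.FDefs
import Pool.Agent.Helper80.TZ.J32
import Pool.Agent.Helper80.TZ.J41
import Pool.Agent.Helper80.TZ.J42
set_option autoImplicit false
set_option linter.unusedVariables false
open Finset

namespace TZ

namespace J43

lemma exists_A {m n : ℕ} (hm : 1 ≤ m) (hmn : m ≤ n) (Q : Set ℤ)
    (hQ : Q ⊆ Set.Icc 1 ((m:ℤ) + n - 1)) :
    ∃ c : ℤ → ℝ, ∃ A : Matrix (Fin m) (Fin n) ℝ, (∀ i j, A i j = c ((j:ℤ) - (i:ℤ))) ∧ IsTN A ∧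
      QA c m n = Q := by
  obtain ⟨c, hc, hQc⟩ := J32.exists_QA m n hm hmn Q (fun q hq => by
    have := hQ hq
    simp only [Set.mem_Icc] at this
    omega)
  refine ⟨c, Matrix.of fun i j => c ((j:ℤ) - (i:ℤ)), fun i j => rfl, ?_, hQc⟩
  exact (J40.tn_iff c _ (fun i j => rfl)).2 hc

lemma QA_sub (c : ℤ → ℝ) (m n : ℕ) : QA c m n ⊆ Set.Icc 1 ((m:ℤ) + n - 1) := by
  intro t ht
  have h1 := ht.1
  have h2 := ht.2.1
  simp only [Set.mem_Icc]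
  omega

lemma real_le {m n : ℕ} (hm : 1 ≤ m) (hmn : m ≤ n) (Z : Set (Finset (Fin m) × Finset (Fin n))) :
    (∃ A : Matrix (Fin m) (Fin n) ℝ, IsToeplitz A ∧ IsTN A ∧ zeroPattern A = Z) ↔
      ∃ Q : Set ℤ, Q ⊆ Set.Icc 1 ((m:ℤ) + n - 1) ∧ Z = pattern m n Q := by
  constructor
  · rintro ⟨A, ⟨c, hA⟩, hTN, rfl⟩
    exact ⟨QA c m n, QA_sub c m n, J41.zero_le hm hmn c A hA hTN⟩
  · rintro ⟨Q, hQ, rfl⟩
    obtain ⟨c, A, hA, hTN, hQc⟩ := exists_A hm hmn Q hQ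
    exact ⟨A, ⟨c, hA⟩, hTN, by rw [J41.zero_le hm hmn c A hA hTN, hQc]⟩

lemma inj_le {m n : ℕ} (hm : 1 ≤ m) (hmn : m ≤ n) :
    Set.InjOn (pattern m n) {Q | Q ⊆ Set.Icc 1 ((m:ℤ) + n - 1)} := by
  intro Q hQ Q' hQ' h
  obtain ⟨c, A, hA, hTN, hQc⟩ := exists_A hm hmn Q hQ
  obtain ⟨c', A', hA', hTN', hQc'⟩ := exists_A hm hmn Q' hQ'
  have h1 : zeroPattern A = zeroPattern A' := by
    rw [J41.zero_le hm hmn c A hA hTN, J41.zero_le hm hmn c' A' hA' hTN', hQc, hQc', h]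
  have := J41.QA_congr hm hmn c c' A A' hA hTN hA' hTN' h1
  rw [← hQc, ← hQc', this]

lemma swap_inj {m n : ℕ} (Z Z' : Set (Finset (Fin m) × Finset (Fin n)))
    (h : {P : Finset (Fin n) × Finset (Fin m) | (P.2, P.1) ∈ Z} = {P | (P.2, P.1) ∈ Z'}) :
    Z = Z' := by
  ext ⟨I, J⟩
  have := congrArg (fun S => (J, I) ∈ S) h
  simpa using this

lemma real_gt {m n : ℕ} (hn : 1 ≤ n) (hmn : n < m) (Z : Set (Finset (Fin m) × Finset (Fin n))) :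
    (∃ A : Matrix (Fin m) (Fin n) ℝ, IsToeplitz A ∧ IsTN A ∧ zeroPattern A = Z) ↔
      ∃ Q : Set ℤ, Q ⊆ Set.Icc 1 ((m:ℤ) + n - 1) ∧ Z = pattern m n Q := by
  have key := real_le hn hmn.le {P : Finset (Fin n) × Finset (Fin m) | (P.2, P.1) ∈ Z}
  have e : (n:ℤ) + m - 1 = (m:ℤ) + n - 1 := by ring
  rw [e] at key
  constructor
  · rintro ⟨A, hT, hTN, rfl⟩
    obtain ⟨Q, hQ, hZ⟩ := key.1 ⟨A.transpose, J42.transpose_toeplitz A hT,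
      J42.transpose_tn A hTN, J42.transpose_zero A⟩
    refine ⟨Q, hQ, ?_⟩
    rw [J42.pattern_swap hmn]
    ext ⟨I, J⟩
    have := congrArg (fun S => (J, I) ∈ S) hZ
    simpa using this
  · rintro ⟨Q, hQ, hZ⟩
    obtain ⟨B, hT, hTN, hB⟩ := key.2 ⟨Q, hQ, by
      rw [hZ, J42.pattern_swap hmn]
      ext ⟨I, J⟩
      simp⟩
    refine ⟨B.transpose, J42.transpose_toeplitz B hT, J42.transpose_tn B hTN, ?_⟩
    rw [J42.transpose_zero, hB]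
    ext ⟨I, J⟩
    simp

lemma inj_gt {m n : ℕ} (hn : 1 ≤ n) (hmn : n < m) :
    Set.InjOn (pattern m n) {Q | Q ⊆ Set.Icc 1 ((m:ℤ) + n - 1)} := by
  intro Q hQ Q' hQ' h
  have e : (n:ℤ) + m - 1 = (m:ℤ) + n - 1 := by ring
  have key := inj_le hn hmn.le
  rw [e] at key
  refine key hQ hQ' ?_
  rw [J42.pattern_swap hmn, J42.pattern_swap hmn] at h
  exact swap_inj _ _ h

lemma real_all {m n : ℕ} (hm : 1 ≤ m) (hn : 1 ≤ n)
    (Z : Set (Finset (Fin m) × Finset (Fin n))) :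
    (∃ A : Matrix (Fin m) (Fin n) ℝ, IsToeplitz A ∧ IsTN A ∧ zeroPattern A = Z) ↔
      ∃ Q : Set ℤ, Q ⊆ Set.Icc 1 ((m:ℤ) + n - 1) ∧ Z = pattern m n Q := by
  rcases le_or_gt m n with h | h
  · exact real_le hm h Z
  · exact real_gt hn h Z

lemma inj_all {m n : ℕ} (hm : 1 ≤ m) (hn : 1 ≤ n) :
    Set.InjOn (pattern m n) {Q | Q ⊆ Set.Icc 1 ((m:ℤ) + n - 1)} := by
  rcases le_or_gt m n with h | h
  · exact inj_le hm h
  · exact inj_gt hn h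

lemma count {m n : ℕ} (hm : 1 ≤ m) (hn : 1 ≤ n) :
    {Z : Set (Finset (Fin m) × Finset (Fin n)) |
      ∃ A : Matrix (Fin m) (Fin n) ℝ, IsToeplitz A ∧ IsTN A ∧ zeroPattern A = Z}.ncard
      = 2 ^ (m + n - 1) := by
  have h1 : {Z : Set (Finset (Fin m) × Finset (Fin n)) |
      ∃ A : Matrix (Fin m) (Fin n) ℝ, IsToeplitz A ∧ IsTN A ∧ zeroPattern A = Z}
      = pattern m n '' {Q | Q ⊆ Set.Icc 1 ((m:ℤ) + n - 1)} := by
    ext Z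
    simp only [Set.mem_ofPred_eq, Set.mem_image]
    rw [real_all hm hn Z]
    constructor
    · rintro ⟨Q, hQ, rfl⟩; exact ⟨Q, hQ, rfl⟩
    · rintro ⟨Q, hQ, rfl⟩; exact ⟨Q, hQ, rfl⟩
  rw [h1, Set.InjOn.ncard_image (inj_all hm hn)]
  have h2 : {Q : Set ℤ | Q ⊆ Set.Icc 1 ((m:ℤ) + n - 1)} = (Set.Icc 1 ((m:ℤ) + n - 1)).powerset := rfl
  rw [h2, Set.ncard_powerset _ (Set.finite_Icc _ _)]
  congr 1
  have h3 : Set.Icc (1:ℤ) ((m:ℤ) + n - 1) = ((Finset.Icc (1:ℤ) ((m:ℤ) + n - 1) : Finset ℤ) : Set ℤ) := by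
    ext x; simp
  rw [h3, Set.ncard_coe_finset, Int.card_Icc]
  omega

end J43

end TZ
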